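import Pool.Agent.PGS.Out
import Pool.Agent.POL.LowH

/-!
PGS / Ext (helper39): a closed word with a tall bridge in a rotation has a vertex far from the start; the number of the
polygons from below.
-/

set_option autoImplicit false

namespace HexObs

namespace PGS

open Finset TS SDN NTW NTA SIM JNT POL

open scoped ENNReal Classical

/-- **the extent of the class** -/
theorem ext_rot {N c0 : ℕ} {t Z R : List Bool} (ht : t ∈ Cy N) (hN : 1 ≤ N) (he : t.rotate c0 = Z ++ R) (hZ : Z ∈ BU) :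
    ∃ j, j < N ∧ (hgt Z : ℝ) ^ 2 / 2 ≤ ((nrm (vx oo up t j - vx oo up t 0) : ℤ) : ℝ) := by
  have hlen := ht.1
  obtain ⟨a, ha⟩ : ∃ a, a = c0 % N := ⟨_, rfl⟩
  have hrot : t.rotate a = Z ++ R := by rw [ha, ← he, ← hlen, List.rotate_mod]
  have hZl : Z.length ≤ t.length := by
    have := congrArg List.length hrot
    rw [List.length_rotate, List.length_append] at this
    omega
  have hZb := BUb hZ
  have h1 : 2 * (hgt Z : ℝ) ^ 2 ≤ ((nrm (vx oo up (Z ++ R) Z.length - vx oo up (Z ++ R) 0) : ℤ) : ℝ) := by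
    refine nrm_lev ?_
    rw [vx_append (Nat.le_succ _), ip_vx, (mem_Brd.1 hZb).2.2.2]
    have h0 : ip (vx oo up (Z ++ R) 0) up = 0 := by
      show ip oo up = 0
      rfl
    rw [h0, sub_zero]
  have h00 : vx oo up (Z ++ R) 0 = 0 := rfl
  rw [h00, sub_zero, ← hrot, rot_vx (by omega), nrm_mulE, nrm_rotTo_pd, one_mul] at h1
  obtain ⟨r, hr, er⟩ := pv_red ht hN (a + Z.length)
  obtain ⟨r', hr', er'⟩ := pv_red ht hN a
  rw [er, er'] at h1
  have h2 : ((nrm (vx oo up t r - vx oo up t r') : ℤ) : ℝ) ≤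
      2 * ((nrm (vx oo up t r - vx oo up t 0) : ℤ) : ℝ) + 2 * ((nrm (vx oo up t r' - vx oo up t 0) : ℤ) : ℝ) := by
    exact_mod_cast nrm_par (vx oo up t r) (vx oo up t r') (vx oo up t 0)
  rcases le_or_gt ((hgt Z : ℝ) ^ 2 / 2) ((nrm (vx oo up t r - vx oo up t 0) : ℤ) : ℝ) with h3 | h3
  · exact ⟨r, hr, h3⟩
  · exact ⟨r', hr', by linarith⟩

/-- the number of the polygons with a far vertex, from below -/
theorem far_low {f : ℕ → Fin 3 → ℂ} (hf : MS.Hex f) {n : ℕ} (hn : 3 ≤ n) (ho : ¬ Even n) {θ B : ℝ} (hθ : 0 ≤ θ)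
    (h : ENNReal.ofReal B ≤ gf {t | t ∈ Cy (n + 1) ∧ ∃ j, j < n + 1 ∧
      θ ^ 2 ≤ ((nrm (vx oo up t j - vx oo up t 0) : ℤ) : ℝ)}) :
    3 * POLP.mu ^ (n + 1) * B ≤
      (((PGX.Pol f n).filter fun s => ∃ j, j ≤ n ∧ θ ≤ ‖MS.pw f s j‖).card : ℝ) := by
  have hx := xc_pos
  have hm := POLP.mu_pos
  obtain ⟨G, hG⟩ : ∃ G : List Bool → ℝ, G = fun t => if ∃ j, j ≤ n ∧
    θ ^ 2 ≤ ((nrm (vx oo up t j - vx oo up t 0) : ℤ) : ℝ) then 1 else 0 := ⟨_, rfl⟩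
  have hG0 : ∀ t, 0 ≤ G t := fun t => by
    rw [hG]
    dsimp only
    split_ifs <;> norm_num
  have h0 : ∀ s : Fin n → Fin 3, MS.pw f s 0 = 0 := by
    intro s
    unfold MS.pw
    rw [Finset.filter_false_of_mem (fun i _ => Nat.not_lt_zero _), Finset.sum_empty]
  have h1 : ∑ s ∈ PGX.Pol f n, (if ∃ j, j ≤ n ∧ θ ≤ ‖MS.pw f s j‖ then (1 : ℝ) else 0) =
      3 * ∑ t ∈ (POLP.PCy_fin (n + 1)).toFinset, G t := by
    refine POLP.sum_Pol hf hn ho _ _ fun s hs => ?_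
    rw [hG]
    dsimp only
    have hs' := (Finset.mem_filter.1 hs).1
    congr 1
    rw [eq_iff_iff]
    constructor
    · rintro ⟨j, hj, h2⟩
      refine ⟨j, hj, ?_⟩
      rw [← POLP.dist_cw hf (by omega) hs' hj (Nat.zero_le _), h0, sub_zero]
      exact pow_le_pow_left₀ hθ h2 2
    · rintro ⟨j, hj, h2⟩
      refine ⟨j, hj, ?_⟩
      rw [← POLP.dist_cw hf (by omega) hs' hj (Nat.zero_le _), h0, sub_zero] at h2
      exact le_of_sq_le_sq h2 (norm_nonneg _)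
  have h2 : (((PGX.Pol f n).filter fun s => ∃ j, j ≤ n ∧ θ ≤ ‖MS.pw f s j‖).card : ℝ) =
      3 * ∑ t ∈ (POLP.PCy_fin (n + 1)).toFinset, G t := by
    rw [← h1, Finset.sum_ite, Finset.sum_const_zero, add_zero, Finset.sum_const, nsmul_eq_mul, mul_one]
  have h3 := POLP.tsum_PCy (n + 1) G fun t _ => hG0 t
  have h4 : gf {t | t ∈ Cy (n + 1) ∧ ∃ j, j < n + 1 ∧ θ ^ 2 ≤ ((nrm (vx oo up t j - vx oo up t 0) : ℤ) : ℝ)} ≤
      ∑' t : POLP.PCy (n + 1), wE (t : List Bool) * ENNReal.ofReal (G t) := by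
    unfold gf
    rw [tsum_subtype (POLP.PCy (n + 1)) fun t => wE t * ENNReal.ofReal (G t),
      tsum_subtype {t | t ∈ Cy (n + 1) ∧ ∃ j, j < n + 1 ∧ θ ^ 2 ≤ ((nrm (vx oo up t j - vx oo up t 0) : ℤ) : ℝ)} wE]
    refine ENNReal.tsum_le_tsum fun t => ?_
    by_cases ht : t ∈ Cy (n + 1) ∧ ∃ j, j < n + 1 ∧ θ ^ 2 ≤ ((nrm (vx oo up t j - vx oo up t 0) : ℤ) : ℝ)
    · rw [Set.indicator_of_mem (show t ∈ {t | t ∈ Cy (n + 1) ∧ ∃ j, j < n + 1 ∧
        θ ^ 2 ≤ ((nrm (vx oo up t j - vx oo up t 0) : ℤ) : ℝ)} from ht)]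
      have hp : t ∈ POLP.PCy (n + 1) := by rw [← Cy_eq]; exact ht.1
      rw [Set.indicator_of_mem hp, hG]
      obtain ⟨j, hj, h5⟩ := ht.2
      dsimp only
      rw [if_pos ⟨j, by omega, h5⟩, ENNReal.ofReal_one, mul_one]
    · rw [Set.indicator_of_notMem (show t ∉ {t | t ∈ Cy (n + 1) ∧ ∃ j, j < n + 1 ∧
        θ ^ 2 ≤ ((nrm (vx oo up t j - vx oo up t 0) : ℤ) : ℝ)} from ht)]
      exact zero_le
  have h5 := h.trans h4
  have hS0 : 0 ≤ ∑ t ∈ (POLP.PCy_fin (n + 1)).toFinset, G t := Finset.sum_nonneg fun t _ => hG0 t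
  rw [h3, ENNReal.ofReal_le_ofReal_iff (by positivity)] at h5
  rw [h2]
  have e : ∑ t ∈ (POLP.PCy_fin (n + 1)).toFinset, G t =
      (xc ^ (n + 1) * ∑ t ∈ (POLP.PCy_fin (n + 1)).toFinset, G t) * POLP.mu ^ (n + 1) := by
    have := POLP.xc_mul_mu (n + 1)
    linear_combination (-(∑ t ∈ (POLP.PCy_fin (n + 1)).toFinset, G t)) * this
  rw [e]
  calc 3 * POLP.mu ^ (n + 1) * B ≤ 3 * POLP.mu ^ (n + 1) * (xc ^ (n + 1) * ∑ t ∈ (POLP.PCy_fin (n + 1)).toFinset, G t) :=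
        mul_le_mul_of_nonneg_left h5 (by positivity)
    _ = _ := by ring

end PGS

end HexObs
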