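import Pool.Agent.PGS.Inn

/-!
PGS / Full (helper39): the full tail of the extent of the polygons from the layers of the closed words with few letters.
-/

set_option autoImplicit false

namespace HexObs

namespace PGS

open Finset TS SDN NTW NTA SIM JNT POL

open scoped ENNReal Classical

lemma pow_sub_le (e r : ℕ) : (2 : ℝ) ^ (4 * e - r) ≤ 1 + (2 ^ e) ^ 4 / 2 ^ r := by
  rcases Nat.lt_or_ge (4 * e) r with h | h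
  · rw [show 4 * e - r = 0 by omega, pow_zero]
    have : (0 : ℝ) ≤ (2 ^ e) ^ 4 / 2 ^ r := by positivity
    linarith
  · have h1 : (2 : ℝ) ^ (4 * e - r) * 2 ^ r = (2 ^ e) ^ 4 := by
      rw [← pow_add, show 4 * e - r + r = e * 4 by omega, pow_mul]
    have h2 : (2 : ℝ) ^ (4 * e - r) = (2 ^ e) ^ 4 / 2 ^ r := by
      rw [eq_div_iff (by positivity)]
      exact h1
    rw [h2]
    linarith

lemma le_pow_sub (i c : ℕ) : ((2 : ℝ) ^ i) ^ 4 / 2 ^ c ≤ 2 ^ (4 * i - c) := by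
  rw [div_le_iff₀ (by positivity), ← pow_mul, ← pow_add]
  exact pow_le_pow_right₀ (by norm_num) (by omega)

lemma half_pow (m : ℕ) {x : ℝ} (h : x ≤ m) : ((1 : ℝ) / 2) ^ m ≤ Real.exp (-(Real.log 2 * x)) := by
  have h1 : ((1 : ℝ) / 2) ^ m = Real.exp (-(Real.log 2 * m)) := by
    rw [one_div, inv_pow, Real.exp_neg, mul_comm, Real.exp_nat_mul, Real.exp_log (by norm_num)]
  rw [h1, Real.exp_le_exp]
  have := Real.log_pos (show (1 : ℝ) < 2 by norm_num)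
  nlinarith

/-- the exponent wins -/
lemma ex_j1 (i0 r : ℕ) : ∃ j1 : ℕ, ∀ j, j1 ≤ j → 3 * j + i0 ≤ 2 ^ (4 * j - r) := by
  refine ⟨r + i0 + 1, fun j hj => ?_⟩
  have h1 : 3 * j - r < 2 ^ (3 * j - r) := Nat.lt_two_pow_self
  have h2 : 2 ^ (4 * j - r) = 2 ^ j * 2 ^ (3 * j - r) := by
    rw [← pow_add]
    congr 1
    omega
  have h3 : j < 2 ^ j := Nat.lt_two_pow_self
  rw [h2]
  have h4 : 2 * j + i0 + 1 ≤ 2 ^ (3 * j - r) + r := by omega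
  nlinarith

/-- the scale -/
lemma ex_scale {c1 : ℝ} (hc1 : 0 < c1) (k1 : ℕ) : ∃ n0 : ℕ, ∀ N : ℕ, n0 ≤ N → ∃ k : ℕ, k1 ≤ k ∧
    (N : ℝ) < c1 * 2 ^ (4 / 3 * ((k + 1 : ℕ) : ℝ)) ∧ c1 * 2 ^ (4 / 3 * (k : ℝ)) ≤ N := by
  obtain ⟨n0, hn0⟩ := exists_nat_ge (c1 * 2 ^ (4 / 3 * ((k1 + 1 : ℕ) : ℝ)))
  refine ⟨n0, fun N hN => ?_⟩
  have hNR : (n0 : ℝ) ≤ N := by exact_mod_cast hN
  have hex : ∃ k : ℕ, (N : ℝ) < c1 * 2 ^ (4 / 3 * ((k + 1 : ℕ) : ℝ)) := by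
    obtain ⟨k, hk⟩ := pow_unbounded_of_one_lt ((N : ℝ) / c1) (one_lt_two (α := ℝ))
    refine ⟨k, ?_⟩
    rw [div_lt_iff₀ hc1] at hk
    have h1 : (2 : ℝ) ^ k ≤ 2 ^ (4 / 3 * ((k + 1 : ℕ) : ℝ)) := by
      rw [← Real.rpow_natCast]
      apply Real.rpow_le_rpow_of_exponent_le (by norm_num)
      push_cast
      have : (0 : ℝ) ≤ k := Nat.cast_nonneg _
      linarith
    nlinarith
  have h1 := Nat.find_spec hex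
  have h2 := fun m (hm : m < Nat.find hex) => Nat.find_min hex hm
  obtain ⟨k, hk⟩ : ∃ k, k = Nat.find hex := ⟨_, rfl⟩
  rw [← hk] at h1 h2
  have hmono : ∀ a b : ℕ, a ≤ b → c1 * 2 ^ (4 / 3 * ((a : ℕ) : ℝ)) ≤ c1 * 2 ^ (4 / 3 * ((b : ℕ) : ℝ)) := by
    intro a b hab
    have h3 : (a : ℝ) ≤ b := by exact_mod_cast hab
    have h4 : (2 : ℝ) ^ (4 / 3 * ((a : ℕ) : ℝ)) ≤ 2 ^ (4 / 3 * ((b : ℕ) : ℝ)) :=
      Real.rpow_le_rpow_of_exponent_le (by norm_num) (by linarith)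
    exact mul_le_mul_of_nonneg_left h4 hc1.le
  have hkk : k1 < k := by
    by_contra hc
    have := hmono (k + 1) (k1 + 1) (by omega)
    linarith
  refine ⟨k, hkk.le, h1, ?_⟩
  have h3 := h2 (k - 1) (by omega)
  rw [not_lt, show k - 1 + 1 = k by omega] at h3
  exact h3

lemma f1 {c1 : ℝ} (hc1 : 0 < c1) {n k : ℕ} (hn : 1 ≤ n) (h : c1 * 2 ^ (4 / 3 * (k : ℝ)) ≤ ((n + 1 : ℕ) : ℝ)) :
    (2 : ℝ) ^ k ≤ 2 * c1 ^ (-(3 / 4) : ℝ) * (n : ℝ) ^ (3 / 4 : ℝ) := by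
  have hn0 : (0 : ℝ) < n := by exact_mod_cast hn
  have h1 : (1 : ℝ) ≤ n := by exact_mod_cast hn
  have h2 : (c1 * 2 ^ (4 / 3 * (k : ℝ))) ^ (3 / 4 : ℝ) ≤ (2 * (n : ℝ)) ^ (3 / 4 : ℝ) := by
    apply Real.rpow_le_rpow (by positivity) _ (by norm_num)
    push_cast at h
    linarith
  rw [Real.mul_rpow hc1.le (by positivity), ← Real.rpow_mul (by norm_num), Real.mul_rpow (by norm_num) hn0.le,
    show (4 / 3 * (k : ℝ)) * (3 / 4) = k by ring, Real.rpow_natCast] at h2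
  have h3 : (2 : ℝ) ^ (3 / 4 : ℝ) ≤ 2 := by
    calc (2 : ℝ) ^ (3 / 4 : ℝ) ≤ 2 ^ (1 : ℝ) := Real.rpow_le_rpow_of_exponent_le (by norm_num) (by norm_num)
      _ = 2 := Real.rpow_one 2
  have h4 : (0 : ℝ) < c1 ^ (3 / 4 : ℝ) := by positivity
  rw [Real.rpow_neg hc1.le]
  have h5 : 2 * (c1 ^ (3 / 4 : ℝ))⁻¹ * (n : ℝ) ^ (3 / 4 : ℝ) = (2 * (n : ℝ) ^ (3 / 4 : ℝ)) / c1 ^ (3 / 4 : ℝ) := by
    field_simp
  rw [h5, le_div_iff₀ h4]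
  have h6 : (0 : ℝ) ≤ (n : ℝ) ^ (3 / 4 : ℝ) := by positivity
  nlinarith

lemma f2 {c1 : ℝ} (hc1 : 0 < c1) {n k : ℕ} (h : ((n + 1 : ℕ) : ℝ) < c1 * 2 ^ (4 / 3 * ((k + 1 : ℕ) : ℝ))) :
    (n : ℝ) ^ (3 / 4 : ℝ) ≤ 2 * c1 ^ (3 / 4 : ℝ) * 2 ^ k := by
  have hn0 : (0 : ℝ) ≤ n := Nat.cast_nonneg _
  have h2 : (n : ℝ) ^ (3 / 4 : ℝ) ≤ (c1 * 2 ^ (4 / 3 * ((k + 1 : ℕ) : ℝ))) ^ (3 / 4 : ℝ) := by
    apply Real.rpow_le_rpow hn0 _ (by norm_num)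
    push_cast at h ⊢
    linarith
  rw [Real.mul_rpow hc1.le (by positivity), ← Real.rpow_mul (by norm_num),
    show (4 / 3 * ((k + 1 : ℕ) : ℝ)) * (3 / 4) = ((k + 1 : ℕ) : ℝ) by ring, Real.rpow_natCast, pow_succ] at h2
  linarith

lemma f3 {c1 : ℝ} (hc1 : 0 < c1) {n k : ℕ} (h : ((n + 1 : ℕ) : ℝ) < c1 * 2 ^ (4 / 3 * ((k + 1 : ℕ) : ℝ))) :
    (n : ℝ) ^ (11 / 32 : ℝ) ≤ c1 ^ (11 / 32 : ℝ) * 2 * Real.exp k := by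
  have hn0 : (0 : ℝ) ≤ n := Nat.cast_nonneg _
  have h2 : (n : ℝ) ^ (11 / 32 : ℝ) ≤ (c1 * 2 ^ (4 / 3 * ((k + 1 : ℕ) : ℝ))) ^ (11 / 32 : ℝ) := by
    apply Real.rpow_le_rpow hn0 _ (by norm_num)
    push_cast at h ⊢
    linarith
  rw [Real.mul_rpow hc1.le (by positivity), ← Real.rpow_mul (by norm_num)] at h2
  refine h2.trans ?_
  rw [mul_assoc (c1 ^ (11 / 32 : ℝ)) 2 _]
  apply mul_le_mul_of_nonneg_left _ (by positivity)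
  have h3 : (2 : ℝ) ^ ((4 / 3 * ((k + 1 : ℕ) : ℝ)) * (11 / 32)) ≤ 2 ^ (1 + (k : ℝ)) := by
    apply Real.rpow_le_rpow_of_exponent_le (by norm_num)
    push_cast
    have : (0 : ℝ) ≤ k := Nat.cast_nonneg _
    linarith
  refine h3.trans ?_
  rw [Real.rpow_add (by norm_num), Real.rpow_one, Real.rpow_natCast]
  apply mul_le_mul_of_nonneg_left _ (by norm_num)
  have h4 : (2 : ℝ) ≤ Real.exp 1 := by
    have := Real.add_one_le_exp (1 : ℝ)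
    linarith
  calc (2 : ℝ) ^ k ≤ (Real.exp 1) ^ k := pow_le_pow_left₀ (by norm_num) h4 k
    _ = Real.exp k := by rw [← Real.exp_nat_mul, mul_one]

lemma f4 {c1 a2 : ℝ} (hc1 : 0 < c1) (ha2 : 0 < a2) {n k : ℕ} (hn : 1 ≤ n) (h : (n : ℝ) ^ (3 / 4 : ℝ) ≤ a2 * 2 ^ k) :
    ((n + 1 : ℕ) : ℝ) / (c1 * 2 ^ (10 / 3 * (k : ℝ))) ≤ 2 * a2 ^ (10 / 3 : ℝ) / c1 * (n : ℝ) ^ (-(3 / 2) : ℝ) := by
  have hn0 : (0 : ℝ) < n := by exact_mod_cast hn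
  have h1 : (1 : ℝ) ≤ n := by exact_mod_cast hn
  have h2 : ((n : ℝ) ^ (3 / 4 : ℝ)) ^ (10 / 3 : ℝ) ≤ (a2 * 2 ^ k) ^ (10 / 3 : ℝ) :=
    Real.rpow_le_rpow (by positivity) h (by norm_num)
  rw [← Real.rpow_mul hn0.le, Real.mul_rpow ha2.le (by positivity), ← Real.rpow_natCast (2 : ℝ) k,
    ← Real.rpow_mul (by norm_num), show (3 / 4 : ℝ) * (10 / 3) = 5 / 2 by norm_num,
    show (k : ℝ) * (10 / 3) = 10 / 3 * k by ring] at h2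
  obtain ⟨P, hP⟩ : ∃ P : ℝ, P = 2 ^ (10 / 3 * (k : ℝ)) := ⟨_, rfl⟩
  have hP0 : 0 < P := by rw [hP]; positivity
  rw [← hP] at h2 ⊢
  have h3 : (n : ℝ) ^ (5 / 2 : ℝ) * (n : ℝ) ^ (-(3 / 2) : ℝ) = n := by
    rw [← Real.rpow_add hn0]
    norm_num
  have h4 : (0 : ℝ) < (n : ℝ) ^ (-(3 / 2) : ℝ) := by positivity
  rw [div_le_iff₀ (by positivity)]
  have h5 : 2 * a2 ^ (10 / 3 : ℝ) / c1 * (n : ℝ) ^ (-(3 / 2) : ℝ) * (c1 * P) =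
      2 * (a2 ^ (10 / 3 : ℝ) * P * (n : ℝ) ^ (-(3 / 2) : ℝ)) := by
    field_simp
  rw [h5]
  have h6 : (n : ℝ) ≤ a2 ^ (10 / 3 : ℝ) * P * (n : ℝ) ^ (-(3 / 2) : ℝ) := by
    calc (n : ℝ) = (n : ℝ) ^ (5 / 2 : ℝ) * (n : ℝ) ^ (-(3 / 2) : ℝ) := h3.symm
      _ ≤ _ := mul_le_mul_of_nonneg_right h2 h4.le
  push_cast
  linarith

end PGS

end HexObs
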