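import Pool.Agent.PGS.Full

/-!
PGS / FullT (helper39): the full tail of the extent of the polygons.
-/

set_option autoImplicit false

namespace HexObs

namespace PGS

open Finset TS SDN NTW NTA SIM JNT POL

open scoped ENNReal Classical

/-- the number of the polygons with a vertex at a distance of at least θ from the start -/
noncomputable def cnt (n : ℕ) (θ : ℝ) : ℝ :=
  (((PGX.Pol Pool.Agent.NTS.Res.step n).filter fun s => ∃ j, j ≤ n ∧ θ ≤ ‖MS.pw Pool.Agent.NTS.Res.step s j‖).card : ℝ)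

lemma cnt_le (n : ℕ) (θ : ℝ) : cnt n θ ≤ ((PGX.Pol Pool.Agent.NTS.Res.step n).card : ℝ) := by
  unfold cnt
  exact_mod_cast Finset.card_le_card (Finset.filter_subset _ _)

lemma cnt_zero {n : ℕ} {θ : ℝ} (h : (n : ℝ) < θ) : cnt n θ = 0 := by
  unfold cnt
  rw [Finset.filter_false_of_mem, Finset.card_empty, Nat.cast_zero]
  rintro s hs ⟨j, hj, h1⟩
  have h2 := MS.steps_le PGSE.hexS s 0 j (Nat.zero_le _)
  have h0 : MS.pw Pool.Agent.NTS.Res.step s 0 = 0 := by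
    unfold MS.pw
    rw [Finset.filter_false_of_mem (fun i _ => Nat.not_lt_zero _), Finset.sum_empty]
  rw [h0, sub_zero] at h2
  have h3 : (j : ℝ) ≤ n := by exact_mod_cast hj
  push_cast at h2
  linarith

/-- the two parts of the exponent -/
lemma stepA {c4 C4 D X m k Z P : ℝ} (hC4 : 0 < C4) (hD : 0 ≤ D) (hP : 0 ≤ P)
    (h1 : X ≤ C4 * m * Real.exp (-(c4 * Z)) * P) (hm : m ≤ D * Real.exp k) (hk : k ≤ 1 + c4 / 2 * Z) :
    X ≤ C4 * D * Real.exp 1 * Real.exp (-(c4 / 2 * Z)) * P := by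
  refine h1.trans (mul_le_mul_of_nonneg_right ?_ hP)
  have h2 : Real.exp k * Real.exp (-(c4 * Z)) ≤ Real.exp 1 * Real.exp (-(c4 / 2 * Z)) := by
    rw [← Real.exp_add, ← Real.exp_add, Real.exp_le_exp]
    linarith
  calc C4 * m * Real.exp (-(c4 * Z)) ≤ C4 * (D * Real.exp k) * Real.exp (-(c4 * Z)) := by gcongr
    _ = C4 * D * (Real.exp k * Real.exp (-(c4 * Z))) := by ring
    _ ≤ C4 * D * (Real.exp 1 * Real.exp (-(c4 / 2 * Z))) := by gcongr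
    _ = _ := by ring

/-- **the inner and the outer part** -/
lemma two_parts {c1 A : ℝ} (hlow : ∀ k : ℕ, c1 * 2 ^ (4 / 3 * (k : ℝ)) ≤ mM k) (hc1 : 0 < c1) (hA : 1 ≤ A)
    {n k i e c8 : ℕ} (hn : 3 ≤ n) (ho : ¬ Even n) (hi : 1 ≤ i) (hie : i < e) {θ : ℝ} (hθ : 0 < θ)
    (hθk : 10 * 2 ^ (k + i - 1) < θ)
    (h : ∀ j, i ≤ j → j < e → gf (WC (n + 1) (k + j) \ WC (n + 1) (k + j - 1)) ≤
      ENNReal.ofReal (A * (1 / 2) ^ (2 ^ (4 * j - c8)) * (((n + 1 : ℕ) : ℝ) / w4 mM (k + j)))) :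
    cnt n θ ≤ 6 * POLP.mu ^ (n + 1) * (A * (1 / 2) ^ (2 ^ (4 * i - c8)) *
      (((n + 1 : ℕ) : ℝ) / (c1 * 2 ^ (10 / 3 * (k : ℝ))))) + cnt n (2 ^ (k + e - 1) / 2) := by
  have hx := xc_pos
  have h1 := shells hlow hc1 hA h
  have h2 := out_le PGSE.hexS hn ho (k + e - 1)
  obtain ⟨B1, hB1⟩ : ∃ B1 : ℝ, B1 = A * (1 / 2) ^ (2 ^ (4 * i - c8)) *
      (((n + 1 : ℕ) : ℝ) / (c1 * 2 ^ (10 / 3 * (k : ℝ)))) := ⟨_, rfl⟩
  have hB10 : 0 ≤ B1 := by rw [hB1]; positivity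
  rw [← hB1] at h1 ⊢
  obtain ⟨X, hX⟩ : ∃ X : ℝ, X = cnt n (2 ^ (k + e - 1) / 2) := ⟨_, rfl⟩
  have hX0 : 0 ≤ X := by rw [hX]; unfold cnt; positivity
  have h2' : gf {t | t ∈ Cy (n + 1) ∧ t ∉ WC (n + 1) (k + e - 1)} ≤ ENNReal.ofReal (xc ^ (n + 1) / 3 * X) := by
    rw [hX]
    exact h2
  rw [← hX]
  have hsub : Wd (n + 1) θ ⊆ (⋃ j ∈ Finset.Ico i e, (WC (n + 1) (k + j) \ WC (n + 1) (k + j - 1))) ∪
      {t | t ∈ Cy (n + 1) ∧ t ∉ WC (n + 1) (k + e - 1)} := by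
    rintro t ⟨ht, a, b, ha, hb, h3⟩
    have ht' : t ∈ Cy (n + 1) := by rw [Cy_eq]; exact ht
    have hnot : t ∉ WC (n + 1) (k + i - 1) := by
      intro hw
      have h4 := WC_nrm hw a b ha hb
      have h5 : (100 : ℝ) * 4 ^ (k + i - 1) = (10 * 2 ^ (k + i - 1)) ^ 2 := by
        rw [mul_pow, ← pow_mul, mul_comm (k + i - 1) 2, pow_mul]
        norm_num
      have h6 : (10 * 2 ^ (k + i - 1) : ℝ) ^ 2 < θ ^ 2 := pow_lt_pow_left₀ hθk (by positivity) (by norm_num)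
      linarith
    rcases cover hi ht' hnot with h4 | h4
    · exact h4
    · omega
  have h3 : gf (Wd (n + 1) θ) ≤ ENNReal.ofReal (2 * B1 + xc ^ (n + 1) / 3 * X) := by
    rw [ENNReal.ofReal_add (by positivity) (by positivity)]
    refine (gf_mono hsub).trans (le_trans ?_ (add_le_add h1 h2'))
    unfold gf
    exact ENNReal.tsum_union_le _ _ _
  have h4 := far_sum PGSE.hexS hn ho hθ.le (by positivity) h3
  have h5 := POLP.xc_mul_mu (n + 1)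
  have h6 : cnt n θ ≤ 3 * POLP.mu ^ (n + 1) * (2 * B1 + xc ^ (n + 1) / 3 * X) := h4
  refine h6.trans (le_of_eq ?_)
  linear_combination X * h5

/-- the inner part -/
lemma inner_le {c1 A a2 cl : ℝ} (hc1 : 0 < c1) (ha2 : 0 < a2) (hcl : 0 < cl) (hA : 1 ≤ A) {n k i c8 : ℕ} (hn : 1 ≤ n)
    (h : (n : ℝ) ^ (3 / 4 : ℝ) ≤ a2 * 2 ^ k) {P x : ℝ} (hP : cl * (n : ℝ) ^ (-(3 / 2) : ℝ) * POLP.mu ^ n ≤ P)
    (hx : x ≤ (2 ^ i) ^ 4 / 2 ^ c8) :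
    6 * POLP.mu ^ (n + 1) * (A * (1 / 2) ^ (2 ^ (4 * i - c8)) * (((n + 1 : ℕ) : ℝ) / (c1 * 2 ^ (10 / 3 * (k : ℝ))))) ≤
      12 * POLP.mu * A * a2 ^ (10 / 3 : ℝ) / (c1 * cl) * Real.exp (-(Real.log 2 * x)) * P := by
  have hm := POLP.mu_pos
  have hn0 : (0 : ℝ) < n := by exact_mod_cast hn
  have h1 : ((1 : ℝ) / 2) ^ (2 ^ (4 * i - c8)) ≤ Real.exp (-(Real.log 2 * x)) := by
    apply half_pow
    push_cast
    exact hx.trans (le_pow_sub i c8)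
  have h2 := f4 hc1 ha2 hn h
  obtain ⟨E, hE⟩ : ∃ E : ℝ, E = Real.exp (-(Real.log 2 * x)) := ⟨_, rfl⟩
  have hE0 : 0 < E := by rw [hE]; positivity
  rw [← hE] at h1 ⊢
  obtain ⟨Q, hQ⟩ : ∃ Q : ℝ, Q = (n : ℝ) ^ (-(3 / 2) : ℝ) := ⟨_, rfl⟩
  rw [← hQ] at h2 hP
  have hA0 : 0 < A := by linarith
  calc 6 * POLP.mu ^ (n + 1) * (A * (1 / 2) ^ (2 ^ (4 * i - c8)) * (((n + 1 : ℕ) : ℝ) / (c1 * 2 ^ (10 / 3 * (k : ℝ)))))
      ≤ 6 * POLP.mu ^ (n + 1) * (A * E * (2 * a2 ^ (10 / 3 : ℝ) / c1 * Q)) := by gcongr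
    _ = 12 * POLP.mu * A * a2 ^ (10 / 3 : ℝ) / (c1 * cl) * E * (cl * Q * POLP.mu ^ n) := by
        rw [pow_succ]
        field_simp
        ring
    _ ≤ _ := by gcongr

lemma exp_anti {c c' Z : ℝ} (h : c ≤ c') (hZ : 0 ≤ Z) : Real.exp (-(c' * Z)) ≤ Real.exp (-(c * Z)) := by
  rw [Real.exp_le_exp]
  nlinarith

lemma q1 {c4 b w L : ℝ} {r : ℕ} (hc4 : 0 < c4) (hw0 : 0 ≤ w) (hw : w ≤ b * L) (hr : 2 * b ^ 4 / c4 ≤ 2 ^ r) :
    w ^ 4 / 2 ^ r ≤ c4 / 2 * L ^ 4 := by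
  rw [div_le_iff₀ (by positivity)]
  have h1 : w ^ 4 ≤ (b * L) ^ 4 := pow_le_pow_left₀ hw0 hw 4
  rw [mul_pow] at h1
  have h2 : b ^ 4 * L ^ 4 = c4 / 2 * L ^ 4 * (2 * b ^ 4 / c4) := by field_simp
  have h3 : 0 ≤ c4 / 2 * L ^ 4 := by positivity
  calc w ^ 4 ≤ b ^ 4 * L ^ 4 := h1
    _ = _ := h2
    _ ≤ _ := mul_le_mul_of_nonneg_left hr h3

lemma kle {c4 b L : ℝ} {r k e i : ℕ} (hc4 : 0 < c4) (hei : e ≤ i) (hk : k < 2 ^ (4 * e - r)) (hw : (2 : ℝ) ^ i ≤ b * L)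
    (hr : 2 * b ^ 4 / c4 ≤ 2 ^ r) : (k : ℝ) ≤ 1 + c4 / 2 * L ^ 4 := by
  have h1 : k ≤ 2 ^ (4 * i - r) := hk.le.trans (Nat.pow_le_pow_right (by norm_num) (by omega))
  have h2 : (k : ℝ) ≤ 2 ^ (4 * i - r) := by exact_mod_cast h1
  have h3 := pow_sub_le i r
  have h4 := q1 hc4 (by positivity) hw hr
  linarith

/-- **the full tail of the largest distance, polygons** -/
theorem tailFull (hU : UpTail) : TailFull := by
  obtain ⟨c1, hc1, hlow⟩ := VF.mLow VF.sharpZ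
  obtain ⟨c4, C4, hc4, hC4, hT⟩ := PGSE.tailE
  obtain ⟨cl, hcl, hlo⟩ := cnt_low
  have hmu := POLP.mu_pos
  obtain ⟨a1, ha1⟩ : ∃ a1 : ℝ, a1 = 2 * c1 ^ (-(3 / 4) : ℝ) := ⟨_, rfl⟩
  obtain ⟨a2, ha2⟩ : ∃ a2 : ℝ, a2 = 2 * c1 ^ (3 / 4 : ℝ) := ⟨_, rfl⟩
  obtain ⟨D, hD⟩ : ∃ D : ℝ, D = c1 ^ (11 / 32 : ℝ) * 2 := ⟨_, rfl⟩
  have ha1p : 0 < a1 := by rw [ha1]; positivity
  have ha2p : 0 < a2 := by rw [ha2]; positivity
  have hDp : 0 < D := by rw [hD]; positivity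
  obtain ⟨r0, hr0⟩ := pow_unbounded_of_one_lt (2 * (1 / (10 * a1)) ^ 4 / c4 + 2 * (4 * a2) ^ 4 / c4) (one_lt_two (α := ℝ))
  have hr1 : 2 * (1 / (10 * a1)) ^ 4 / c4 ≤ 2 ^ r0 := by
    have : 0 ≤ 2 * (4 * a2) ^ 4 / c4 := by positivity
    linarith
  have hr2 : 2 * (4 * a2) ^ 4 / c4 ≤ 2 ^ r0 := by
    have : 0 ≤ 2 * (1 / (10 * a1)) ^ 4 / c4 := by positivity
    linarith
  obtain ⟨A, c8, i0, hA, hUp⟩ := hU r0
  have hA0 : 0 < A := by linarith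
  obtain ⟨j1, hj1⟩ := ex_j1 i0 r0
  obtain ⟨n0, hn0⟩ := ex_scale hc1 (3 * j1 + i0)
  obtain ⟨L0, hL0⟩ : ∃ L0 : ℝ, L0 = 10 * a1 * 2 ^ (i0 + 2) + n0 := ⟨_, rfl⟩
  have hl2 := Real.log_pos (show (1 : ℝ) < 2 by norm_num)
  obtain ⟨c5, hc5⟩ : ∃ c5 : ℝ, c5 = Real.log 2 / ((20 * a1) ^ 4 * 2 ^ c8) := ⟨_, rfl⟩
  obtain ⟨c6, hc6⟩ : ∃ c6 : ℝ, c6 = c4 / 2 / (40 * a1 * a2) ^ 4 := ⟨_, rfl⟩
  have hc5p : 0 < c5 := by rw [hc5]; positivity
  have hc6p : 0 < c6 := by rw [hc6]; positivity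
  obtain ⟨c, hc⟩ : ∃ c : ℝ, c = min (c4 / 2) (min c5 c6) := ⟨_, rfl⟩
  have hcp : 0 < c := by rw [hc]; exact lt_min (by positivity) (lt_min hc5p hc6p)
  have hcc4 : c ≤ c4 / 2 := by rw [hc]; exact min_le_left _ _
  have hcc5 : c ≤ c5 := by rw [hc]; exact (min_le_right _ _).trans (min_le_left _ _)
  have hcc6 : c ≤ c6 := by rw [hc]; exact (min_le_right _ _).trans (min_le_right _ _)
  obtain ⟨CA, hCA⟩ : ∃ CA : ℝ, CA = C4 * D * Real.exp 1 := ⟨_, rfl⟩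
  obtain ⟨C5, hC5⟩ : ∃ C5 : ℝ, C5 = 12 * POLP.mu * A * a2 ^ (10 / 3 : ℝ) / (c1 * cl) := ⟨_, rfl⟩
  have hCAp : 0 < CA := by rw [hCA]; positivity
  have hC5p : 0 < C5 := by rw [hC5]; positivity
  refine ⟨c, Real.exp (c * L0 ^ 4) + CA + C5, hcp, by positivity, fun n hn ho L hL => ?_⟩
  have hlon := hlo Pool.Agent.NTS.Res.step PGSE.hexS n hn ho
  have hTn : ∀ Z : ℝ, 0 ≤ Z → cnt n (Z * (n : ℝ) ^ (3 / 4 : ℝ)) ≤ C4 * (n : ℝ) ^ (11 / 32 : ℝ) *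
    Real.exp (-(c4 * Z ^ 4)) * ((PGX.Pol Pool.Agent.NTS.Res.step n).card : ℝ) := fun Z hZ => hT n hn ho Z hZ
  have hcard := cnt_le n (L * (n : ℝ) ^ (3 / 4 : ℝ))
  change cnt n (L * (n : ℝ) ^ (3 / 4 : ℝ)) ≤ _
  obtain ⟨P, hP⟩ : ∃ P : ℝ, P = ((PGX.Pol Pool.Agent.NTS.Res.step n).card : ℝ) := ⟨_, rfl⟩
  have hP0 : 0 ≤ P := by rw [hP]; positivity
  rw [← hP] at hlon hTn hcard ⊢
  obtain ⟨y, hy⟩ : ∃ y : ℝ, y = (n : ℝ) ^ (3 / 4 : ℝ) := ⟨_, rfl⟩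
  have hn1 : (1 : ℝ) ≤ n := by exact_mod_cast (by omega : 1 ≤ n)
  have hn0' : (0 : ℝ) < n := by linarith
  have hy1 : 1 ≤ y := by rw [hy]; exact Real.one_le_rpow hn1 (by norm_num)
  have hy0 : 0 < y := by linarith
  obtain ⟨E, hE⟩ : ∃ E : ℝ, E = Real.exp (-(c * L ^ 4)) := ⟨_, rfl⟩
  have hE0 : 0 < E := by rw [hE]; positivity
  rw [← hy] at hcard ⊢
  rw [← hE]
  have hgoal : ∀ X : ℝ, X ≤ Real.exp (c * L0 ^ 4) * E * P + CA * E * P + C5 * E * P →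
      X ≤ (Real.exp (c * L0 ^ 4) + CA + C5) * E * P := fun X h => h.trans (le_of_eq (by ring))
  apply hgoal
  have t1 : 0 ≤ Real.exp (c * L0 ^ 4) * E * P := by positivity
  have t2 : 0 ≤ CA * E * P := by positivity
  have t3 : 0 ≤ C5 * E * P := by positivity
  rcases le_or_gt L L0 with hLL | hLL
  · have h1 : 1 ≤ Real.exp (c * L0 ^ 4) * E := by
      rw [hE, ← Real.exp_add]
      apply Real.one_le_exp
      have : L ^ 4 ≤ L0 ^ 4 := pow_le_pow_left₀ hL hLL 4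
      nlinarith
    have h2 : P ≤ Real.exp (c * L0 ^ 4) * E * P := le_mul_of_one_le_left hP0 h1
    linarith
  by_cases hnn : n0 ≤ n + 1
  swap
  · have h1 : (n : ℝ) < L * y := by
      have h2 : (n : ℝ) < n0 := by exact_mod_cast (by omega : n < n0)
      have h3 : (0 : ℝ) ≤ 10 * a1 * 2 ^ (i0 + 2) := by positivity
      have h4 : (n : ℝ) < L := by linarith
      calc (n : ℝ) < L := h4
        _ ≤ L * y := le_mul_of_one_le_right hL hy1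
    rw [cnt_zero h1]
    positivity
  obtain ⟨k, hk1, hk2, hk3⟩ := hn0 (n + 1) hnn
  have F1 : (2 : ℝ) ^ k ≤ a1 * y := by rw [ha1, hy]; exact f1 hc1 (by omega) hk3
  have F2 : y ≤ a2 * 2 ^ k := by rw [ha2, hy]; exact f2 hc1 hk2
  have F3 : (n : ℝ) ^ (11 / 32 : ℝ) ≤ D * Real.exp k := by rw [hD]; exact f3 hc1 hk2
  have hLp : 0 < L := by
    have h3 : (0 : ℝ) ≤ 10 * a1 * 2 ^ (i0 + 2) := by positivity
    have h4 : (0 : ℝ) ≤ n0 := Nat.cast_nonneg _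
    linarith
  have hLb : (2 : ℝ) ^ (i0 + 2) ≤ L / (10 * a1) := by
    rw [le_div_iff₀ (by positivity)]
    have h4 : (0 : ℝ) ≤ n0 := Nat.cast_nonneg _
    linarith
  obtain ⟨i, hi1, hi2⟩ := exists_nat_pow_near ((one_le_pow₀ (by norm_num : (1 : ℝ) ≤ 2)).trans hLb) (one_lt_two (α := ℝ))
  have hii : i0 + 1 ≤ i := by
    by_contra hcon
    have h2 : (2 : ℝ) ^ (i + 1) ≤ 2 ^ (i0 + 2) := pow_le_pow_right₀ (by norm_num) (by omega)
    linarith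
  have hex : ∃ e, k < 2 ^ (4 * e - r0) := by
    refine ⟨k + r0, Nat.lt_two_pow_self.trans_le (Nat.pow_le_pow_right (by norm_num) (by omega))⟩
  obtain ⟨e, he⟩ : ∃ e, e = Nat.find hex := ⟨_, rfl⟩
  have he1 := Nat.find_spec hex
  have he2 := fun j (hj : j < Nat.find hex) => Nat.find_min hex hj
  rw [← he] at he1 he2
  rcases Nat.lt_or_ge i e with hie | hie
  · have hθ : 0 < L * y := by positivity
    have e1 : (2 : ℝ) ^ (k + i - 1) * 2 = 2 ^ k * 2 ^ i := by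
      rw [← pow_succ, ← pow_add]
      congr 1
      omega
    have e2 : (2 : ℝ) ^ (k + e - 1) * 2 = 2 ^ k * 2 ^ e := by
      rw [← pow_succ, ← pow_add]
      congr 1
      omega
    have hθk : 10 * (2 : ℝ) ^ (k + i - 1) < L * y := by
      have h1 : (2 : ℝ) ^ k * 2 ^ i ≤ a1 * y * (L / (10 * a1)) := mul_le_mul F1 hi1 (by positivity) (by positivity)
      have h2 : a1 * y * (L / (10 * a1)) = L * y / 10 := by field_simp
      rw [h2] at h1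
      linarith
    have hmain := two_parts hlow hc1 hA (c8 := c8) (by omega : 3 ≤ n) ho (by omega : 1 ≤ i) hie hθ hθk
      (fun j hij hje => by
        have g2 := he2 j hje
        have g3 : 3 * j + i0 ≤ k := by
          rcases Nat.lt_or_ge j j1 with g4 | g4
          · omega
          · exact (hj1 j g4).trans (not_lt.1 g2)
        exact hUp (n + 1) k j (by omega) (by omega) g3 (not_lt.1 g2) (hk2.trans_le (hlow (k + 1))))
    have hin := inner_le hc1 ha2p hcl hA (c8 := c8) (i := i) (by omega : 1 ≤ n) (by rw [← hy]; exact F2) hlon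
      (x := (L / (20 * a1)) ^ 4 / 2 ^ c8) (by
        have g1 : L / (20 * a1) ≤ 2 ^ i := by
          have g2 : L / (10 * a1) = 2 * (L / (20 * a1)) := by field_simp; norm_num
          rw [g2, pow_succ] at hi2
          linarith
        gcongr)
    rw [← hC5] at hin
    have g5 : Real.log 2 * ((L / (20 * a1)) ^ 4 / 2 ^ c8) = c5 * L ^ 4 := by
      rw [hc5]
      field_simp
    rw [g5] at hin
    have g6 : Real.exp (-(c5 * L ^ 4)) ≤ E := by rw [hE]; exact exp_anti hcc5 (by positivity)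
    have g7 : C5 * Real.exp (-(c5 * L ^ 4)) * P ≤ C5 * E * P := by gcongr
    obtain ⟨Z, hZ⟩ : ∃ Z : ℝ, Z = 2 ^ (k + e - 1) / 2 / y := ⟨_, rfl⟩
    have hZ0 : 0 ≤ Z := by rw [hZ]; positivity
    have hZy : Z * y = 2 ^ (k + e - 1) / 2 := by rw [hZ]; field_simp
    have g8 : (2 : ℝ) ^ e ≤ 4 * a2 * Z := by
      have q2 : (2 : ℝ) ^ e * y ≤ 4 * a2 * Z * y := by
        have q3 : 4 * a2 * Z * y = a2 * 2 ^ k * 2 ^ e := by
          calc 4 * a2 * Z * y = 4 * a2 * (Z * y) := by ring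
            _ = a2 * (2 ^ (k + e - 1) * 2) := by rw [hZy]; ring
            _ = _ := by rw [e2]; ring
        rw [q3, mul_comm]
        exact mul_le_mul_of_nonneg_right F2 (by positivity)
      exact le_of_mul_le_mul_right q2 hy0
    have hkk : (k : ℝ) ≤ 1 + c4 / 2 * Z ^ 4 := kle hc4 le_rfl he1 g8 hr2
    have hout := stepA hC4 hDp.le hP0 (hTn Z hZ0) F3 hkk
    rw [← hy, hZy, ← hCA] at hout
    have g9 : L ≤ 40 * a1 * a2 * Z := by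
      have q4 : (2 : ℝ) ^ (i + 1) ≤ 2 ^ e := pow_le_pow_right₀ (by norm_num) (by omega)
      have q5 : L / (10 * a1) ≤ 4 * a2 * Z := by linarith
      rw [div_le_iff₀ (by positivity)] at q5
      linarith
    have g10 : c6 * L ^ 4 ≤ c4 / 2 * Z ^ 4 := by
      have q6 : L ^ 4 ≤ (40 * a1 * a2 * Z) ^ 4 := pow_le_pow_left₀ hL g9 4
      calc c6 * L ^ 4 ≤ c6 * (40 * a1 * a2 * Z) ^ 4 := by gcongr
        _ = _ := by rw [hc6]; field_simp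
    have g11 : Real.exp (-(c4 / 2 * Z ^ 4)) ≤ E := by
      rw [hE, Real.exp_le_exp]
      have : c * L ^ 4 ≤ c6 * L ^ 4 := by gcongr
      linarith
    have g12 : CA * Real.exp (-(c4 / 2 * Z ^ 4)) * P ≤ CA * E * P := by gcongr
    linarith
  · have hkk : (k : ℝ) ≤ 1 + c4 / 2 * L ^ 4 := kle hc4 hie he1 (by
      rw [one_div_mul_eq_div]
      exact hi1) hr1
    have h1 := stepA hC4 hDp.le hP0 (hTn L hL) F3 hkk
    rw [← hy, ← hCA] at h1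
    have h2 : Real.exp (-(c4 / 2 * L ^ 4)) ≤ E := by rw [hE]; exact exp_anti hcc4 (by positivity)
    have h3 : CA * Real.exp (-(c4 / 2 * L ^ 4)) * P ≤ CA * E * P := by gcongr
    linarith

end PGS

end HexObs
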