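import Pool.Agent.PGS.UpT
import Pool.Agent.PGS.FullT

/-!
PGS / FullJ (helper39): the full tail of the largest distance of the polygons.
-/

set_option autoImplicit false

namespace HexObs

namespace PGS

/-- **the full tail** -/
theorem tail_full : TailFull := tailFull upTail

end PGS

end HexObs

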