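import Pool.Agent.POL.RgRot
import Pool.Agent.SDN.EncBall

/-!
PGS / Geo (helper51): the closed words outside the box have a vertex far away from the start.
-/

set_option autoImplicit false

namespace HexObs

namespace PGS

open Finset TS SDN NTW NTA SIM JNT POL

lemma nrm_sub_le (p q : Pt) : nrm (p - q) ≤ 2 * nrm p + 2 * nrm q := by
  obtain ⟨p1, p2⟩ := p
  obtain ⟨q1, q2⟩ := q
  simp only [nrm, Prod.mk_sub_mk]
  nlinarith [sq_nonneg (p1 + q1), sq_nonneg (p2 + q2), sq_nonneg (p1 + q1 + p2 + q2)]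

/-- a closed word outside the box of radius 2 ^ K has a vertex at a distance of at least c 2 ^ K from the start -/
theorem nwc : ∃ c : ℝ, 0 < c ∧ ∀ (N K : ℕ) (t : List Bool), t ∈ Cy N → t ∉ WC N K →
    ∃ j < N, c * 4 ^ K ≤ ((nrm (vx oo up t j) : ℤ) : ℝ) := by
  refine ⟨1 / 16, by norm_num, fun N K t ht hn => ?_⟩
  have hc := Cy.clo ht
  have hlen := ht.1
  have h1 : ∃ X Y : List Bool, t = X ++ Y ∧ ∃ i, i ≤ N ∧ ∃ dir, 2 ^ K < |row dir (vx oo up (Y ++ X) i)| := by
    by_contra h
    push Not at h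
    exact hn ⟨ht, fun X Y hXY i hi dir => h X Y hXY i hi dir⟩
  obtain ⟨X, Y, hXY, i, hi, dir, h2⟩ := h1
  have hN : 1 ≤ N := by
    rcases Nat.eq_zero_or_pos N with h | h
    · exfalso
      subst h
      have h3 : t = [] := List.length_eq_zero_iff.1 hlen
      rw [h3] at hXY
      have h4 : X = [] ∧ Y = [] := by
        have := hXY.symm
        rwa [List.append_eq_nil_iff] at this
      rw [h4.1, h4.2] at h2
      have h5 : i = 0 := by omega
      rw [h5] at h2
      have h6 : row dir (vx oo up ([] ++ []) 0) = 0 := by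
        show row dir oo = 0
        cases dir <;> rfl
      rw [h6] at h2
      simp at h2
      exact absurd h2 (not_lt.2 (by positivity))
    · exact h
  have h3 : Y ++ X = t.rotate X.length := by rw [hXY, List.rotate_append_length_eq]
  rw [h3, rot_vx (by omega)] at h2
  have h4 : (4 : ℤ) ^ K < 4 * nrm (pv t (X.length + i) - pv t X.length) := by
    have h5 := SDN.EncBall.row_sq dir (mulE (rotTo (pd t X.length) up) (pv t (X.length + i) - pv t X.length))
    rw [nrm_mulE, nrm_rotTo_pd, one_mul] at h5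
    have h6 : ((2 : ℤ) ^ K) ^ 2 < |row dir (mulE (rotTo (pd t X.length) up) (pv t (X.length + i) - pv t X.length))| ^ 2 :=
      pow_lt_pow_left₀ h2 (by positivity) (by norm_num)
    rw [sq_abs] at h6
    have h7 : (4 : ℤ) ^ K = (2 ^ K) ^ 2 := by
      rw [← pow_mul, mul_comm, pow_mul]
      norm_num
    rw [h7]
    exact h6.trans_le h5
  have h5 := nrm_sub_le (pv t (X.length + i)) (pv t X.length)
  have hmod : ∀ a : ℕ, a % N < N := fun a => Nat.mod_lt _ hN
  have e1 : pv t (X.length + i) = vx oo up t ((X.length + i) % N) := by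
    rw [pv_mod hc, hlen, pv_eq (by have := hmod (X.length + i); omega)]
  have e2 : pv t X.length = vx oo up t (X.length % N) := by
    rw [pv_mod hc, hlen, pv_eq (by have := hmod X.length; omega)]
  rw [e1, e2] at h4 h5
  have h6 : (4 : ℤ) ^ K < 8 * nrm (vx oo up t ((X.length + i) % N)) + 8 * nrm (vx oo up t (X.length % N)) := by linarith
  have h7 : (4 : ℝ) ^ K < 8 * ((nrm (vx oo up t ((X.length + i) % N)) : ℤ) : ℝ) +
      8 * ((nrm (vx oo up t (X.length % N)) : ℤ) : ℝ) := by exact_mod_cast h6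
  rcases le_total ((nrm (vx oo up t ((X.length + i) % N)) : ℤ) : ℝ) ((nrm (vx oo up t (X.length % N)) : ℤ) : ℝ) with h | h
  · exact ⟨X.length % N, hmod _, by linarith⟩
  · exact ⟨(X.length + i) % N, hmod _, by linarith⟩

end PGS

end HexObs
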