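import Pool.Agent.PGS.Out

/-!
PGS / Inn (helper39): the sum over the shells of the closed words of bounded extent.
-/

set_option autoImplicit false

namespace HexObs

namespace PGS

open Finset TS SDN NTW NTA SIM JNT POL

open scoped ENNReal Classical

lemma w4_low {c1 : ℝ} (hlow : ∀ k : ℕ, c1 * 2 ^ (4 / 3 * (k : ℝ)) ≤ mM k) (hc1 : 0 < c1) (k j : ℕ) :
    c1 * 2 ^ (10 / 3 * (k : ℝ)) * 2 ^ j ≤ w4 mM (k + j) := by
  have h2 := hlow (k + j)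
  have e1 : (2 : ℝ) ^ (4 / 3 * ((k + j : ℕ) : ℝ)) * 4 ^ (k + j) = 2 ^ (10 / 3 * (k : ℝ)) * (2 ^ (10 / 3 : ℝ)) ^ j := by
    rw [show (4 : ℝ) ^ (k + j) = 2 ^ (2 * ((k + j : ℕ) : ℝ)) by
      rw [Real.rpow_mul (by norm_num), Real.rpow_natCast]
      norm_num, ← Real.rpow_add (by norm_num), ← Real.rpow_natCast (2 ^ (10 / 3 : ℝ)) j,
      ← Real.rpow_mul (by norm_num), ← Real.rpow_add (by norm_num)]
    congr 1
    push_cast
    ring
  have e2 : (2 : ℝ) ^ j ≤ (2 ^ (10 / 3 : ℝ)) ^ j := pow_le_pow_left₀ (by norm_num) (two_rpow_ge (by norm_num)) j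
  calc c1 * 2 ^ (10 / 3 * (k : ℝ)) * 2 ^ j ≤ c1 * 2 ^ (10 / 3 * (k : ℝ)) * (2 ^ (10 / 3 : ℝ)) ^ j := by gcongr
    _ = c1 * 2 ^ (4 / 3 * ((k + j : ℕ) : ℝ)) * 4 ^ (k + j) := by
        rw [mul_assoc, ← e1]
        ring
    _ ≤ _ := by
        unfold w4
        exact mul_le_mul_of_nonneg_right h2 (by positivity)

/-- the shells -/
lemma cover {N k i e : ℕ} (hi : 1 ≤ i) {t : List Bool} (ht : t ∈ Cy N) (h : t ∉ WC N (k + i - 1)) :
    t ∈ (⋃ j ∈ Finset.Ico i e, (WC N (k + j) \ WC N (k + j - 1))) ∪ {t | t ∈ Cy N ∧ t ∉ WC N (k + e - 1)} ∨ e < i := by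
  rcases Nat.lt_or_ge e i with he | he
  · exact Or.inr he
  left
  by_cases h1 : t ∈ WC N (k + e - 1)
  · left
    have hex : ∃ j, i ≤ j ∧ t ∈ WC N (k + j - 1) := ⟨e, he, h1⟩
    obtain ⟨l, hl⟩ : ∃ l, l = Nat.find hex := ⟨_, rfl⟩
    have h2 := Nat.find_spec hex
    have h3 := fun m (hm : m < Nat.find hex) => Nat.find_min hex hm
    have h4 : Nat.find hex ≤ e := Nat.find_min' hex ⟨he, h1⟩
    rw [← hl] at h2 h3 h4
    have h5 : i < l := by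
      rcases Nat.lt_or_ge i l with h6 | h6
      · exact h6
      · exfalso
        have : l = i := by omega
        rw [this] at h2
        exact h h2.2
    rw [Set.mem_iUnion₂]
    refine ⟨l - 1, Finset.mem_Ico.2 ⟨by omega, by omega⟩, ?_, ?_⟩
    · have := h2.2
      rwa [show k + l - 1 = k + (l - 1) by omega] at this
    · intro h6
      exact h3 (l - 1) (by omega) ⟨by omega, h6⟩
  · right
    exact ⟨ht, h1⟩

/-- the sum over the shells -/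
lemma shells {c1 A : ℝ} (hlow : ∀ k : ℕ, c1 * 2 ^ (4 / 3 * (k : ℝ)) ≤ mM k) (hc1 : 0 < c1) (hA : 1 ≤ A) {N k i e c8 : ℕ}
    (h : ∀ j, i ≤ j → j < e → gf (WC N (k + j) \ WC N (k + j - 1)) ≤
      ENNReal.ofReal (A * (1 / 2) ^ (2 ^ (4 * j - c8)) * (N / w4 mM (k + j)))) :
    gf (⋃ j ∈ Finset.Ico i e, (WC N (k + j) \ WC N (k + j - 1))) ≤
      ENNReal.ofReal (2 * (A * (1 / 2) ^ (2 ^ (4 * i - c8)) * (N / (c1 * 2 ^ (10 / 3 * (k : ℝ)))))) := by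
  obtain ⟨B, hB⟩ : ∃ B : ℝ, B = A * (1 / 2) ^ (2 ^ (4 * i - c8)) * (N / (c1 * 2 ^ (10 / 3 * (k : ℝ)))) := ⟨_, rfl⟩
  have hB0 : 0 ≤ B := by rw [hB]; positivity
  have h1 : gf (⋃ j ∈ Finset.Ico i e, (WC N (k + j) \ WC N (k + j - 1))) ≤
      ∑ j ∈ Finset.Ico i e, gf (WC N (k + j) \ WC N (k + j - 1)) := by
    unfold gf
    exact ENNReal.tsum_biUnion_le _ _ _
  have h2 : ∀ j ∈ Finset.Ico i e, gf (WC N (k + j) \ WC N (k + j - 1)) ≤ ENNReal.ofReal (B * (1 / 2) ^ j) := by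
    intro j hj
    rw [Finset.mem_Ico] at hj
    refine (h j hj.1 hj.2).trans (ENNReal.ofReal_le_ofReal ?_)
    have h3 := w4_low hlow hc1 k j
    have h4 : (0 : ℝ) < c1 * 2 ^ (10 / 3 * (k : ℝ)) * 2 ^ j := by positivity
    have h5 : (N : ℝ) / w4 mM (k + j) ≤ N / (c1 * 2 ^ (10 / 3 * (k : ℝ)) * 2 ^ j) :=
      div_le_div_of_nonneg_left (by positivity) h4 h3
    have h6 : ((1 : ℝ) / 2) ^ (2 ^ (4 * j - c8)) ≤ (1 / 2) ^ (2 ^ (4 * i - c8)) := by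
      apply pow_le_pow_of_le_one (by norm_num) (by norm_num)
      exact Nat.pow_le_pow_right (by norm_num) (by omega)
    calc A * (1 / 2) ^ (2 ^ (4 * j - c8)) * (N / w4 mM (k + j))
        ≤ A * (1 / 2) ^ (2 ^ (4 * i - c8)) * (N / (c1 * 2 ^ (10 / 3 * (k : ℝ)) * 2 ^ j)) := by
          apply mul_le_mul (mul_le_mul_of_nonneg_left h6 (by linarith)) h5 (div_nonneg (by positivity) (h4.le.trans h3))
          positivity
      _ = B * (1 / 2) ^ j := by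
          rw [hB, one_div_pow (2 : ℝ) j]
          field_simp
  have h3 : ∑ j ∈ Finset.Ico i e, ENNReal.ofReal (B * (1 / 2) ^ j) ≤ ∑' j : ℕ, ENNReal.ofReal (B * (1 / 2) ^ j) :=
    ENNReal.sum_le_tsum _
  have h4 := POL.geo_sum (q := 1 / 2) (by norm_num) le_rfl B hB0
  rw [← hB]
  exact h1.trans ((Finset.sum_le_sum h2).trans (h3.trans h4))

end PGS

end HexObs
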