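import Pool.Agent.PGS.TdT
import Pool.Agent.POL.TallD

/-!
PGS / L3T (helper51): row L3 with tall strands.
-/

set_option autoImplicit false

namespace HexObs

namespace PGS

open Finset TS SDN NTA JNT RP POL

open scoped ENNReal

/-- **the geometry: the five parts give a closed word** -/
theorem g5e_cy {m : ℕ → ℝ} {k i s d N : ℕ} {e v w δ η L : ℝ} (hk : 1 ≤ k) (hw : 0 < w) (hη : 0 < η) (hv0 : 0 < v)
    (hv : v ≤ w / 4) (hv1 : v ≤ 1 / 2) (hδ0 : 0 < δ) (hδ : δ ≤ η / 80) (hw2 : 20 * w * 2 ^ k = η * 2 ^ i)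
    (hd : η * 2 ^ i ≤ d)
    (hl : ∀ Z' X D Y : List Bool, Z' ∈ TD m k (2 ^ (k + s)) e v → X ∈ POL.AT m i d δ L →
      D ∈ TD m k (2 ^ (k + s + 1) + 2 ^ (k + s - 1)) e v → Y ∈ POL.AT m i d δ L →
        Z'.length + X.length + D.length + Y.length ≤ N) {Z' X D Y Z : List Bool}
    (h : G5 m (POL.AT m i d δ L) k (2 ^ (k + s)) (2 ^ (k + s + 1) + 2 ^ (k + s - 1)) e v w N Z' X D Y Z) :
    Tup (POL.AT m i d δ L) (k + s) Z' X D Y Z ∧ Z' ++ (X ++ (D ++ (Y ++ Z))) ∈ Cy N := by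
  obtain ⟨hZ', hX, hD, hY, hZ, hZl, hZt⟩ := h
  have hlen := hl Z' X D Y hZ' hX hD hY
  have hks : 1 ≤ k + s := by omega
  obtain ⟨q, hq⟩ : ∃ q : ℕ, q = 2 ^ (k + s - 1) := ⟨_, rfl⟩
  have hq1 : 2 ^ (k + s) = 2 * q := by
    rw [hq, ← pow_succ']
    congr 1
    omega
  have hq2 : 2 ^ (k + s + 1) = 4 * q := by
    rw [pow_succ, hq1]
    ring
  have hq3 : 2 ^ (k + s + 2) = 8 * q := by
    rw [pow_succ, hq2]
    ring
  rw [hq2, ← hq] at hD
  rw [hq1] at hZ'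
  obtain ⟨hZ1, hZ2, hZ3, hZ4, hZ5⟩ := hZ'
  obtain ⟨hD1, hD2, hD3, hD4, hD5⟩ := hD
  have hBZ' := BUb hZ1
  have hBD := BUb hD1
  -- the small error of the heights
  have hsm : v * 2 ^ k ≤ q := by
    have h1 : (2 : ℝ) ^ k ≤ 2 * q := by
      have h2 : (2 : ℕ) ^ k ≤ 2 ^ (k + s) := Nat.pow_le_pow_right (by norm_num) (by omega)
      rw [hq1] at h2
      exact_mod_cast h2
    have h3 : (0 : ℝ) < 2 ^ k := by positivity
    nlinarith
  have hZ3' : hgt Z' ≤ 3 * q := by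
    have h1 : (hgt Z' : ℝ) ≤ ((2 * q : ℕ) : ℝ) + q := by linarith
    have h2 : hgt Z' ≤ 2 * q + q := by exact_mod_cast h1
    omega
  have hD3' : hgt D ≤ 6 * q := by
    have h1 : (hgt D : ℝ) ≤ ((4 * q + q : ℕ) : ℝ) + q := by linarith
    have h2 : hgt D ≤ 4 * q + q + q := by exact_mod_cast h1
    omega
  have hq0 : 1 ≤ q := by rw [hq]; exact Nat.one_le_two_pow
  obtain ⟨hh, hhd⟩ : ∃ hh : ℕ, hh = hgt D - hgt Z' := ⟨_, rfl⟩
  rw [← hhd] at hZ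
  have hh1 : 2 * q ≤ hh ∧ hh ≤ 4 * q := by omega
  have hBZ := hZ.1
  have hAX := at_ark hX
  have hAY := at_ark hY
  refine ⟨⟨⟨⟨hgt Z', by rw [hq1]; exact hZ2, hBZ'⟩, by rw [hq2]; omega⟩, hX, ⟨hD1, by rw [hq3]; omega⟩, hY,
    ⟨hh, by rw [hq1]; exact hh1.1, hBZ⟩, by rw [hgt_eq hBZ, hq2]; exact hh1.2⟩, ?_⟩
  obtain ⟨a, ha1, ha2, ha3, ha4⟩ := hX
  obtain ⟨b, hb1, hb2, hb3, hb4⟩ := hY
  have la := foot_lat ha3.1
  have lb := foot_lat hb3.1
  have hpk : (0 : ℝ) < 2 ^ k := by positivity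
  have hpi : (0 : ℝ) < 2 ^ i := by positivity
  have hcy := cy_of (v := v * 2 ^ k) (δ := 2 * δ * 2 ^ i) (W := 20 * w * 2 ^ k) hBZ' hAX hBD hAY hBZ (by omega) (by omega)
    ?_ (by positivity) (by positivity) (by positivity) hZ4 hD4 hZt ?_ ?_
  · have hlN : (Z' ++ (X ++ (D ++ (Y ++ Z)))).length = N := by
      rw [List.length_append, List.length_append, List.length_append, List.length_append, hZl]
      omega
    rw [hlN] at hcy
    exact hcy
  · -- closed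
    have e1 : ip (en Z') up = 3 * (hgt Z' : ℤ) := (mem_Brd.1 hBZ').2.2.2
    have e3 : ip (en D) up = 3 * (hgt D : ℤ) := (mem_Brd.1 hBD).2.2.2
    have e5 : ip (en Z) up = 3 * (hh : ℤ) := (mem_Brd.1 hBZ).2.2.2
    have e2 : ip (en X) up = 2 := hAX.2.2.1
    have e4 : ip (en Y) up = 2 := hAY.2.2.1
    refine pt_ext51 ?_ ?_
    · rw [ip_add', ip_sub', ip_add', e1, e2, e3, e4, e5]
      omega
    · rw [lt_add, lt_sub, lt_add]
      have f5 : lt' (en Z) = latE D + latE Y - latE X - latE Z' := hZ.2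
      rw [f5]
      show latE Z' + _ = latE D + latE Y - latE X
      ring
  · rw [la, lb]
    push_cast
    have h1 : (a : ℝ) - b ≤ δ * 2 ^ i := by
      have : (d : ℝ) ≤ b := by exact_mod_cast hb1
      linarith
    have h2 : (b : ℝ) - a ≤ δ * 2 ^ i := by
      have : (d : ℝ) ≤ a := by exact_mod_cast ha1
      linarith
    rw [abs_le]
    constructor <;> linarith
  · rw [la]
    push_cast
    have h1 : (d : ℝ) ≤ a := by exact_mod_cast ha1
    have h3 : 0 < η * 2 ^ i := by positivity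
    have h4 : 4 * (v * 2 ^ k) ≤ w * 2 ^ k := by
      have : 4 * v ≤ w := by linarith
      nlinarith
    have h5 : 2 * δ * 2 ^ i ≤ η * 2 ^ i / 40 := by
      have : 80 * δ ≤ η := by linarith
      nlinarith
    have h2 : w * 2 ^ k = η * 2 ^ i / 20 := by linarith
    rw [hw2]
    linarith

/-- the lengths of four parts -/
lemma four_lenT {m : ℕ → ℝ} {k i d h1 h3 N J : ℕ} {v δ L : ℝ} (hL : L * m i ≤ 1 / 8 * m k) (hJ : 1 ≤ J)
    (hN : J * m k ≤ N) (hmk : 0 < m k)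
    {Z' X D Y : List Bool} (h1' : Z' ∈ TD m k h1 (1 / 8 * J) v) (h2 : X ∈ POL.AT m i d δ L) (h3' : D ∈ TD m k h3 (1 / 8 * J) v)
    (h4 : Y ∈ POL.AT m i d δ L) : Z'.length + X.length + D.length + Y.length ≤ N ∧
      1 / 2 * (J * m k) ≤ ((N - (Z'.length + X.length + D.length + Y.length) : ℕ) : ℝ) := by
  have a1 := h1'.2.2.2.2
  have a3 := h3'.2.2.2.2
  obtain ⟨_, _, _, _, a2⟩ := h2
  obtain ⟨_, _, _, _, a4⟩ := h4
  have hJR : (1 : ℝ) ≤ J := by exact_mod_cast hJ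
  have hJm : m k ≤ J * m k := le_mul_of_one_le_left hmk.le hJR
  have h5 : ((Z'.length + X.length + D.length + Y.length : ℕ) : ℝ) ≤ 1 / 2 * (J * m k) := by
    push_cast
    have e1 : 1 / 8 * (J : ℝ) * m k = 1 / 8 * (J * m k) := by ring
    rw [e1] at a1 a3
    linarith
  have h6 : Z'.length + X.length + D.length + Y.length ≤ N := by
    have : ((Z'.length + X.length + D.length + Y.length : ℕ) : ℝ) ≤ N := by linarith
    exact_mod_cast this
  refine ⟨h6, ?_⟩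
  rw [Nat.cast_sub h6]
  linarith

/-- **row L3, tall strands**: J = 2 ^ u blocks of height 2 ^ (k + s0) -/
theorem l3T {m : ℕ → ℝ} (hm : MLow m) (hNT : LowNarT m) {η L C : ℝ} (hη : 0 < η) (hL : 0 < L) (hC : 0 < C)
    (harc : ∀ δ : ℝ, 0 < δ → ∃ (c : ℝ) (i0 : ℕ), 0 < c ∧ ∀ i : ℕ, i0 ≤ i → ∃ d : ℕ, η * 2 ^ i ≤ d ∧
      ENNReal.ofReal (c * (2 : ℝ) ^ (-((i : ℝ) / 4))) ≤ gf (POL.AT m i d δ L)) {A : ℝ} (hA : 1 ≤ A) :
    ∃ (c : ℝ) (j s0 k0 : ℕ), 0 < c ∧ c ≤ 1 ∧ j + 6 ≤ k0 ∧ 3 ≤ s0 ∧ ∀ k u N : ℕ, k0 ≤ k → N % 2 = 0 →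
      (2 ^ u : ℕ) * m k ≤ N → (N : ℝ) ≤ A * ((2 ^ u : ℕ) * m k) →
      ∃ (d : ℕ) (G : List Bool → List Bool → List Bool → List Bool → List Bool → Prop),
        (∀ Z' X D Y Z, G Z' X D Y Z → Tup (POL.AT m (k - j) d (η / 320) L) (k + (s0 + u)) Z' X D Y Z ∧
          Z' ++ (X ++ (D ++ (Y ++ Z))) ∈ Cy N) ∧
        ENNReal.ofReal (c ^ (2 ^ u) * ((C * (2 : ℝ) ^ (-(((k - j : ℕ) : ℝ) / 4))) ^ 2 * Ub (k + (s0 + u)) *
          (Ub (k + (s0 + u)) ^ 2 / (4 ^ (k + (s0 + u)) * m (k + (s0 + u)))))) ≤ SG G := by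
  -- the scale of the arcs
  obtain ⟨j, hj, hj2⟩ : ∃ j : ℕ, 8 * L ≤ (2 : ℝ) ^ j ∧ η ≤ 40 * 2 ^ j := by
    obtain ⟨j, hj⟩ := pow_unbounded_of_one_lt (8 * L + η) (by norm_num : (1 : ℝ) < 2)
    exact ⟨j, by linarith, by linarith⟩
  obtain ⟨w, hw⟩ : ∃ w : ℝ, w = η / (20 * 2 ^ j) := ⟨_, rfl⟩
  have hpj : (0 : ℝ) < 2 ^ j := by positivity
  have hw0 : 0 < w := by rw [hw]; positivity
  have hw2 : w ≤ 2 := by
    rw [hw, div_le_iff₀ (by positivity)]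
    linarith
  obtain ⟨v, hv⟩ : ∃ v : ℝ, v = w / 16 := ⟨_, rfl⟩
  have hv0 : 0 < v := by rw [hv]; positivity
  have hv1 : v ≤ 1 / 2 := by rw [hv]; linarith
  obtain ⟨H1, hH1⟩ := tdT hm hNT (1 / 8) v (by norm_num) hv0
  obtain ⟨H3, hH3⟩ := tdT hm hNT (1 / 16) v (by norm_num) hv0
  obtain ⟨H5, hH5⟩ := hNT (w / 2) (1 / 2) A (by positivity) (by norm_num) (by linarith)
  obtain ⟨s0, hs3, hs1⟩ : ∃ s : ℕ, 3 ≤ s ∧ max H1 (max H3 H5) ≤ 2 ^ s := ⟨max H1 (max H3 H5) + 3, by omega, by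
    have : max H1 (max H3 H5) + 3 < 2 ^ (max H1 (max H3 H5) + 3) := Nat.lt_two_pow_self
    omega⟩
  obtain ⟨c1, k1, hc1, hc1', h1⟩ := hH1 (2 ^ s0) ((le_max_left _ _).trans hs1)
  obtain ⟨c3, k3, hc3, hc3', h3⟩ := hH3 (2 ^ s0) ((le_max_left _ _).trans ((le_max_right _ _).trans hs1))
  obtain ⟨c5, k5, hc5, hc5', h5⟩ := hH5 (2 ^ s0) ((le_max_right _ _).trans ((le_max_right _ _).trans hs1))
  obtain ⟨ca, i0, hca, h2⟩ := harc (η / 320) (by positivity)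
  obtain ⟨b, hb⟩ : ∃ b : ℝ, b = min 1 (ca ^ 2 / (C ^ 2 * 8 ^ s0)) := ⟨_, rfl⟩
  have hb0 : 0 < b := by rw [hb]; positivity
  have hb1 : b ≤ 1 := by rw [hb]; exact min_le_left _ _
  refine ⟨b * (c1 * c3 ^ 2 * c5) / 8, j, s0, max (max k1 k3) (max k5 (i0 + j + 6)), by positivity, ?_,
    le_trans (by omega) ((le_max_right _ _).trans (le_max_right _ _)), hs3, fun k u N hk hev hN1 hN2 => ?_⟩
  · have q1 : c3 ^ 2 ≤ 1 := pow_le_one₀ hc3.le hc3'
    have q2 : c1 * c3 ^ 2 * c5 ≤ 1 := mul_le_one₀ (mul_le_one₀ hc1' (by positivity) q1) hc5.le hc5'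
    have q3 : b * (c1 * c3 ^ 2 * c5) ≤ 1 := mul_le_one₀ hb1 (by positivity) q2
    linarith
  have hk1 : k1 ≤ k := (le_max_left _ _).trans ((le_max_left _ _).trans hk)
  have hk3 : k3 ≤ k := (le_max_right _ _).trans ((le_max_left _ _).trans hk)
  have hk5 : k5 ≤ k := (le_max_left _ _).trans ((le_max_right _ _).trans hk)
  have hk6 : i0 + j + 6 ≤ k := (le_max_right _ _).trans ((le_max_right _ _).trans hk)
  obtain ⟨J, hJ⟩ : ∃ J : ℕ, J = 2 ^ u := ⟨_, rfl⟩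
  have hJ1 : 1 ≤ J := by rw [hJ]; exact Nat.one_le_two_pow
  rw [← hJ] at hN1 hN2 ⊢
  obtain ⟨s, hs⟩ : ∃ s, s = s0 + u := ⟨_, rfl⟩
  rw [← hs]
  obtain ⟨i, hi⟩ : ∃ i, i = k - j := ⟨_, rfl⟩
  have hki : k = i + j := by omega
  obtain ⟨d, hd1, hd2⟩ := h2 i (by omega)
  rw [← hi]
  have hmk := hm.pos k
  have hUk := Ub_pos k
  have hpk : (0 : ℝ) < 2 ^ k := by positivity
  have hwi : 20 * w * 2 ^ k = η * 2 ^ i := by
    rw [hw, hki, pow_add]
    field_simp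
  have hLm : L * m i ≤ 1 / 8 * m k := by
    have h3 := hm.low i j
    rw [← hki] at h3
    have h4 : (2 : ℝ) ^ j ≤ (2 : ℝ) ^ (5 / 4 * (j : ℝ)) := by
      rw [← Real.rpow_natCast]
      refine Real.rpow_le_rpow_of_exponent_le (by norm_num) ?_
      have : (0 : ℝ) ≤ j := Nat.cast_nonneg j
      linarith
    have hmi := hm.pos i
    have h5 : 8 * L * m i ≤ m k := (mul_le_mul_of_nonneg_right (hj.trans h4) hmi.le).trans h3
    linarith
  obtain ⟨q', hq'⟩ : ∃ q' : ℕ, q' = 2 ^ (k + s - 1) := ⟨_, rfl⟩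
  have hq1 : 2 ^ (k + s) = 2 * q' := by
    rw [hq', ← pow_succ']
    congr 1
    omega
  have hq2 : 2 ^ (k + s + 1) = 4 * q' := by
    rw [pow_succ, hq1]
    ring
  have hsk : J * (2 ^ s0 * 2 ^ k) = 2 * q' := by
    rw [← hq1, hJ, hs, pow_add, pow_add]
    ring
  have hsm : v * 2 ^ k ≤ q' := by
    have h1 : (2 : ℝ) ^ k ≤ 2 * q' := by
      have h2 : (2 : ℕ) ^ k ≤ 2 ^ (k + s) := Nat.pow_le_pow_right (by norm_num) (by omega)
      rw [hq1] at h2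
      exact_mod_cast h2
    nlinarith
  obtain ⟨AA, hAA⟩ : ∃ AA, AA = POL.AT m i d (η / 320) L := ⟨_, rfl⟩
  obtain ⟨S1, hS1⟩ : ∃ S1 : Set (List Bool), S1 = TD m k (2 ^ (k + s)) (1 / 8 * J) v := ⟨_, rfl⟩
  obtain ⟨S3, hS3⟩ : ∃ S3, S3 = TD m k (2 ^ (k + s + 1) + 2 ^ (k + s - 1)) (1 / 8 * J) v := ⟨_, rfl⟩
  have g1 : ENNReal.ofReal (c1 ^ J * Ub k) ≤ gf S1 := by
    rw [hS1, hq1]
    refine h1 k J _ hk1 hJ1 ?_ ?_
    · rw [hsk]
    · rw [hsk]
      omega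
  have g3 : ENNReal.ofReal (c3 ^ (2 * J) * Ub k) ≤ gf S3 := by
    have e : (1 / 16 : ℝ) * ((2 * J : ℕ) : ℝ) = 1 / 8 * J := by
      push_cast
      ring
    have h4 := h3 k (2 * J) (4 * q' + q') hk3 (by omega) (by rw [mul_assoc, hsk]; omega) (by rw [mul_assoc, hsk]; omega)
    rw [e] at h4
    rw [hS3, hq2, ← hq']
    exact h4
  rw [← hAA] at hd2
  refine ⟨d, fun Z' X D Y Z => G5 m AA k (2 ^ (k + s)) (2 ^ (k + s + 1) + 2 ^ (k + s - 1)) (1 / 8 * J) v w N Z' X D Y Z,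
    ?_, ?_⟩
  · rintro Z' X D Y Z hG
    rw [hAA] at hG
    exact g5e_cy (by omega) hw0 hη hv0 (by rw [hv]; linarith) hv1 (by positivity) (by linarith) hwi hd1
      (fun Z' X D Y b1 b2 b3 b4 => (four_lenT hLm hJ1 hN1 hmk b1 b2 b3 b4).1) hG
  · have hsum := sg_ge (G := fun Z' X D Y Z => G5 m AA k (2 ^ (k + s)) (2 ^ (k + s + 1) + 2 ^ (k + s - 1)) (1 / 8 * J) v w N
      Z' X D Y Z) (S1 := S1) (S2 := AA)
      (S3 := S3) (S4 := AA) (q := ENNReal.ofReal (c5 ^ J * (Ub k / (4 ^ k * m k))))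
      (fun Z' X D Y => {Z | Z ∈ EndB (hgt D - hgt Z') (latE D + latE Y - latE X - latE Z') ∧
        Z.length = N - (Z'.length + X.length + D.length + Y.length) ∧ ∀ i, i ≤ Z.length → |(lat Z i : ℝ)| ≤ 20 * w * 2 ^ k})
      ?_ ?_
    · refine le_trans ?_ hsum
      refine le_trans ?_ (mul_le_mul' g1 (mul_le_mul' hd2 (mul_le_mul' g3 (mul_le_mul' hd2 le_rfl))))
      obtain ⟨p, hp⟩ : ∃ p : ℝ, p = (2 : ℝ) ^ (-((i : ℝ) / 4)) := ⟨_, rfl⟩
      have hp0 : 0 < p := by rw [hp]; positivity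
      rw [← hp, ← ENNReal.ofReal_mul (by positivity), ← ENNReal.ofReal_mul (by positivity),
        ← ENNReal.ofReal_mul (by positivity), ← ENNReal.ofReal_mul (by positivity)]
      apply ENNReal.ofReal_le_ofReal
      have u1 := Ub_iter k s
      have u2 : (4 : ℝ) ^ k * m k ≤ 4 ^ (k + s) * m (k + s) := by
        have h3 := hm.low k s
        have h4 : (1 : ℝ) ≤ (2 : ℝ) ^ (5 / 4 * (s : ℝ)) := Real.one_le_rpow (by norm_num) (by positivity)
        have h5 : m k ≤ m (k + s) := by nlinarith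
        exact mul_le_mul (pow_le_pow_right₀ (by norm_num) (by omega)) h5 hmk.le (by positivity)
      have u0 := Ub_pos (k + s)
      have u3 : Ub (k + s) ^ 2 / (4 ^ (k + s) * m (k + s)) ≤ (2 ^ s * Ub k) ^ 2 / (4 ^ k * m k) := by
        refine div_le_div₀ (by positivity) (pow_le_pow_left₀ u0.le u1 2) (by positivity) u2
      have e8 : (2 : ℝ) ^ s * (2 ^ s) ^ 2 = 8 ^ s := by
        rw [← pow_mul, ← pow_add, show (8 : ℝ) = 2 ^ 3 by norm_num, ← pow_mul]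
        congr 1
        ring
      have hmks := hm.pos (k + s)
      obtain ⟨ρ, hρ⟩ : ∃ ρ : ℝ, ρ = c1 * c3 ^ 2 * c5 := ⟨_, rfl⟩
      have hρ0 : 0 < ρ := by rw [hρ]; positivity
      have key : (b * ρ / 8) ^ J * (C ^ 2 * 8 ^ s) ≤ ca ^ 2 * ρ ^ J := by
        have k1 : (8 : ℝ) ^ u ≤ 8 ^ J := pow_le_pow_right₀ (by norm_num) (by rw [hJ]; exact Nat.lt_two_pow_self.le)
        have k2 : b ^ J ≤ ca ^ 2 / (C ^ 2 * 8 ^ s0) := by
          calc b ^ J ≤ b ^ 1 := pow_le_pow_of_le_one hb0.le hb1 hJ1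
            _ = b := pow_one b
            _ ≤ _ := by rw [hb]; exact min_le_right _ _
        have k3 : (8 : ℝ) ^ s = 8 ^ s0 * 8 ^ u := by rw [hs, pow_add]
        calc (b * ρ / 8) ^ J * (C ^ 2 * 8 ^ s) = b ^ J * (C ^ 2 * 8 ^ s0) * (8 ^ u / 8 ^ J) * ρ ^ J := by
              rw [k3, div_pow, mul_pow]
              ring
          _ ≤ ca ^ 2 / (C ^ 2 * 8 ^ s0) * (C ^ 2 * 8 ^ s0) * (8 ^ J / 8 ^ J) * ρ ^ J := by gcongr
          _ = ca ^ 2 * ρ ^ J := by field_simp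
      rw [← hρ]
      calc (b * ρ / 8) ^ J * ((C * p) ^ 2 * Ub (k + s) * (Ub (k + s) ^ 2 / (4 ^ (k + s) * m (k + s))))
          ≤ (b * ρ / 8) ^ J * ((C * p) ^ 2 * (2 ^ s * Ub k) * ((2 ^ s * Ub k) ^ 2 / (4 ^ k * m k))) := by
            gcongr
        _ = ((b * ρ / 8) ^ J * (C ^ 2 * (2 ^ s * (2 ^ s) ^ 2))) * (p ^ 2 * Ub k ^ 3 / (4 ^ k * m k)) := by ring
        _ = ((b * ρ / 8) ^ J * (C ^ 2 * 8 ^ s)) * (p ^ 2 * Ub k ^ 3 / (4 ^ k * m k)) := by rw [e8]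
        _ ≤ (ca ^ 2 * ρ ^ J) * (p ^ 2 * Ub k ^ 3 / (4 ^ k * m k)) := by gcongr
        _ = c1 ^ J * Ub k * (ca * p * (c3 ^ (2 * J) * Ub k * (ca * p * (c5 ^ J * (Ub k / (4 ^ k * m k)))))) := by
            rw [hρ, mul_pow, mul_pow, ← pow_mul]
            ring
    · intro Z' z1 X x1 D d1 Y y1 Z hZ
      rw [hS1] at z1
      rw [hS3] at d1
      exact ⟨z1, x1, d1, y1, hZ.1, hZ.2.1, hZ.2.2⟩
    · intro Z' z1 X x1 D d1 Y y1
      rw [hS1] at z1
      rw [hS3] at d1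
      rw [hAA] at x1 y1
      obtain ⟨l1, l2⟩ := four_lenT hLm hJ1 hN1 hmk z1 x1 d1 y1
      rw [hq1] at z1
      rw [hq2, ← hq'] at d1
      obtain ⟨zb, z2, z3, z4, z5⟩ := z1
      obtain ⟨db, d2, d3, d4, d5⟩ := d1
      have hBZ := BUb zb
      have hBD := BUb db
      have hAX := at_ark x1
      have hAY := at_ark y1
      obtain ⟨a, ha1, ha2, ha3, ha4⟩ := x1
      obtain ⟨b, hb1, hb2, hb3, hb4⟩ := y1
      have la := foot_lat ha3.1
      have lb := foot_lat hb3.1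
      have hz3 : hgt Z' ≤ 3 * q' := by
        have h1 : (hgt Z' : ℝ) ≤ ((2 * q' : ℕ) : ℝ) + q' := by linarith
        have h2 : hgt Z' ≤ 2 * q' + q' := by exact_mod_cast h1
        omega
      have hd3 : hgt D ≤ 6 * q' := by
        have h1 : (hgt D : ℝ) ≤ ((4 * q' + q' : ℕ) : ℝ) + q' := by linarith
        have h2 : hgt D ≤ 4 * q' + q' + q' := by exact_mod_cast h1
        omega
      have p1 := LocalT.par_end hBZ
      have p3 := LocalT.par_end hBD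
      have o1 := ev_len hBZ
      have o3 := ev_len hBD
      have o2 := od_len hAX
      have o4 := od_len hAY
      refine (h5 k J (hgt D - hgt Z') (N - (Z'.length + X.length + D.length + Y.length))
        (latE D + latE Y - latE X - latE Z') hk5 hJ1 ?_ ?_ ?_ ?_ ?_ ?_ ?_).trans (gf_mono ?_)
      · rw [hsk]
        omega
      · rw [hsk]
        omega
      · rw [la, lb, Int.even_iff]
        have : ((hgt D - hgt Z' : ℕ) : ℤ) = hgt D - hgt Z' := by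
          rw [Nat.cast_sub (by omega)]
        rw [this]
        omega
      · rw [la, lb]
        have b1 := z4 Z'.length le_rfl
        have b3 := d4 D.length le_rfl
        have h1 : (a : ℝ) - b ≤ η / 320 * 2 ^ i := by
          have : (d : ℝ) ≤ b := by exact_mod_cast hb1
          linarith
        have h2 : (b : ℝ) - a ≤ η / 320 * 2 ^ i := by
          have : (d : ℝ) ≤ a := by exact_mod_cast ha1
          linarith
        have h3 : η / 320 * 2 ^ i = w * 2 ^ k / 16 := by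
          have : η / 320 * 2 ^ i = η * 2 ^ i / 320 := by ring
          rw [this, ← hwi]
          ring
        have hwk : 0 < w * 2 ^ k := by positivity
        rw [h3] at h1 h2
        rw [hv] at b1 b3
        rw [abs_le] at b1 b3 ⊢
        unfold latE
        push_cast
        constructor
        · linarith
        · linarith
      · rw [Nat.even_iff]
        omega
      · refine le_trans (le_of_eq ?_) l2
        ring
      · have h6 : (N : ℝ) ≤ J * (A * m k) := hN2.trans (le_of_eq (by ring))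
        refine le_trans ?_ h6
        exact_mod_cast Nat.sub_le _ _
      · rintro Z ⟨e1, e2, e3⟩
        refine ⟨e1, e2, fun i hi => (e3 i hi).trans (le_of_eq ?_)⟩
        ring

end PGS

end HexObs
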