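import Pool.Agent.POL.L4

/-!
PGS / L4x (helper51): row L4 with an explicit constant (copy of POL.l4G_of, helper59).
-/

set_option autoImplicit false

namespace HexObs

namespace PGS

open Finset TS NTA JNT POL

open scoped ENNReal

open scoped Classical in
/-- the closed words with a rotation in the class, explicit constant -/
theorem l4X_of {m : ℕ → ℝ} (hm : ∀ k, 0 < m k) (hS5 : Sums5 m) : ∃ Q : ℝ, 0 < Q ∧ ∀ σ : ℝ, 0 < σ →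
    ∀ (AT : Set (List Bool)) (x : ℝ) (k N : ℕ) (τ : ℤ)
      (G : List Bool → List Bool → List Bool → List Bool → List Bool → Prop), 0 ≤ x → (∀ X ∈ AT, ArcW τ X) →
      2 * τ ≤ 3 * 2 ^ k → gf AT ≤ ENNReal.ofReal x →
      (∀ Z' T1 D T2 Z, G Z' T1 D T2 Z → Tup AT k Z' T1 D T2 Z ∧ Z' ++ (T1 ++ (D ++ (T2 ++ Z))) ∈ Cy N) →
      ENNReal.ofReal (σ * (x ^ 2 * Ub k * (Ub k ^ 2 / (4 ^ k * m k)))) ≤ (∑' Z' : List Bool, ∑' T1 : List Bool,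
        ∑' D : List Bool, ∑' T2 : List Bool, ∑' Z : List Bool, (if G Z' T1 D T2 Z then
          wE Z' * wE T1 * wE D * wE T2 * wE Z else 0)) →
      ENNReal.ofReal (σ ^ 4 / Q * N * (x ^ 2 * Ub k ^ 2 / (4 ^ k * m k * U2 (2 ^ k) ^ 2))) ≤ gf {t | t ∈ Cy N ∧
        ∃ (c0 : ℕ) (Z' T1 D T2 Z : List Bool), G Z' T1 D T2 Z ∧ t.rotate c0 = Z' ++ (T1 ++ (D ++ (T2 ++ Z)))} := by
  obtain ⟨C, hC, hS5⟩ := hS5
  refine ⟨48000 * C ^ 3, by positivity, fun σ hσ AT x k N τ0 G hx hA0 hτ0 hgf hG hS => ?_⟩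
  obtain ⟨K, hK⟩ : ∃ K : ℝ, K = 10 * C / σ := ⟨_, rfl⟩
  have hK0 : 0 < K := by rw [hK]; positivity
  have ec : σ ^ 4 / (48000 * C ^ 3) = σ / (48 * K ^ 3) := by
    rw [hK]
    field_simp
    norm_num
  rw [ec]
  -- the top level
  obtain ⟨τ, hτ⟩ : ∃ τ : ℤ, τ = max τ0 0 := ⟨_, rfl⟩
  have hτ1 : 0 ≤ τ := by rw [hτ]; exact le_max_right _ _
  have hτ2 : 2 * τ ≤ 3 * 2 ^ k := by
    rw [hτ]
    rcases max_cases τ0 0 with h | h
    · rw [h.1]; exact hτ0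
    · rw [h.1, mul_zero]; positivity
  have hA : ∀ X ∈ AT, ArcW τ X := fun X hX => by
    have h := hA0 X hX
    exact ⟨fun i h1 h2 => ⟨(h.pos i h1 h2).1, (h.pos i h1 h2).2.trans (by rw [hτ]; exact le_max_left _ _)⟩, h.dn, h.two, h.one⟩
  have hU := Ub_pos k
  have hU2 := U2_pos (2 ^ k)
  have hmk := hm k
  obtain ⟨A, hAd⟩ : ∃ A : ℝ, A = x ^ 2 * Ub k * (Ub k ^ 2 / (4 ^ k * m k)) := ⟨_, rfl⟩
  have hA00 : 0 ≤ A := by rw [hAd]; positivity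
  obtain ⟨s1, s2, s3, s4, s5⟩ := hS5 AT x k N hx hgf
  rw [← hAd] at hS s1 s2 s3 s4 s5
  -- the classes
  obtain ⟨𝒢, h𝒢⟩ : ∃ 𝒢 : Set P5, 𝒢 = {p | G p.1 p.2.1 p.2.2.1 p.2.2.2.1 p.2.2.2.2} := ⟨_, rfl⟩
  have hmem : ∀ p ∈ 𝒢, Tup AT k p.1 p.2.1 p.2.2.1 p.2.2.2.1 p.2.2.2.2 ∧ Cl N p.1 p.2.1 p.2.2.1 p.2.2.2.1 p.2.2.2.2 := by
    intro p hp
    rw [h𝒢] at hp
    have h := hG _ _ _ _ _ hp
    exact ⟨h.1, cl_of hA h.1 h.2⟩
  have hmk' : ∀ p ∈ 𝒢, MkG AT k N p := by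
    intro p hp
    rw [h𝒢] at hp
    exact hG _ _ _ _ _ hp
  obtain ⟨gu, hgu⟩ : ∃ gu : P5 → ℕ, gu = fun p => nc p.1 + nc p.2.2.2.2 := ⟨_, rfl⟩
  obtain ⟨g2, hg2⟩ : ∃ g2 : P5 → ℕ, g2 = fun p => cnt p.2.1.length (NA AT k p.2.1) := ⟨_, rfl⟩
  obtain ⟨g3, hg3⟩ : ∃ g3 : P5 → ℕ, g3 = fun p => cnt p.1.length (NB1 k p.1 p.2.2.1) := ⟨_, rfl⟩
  obtain ⟨g4, hg4⟩ : ∃ g4 : P5 → ℕ, g4 = fun p => cnt p.2.2.2.1.length (NA AT k p.2.2.2.1) := ⟨_, rfl⟩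
  obtain ⟨g5, hg5⟩ : ∃ g5 : P5 → ℕ, g5 = fun p => cnt p.2.2.2.2.length (NB4 k p.2.2.1 p.2.2.2.2) := ⟨_, rfl⟩
  obtain ⟨R, hR⟩ : ∃ R : Set P5, R = {p | p ∈ 𝒢 ∧ (gu p : ℝ) ≤ K * Ub k ∧ (g2 p : ℝ) ≤ K * U2 (2 ^ k) ∧
    (g3 p : ℝ) ≤ K * U2 (2 ^ k) ∧ (g4 p : ℝ) ≤ K * U2 (2 ^ k) ∧ (g5 p : ℝ) ≤ K * U2 (2 ^ k)} := ⟨_, rfl⟩
  -- the sum over the restricted class
  have hall : ENNReal.ofReal (σ * A) ≤ ∑' p : P5, (if p ∈ R then wE (cat5 p) else 0) + (ENNReal.ofReal (C * Ub k * A / (K * Ub k)) +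
      (ENNReal.ofReal (C * U2 (2 ^ k) * A / (K * U2 (2 ^ k))) + (ENNReal.ofReal (C * U2 (2 ^ k) * A / (K * U2 (2 ^ k))) +
      (ENNReal.ofReal (C * U2 (2 ^ k) * A / (K * U2 (2 ^ k))) + ENNReal.ofReal (C * U2 (2 ^ k) * A / (K * U2 (2 ^ k))))))) := by
    have t1 := mkv hmem gu (K := K * Ub k) (A := C * Ub k * A) (by positivity) (by
      rw [hgu]
      simp only [Nat.cast_add]
      exact s1)
    have t2 := mkv hmem g2 (K := K * U2 (2 ^ k)) (A := C * U2 (2 ^ k) * A) (by positivity) (by rw [hg2]; exact s2)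
    have t3 := mkv hmem g3 (K := K * U2 (2 ^ k)) (A := C * U2 (2 ^ k) * A) (by positivity) (by rw [hg3]; exact s3)
    have t4 := mkv hmem g4 (K := K * U2 (2 ^ k)) (A := C * U2 (2 ^ k) * A) (by positivity) (by rw [hg4]; exact s4)
    have t5 := mkv hmem g5 (K := K * U2 (2 ^ k)) (A := C * U2 (2 ^ k) * A) (by positivity) (by rw [hg5]; exact s5)
    refine le_trans ?_ (add_le_add le_rfl (add_le_add t1 (add_le_add t2 (add_le_add t3 (add_le_add t4 t5)))))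
    rw [← ENNReal.tsum_add, ← ENNReal.tsum_add, ← ENNReal.tsum_add, ← ENNReal.tsum_add, ← ENNReal.tsum_add]
    refine hS.trans ?_
    rw [← sum5 (fun p => if G p.1 p.2.1 p.2.2.1 p.2.2.2.1 p.2.2.2.2 then
      wE p.1 * wE p.2.1 * wE p.2.2.1 * wE p.2.2.2.1 * wE p.2.2.2.2 else 0)]
    refine ENNReal.tsum_le_tsum fun p => ?_
    by_cases hp : G p.1 p.2.1 p.2.2.1 p.2.2.2.1 p.2.2.2.2
    swap
    · rw [if_neg hp]
      exact zero_le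
    have hp' : p ∈ 𝒢 := by rw [h𝒢]; exact hp
    rw [if_pos hp, ← wE_cat5]
    by_cases c1 : K * Ub k < gu p
    · rw [if_pos (show p ∈ 𝒢 ∧ K * Ub k < gu p from ⟨hp', c1⟩)]
      exact le_add_left (le_add_right le_rfl)
    by_cases c2 : K * U2 (2 ^ k) < g2 p
    · rw [if_pos (show p ∈ 𝒢 ∧ K * U2 (2 ^ k) < g2 p from ⟨hp', c2⟩)]
      exact le_add_left (le_add_left (le_add_right le_rfl))
    by_cases c3 : K * U2 (2 ^ k) < g3 p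
    · rw [if_pos (show p ∈ 𝒢 ∧ K * U2 (2 ^ k) < g3 p from ⟨hp', c3⟩)]
      exact le_add_left (le_add_left (le_add_left (le_add_right le_rfl)))
    by_cases c4 : K * U2 (2 ^ k) < g4 p
    · rw [if_pos (show p ∈ 𝒢 ∧ K * U2 (2 ^ k) < g4 p from ⟨hp', c4⟩)]
      exact le_add_left (le_add_left (le_add_left (le_add_left (le_add_right le_rfl))))
    by_cases c5 : K * U2 (2 ^ k) < g5 p
    · rw [if_pos (show p ∈ 𝒢 ∧ K * U2 (2 ^ k) < g5 p from ⟨hp', c5⟩)]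
      exact le_add_left (le_add_left (le_add_left (le_add_left (le_add_left le_rfl))))
    rw [if_pos (show p ∈ R by rw [hR]; exact ⟨hp', not_lt.1 c1, not_lt.1 c2, not_lt.1 c3, not_lt.1 c4, not_lt.1 c5⟩)]
    exact le_add_right le_rfl
  have hhalf : ENNReal.ofReal (σ / 2 * A) ≤ ∑' p : P5, (if p ∈ R then wE (cat5 p) else 0) := by
    have e1 : C * Ub k * A / (K * Ub k) = C / K * A := by field_simp
    have e2 : C * U2 (2 ^ k) * A / (K * U2 (2 ^ k)) = C / K * A := by field_simp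
    have e3 : C / K = σ / 10 := by rw [hK]; field_simp
    rw [e1, e2, e3] at hall
    have hq : 0 ≤ σ / 10 * A := by positivity
    rw [← ENNReal.ofReal_add hq hq, ← ENNReal.ofReal_add hq (by positivity), ← ENNReal.ofReal_add hq (by positivity),
      ← ENNReal.ofReal_add hq (by positivity), show σ / 10 * A + (σ / 10 * A + (σ / 10 * A + (σ / 10 * A + σ / 10 * A))) =
        σ / 2 * A by ring] at hall
    have h2 : ENNReal.ofReal (σ * A) = ENNReal.ofReal (σ / 2 * A) + ENNReal.ofReal (σ / 2 * A) := by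
      rw [← ENNReal.ofReal_add (by positivity) (by positivity)]
      congr 1
      ring
    rw [h2] at hall
    exact (ENNReal.add_le_add_iff_right ENNReal.ofReal_ne_top).1 hall
  -- the roots
  obtain ⟨B, hB⟩ : ∃ B : ℕ, B = ⌊4 * K ^ 3 * Ub k * U2 (2 ^ k) ^ 2⌋₊ := ⟨_, rfl⟩
  have hBle : (B : ℝ) ≤ 4 * K ^ 3 * Ub k * U2 (2 ^ k) ^ 2 := by
    rw [hB]
    exact Nat.floor_le (by positivity)
  have hcod : ∀ p ∈ R, MkG AT k N p ∧ cod AT k p ≤ B := by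
    intro p hp
    rw [hR] at hp
    obtain ⟨h0, h1, h2, h3, h4, h5⟩ := hp
    refine ⟨hmk' p h0, ?_⟩
    rw [hB]
    refine Nat.le_floor ?_
    have e : (cod AT k p : ℝ) = (gu p : ℝ) * (g2 p + g3 p) * (g4 p + g5 p) := by
      unfold cod
      rw [hgu, hg2, hg3, hg4, hg5]
      push_cast
      ring
    rw [e]
    calc (gu p : ℝ) * (g2 p + g3 p) * (g4 p + g5 p) ≤ (K * Ub k) * (K * U2 (2 ^ k) + K * U2 (2 ^ k)) *
          (K * U2 (2 ^ k) + K * U2 (2 ^ k)) :=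
          mul_le_mul (mul_le_mul h1 (add_le_add h2 h3) (by positivity) (by positivity)) (add_le_add h4 h5) (by positivity)
            (by positivity)
      _ = 4 * K ^ 3 * Ub k * U2 (2 ^ k) ^ 2 := by ring
  have hroot := root_count hA hτ1 hτ2 hcod
  obtain ⟨H, hH⟩ : ∃ H : Set (List Bool), H = {t | t ∈ Cy N ∧ ∃ (c0 : ℕ) (Z' T1 D T2 Z : List Bool), G Z' T1 D T2 Z ∧
    t.rotate c0 = Z' ++ (T1 ++ (D ++ (T2 ++ Z)))} := ⟨_, rfl⟩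
  have hsub : Rts R N ⊆ H := by
    rintro t ⟨g1, c0, p, g2, g3⟩
    rw [hR] at g2
    have g4 := g2.1
    rw [h𝒢] at g4
    rw [hH]
    exact ⟨g1, c0, p.1, p.2.1, p.2.2.1, p.2.2.2.1, p.2.2.2.2, g4, g3⟩
  rw [← hH]
  have hroot : (N : ℝ≥0∞) * ∑' p : P5, (if p ∈ R then wE (cat5 p) else 0) ≤ 6 * (B : ℝ≥0∞) * gf H :=
    hroot.trans (mul_le_mul' le_rfl (gf_mono hsub))
  have hN : ENNReal.ofReal (N * (σ / 2 * A)) ≤ ENNReal.ofReal (6 * (4 * K ^ 3 * Ub k * U2 (2 ^ k) ^ 2)) * gf H := by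
    rw [ENNReal.ofReal_mul (Nat.cast_nonneg N), ENNReal.ofReal_natCast]
    refine (mul_le_mul' le_rfl hhalf).trans (hroot.trans (mul_le_mul' ?_ le_rfl))
    rw [ENNReal.ofReal_mul (by norm_num)]
    refine mul_le_mul' (by norm_num) ?_
    rw [← ENNReal.ofReal_natCast]
    exact ENNReal.ofReal_le_ofReal hBle
  refine le_trans (ENNReal.ofReal_le_ofReal (le_of_eq ?_)) (of_mul (b := 6 * (4 * K ^ 3 * Ub k * U2 (2 ^ k) ^ 2)) (by positivity) hN)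
  rw [hAd]
  field_simp
  ring


open scoped Classical in
/-- row L4, explicit constant, mean length of the bridges, no hypothesis -/
theorem l4X : ∃ Q : ℝ, 0 < Q ∧ ∀ σ : ℝ, 0 < σ →
    ∀ (AT : Set (List Bool)) (x : ℝ) (k N : ℕ) (τ : ℤ)
      (G : List Bool → List Bool → List Bool → List Bool → List Bool → Prop), 0 ≤ x → (∀ X ∈ AT, ArcW τ X) →
      2 * τ ≤ 3 * 2 ^ k → gf AT ≤ ENNReal.ofReal x →
      (∀ Z' T1 D T2 Z, G Z' T1 D T2 Z → Tup AT k Z' T1 D T2 Z ∧ Z' ++ (T1 ++ (D ++ (T2 ++ Z))) ∈ Cy N) →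
      ENNReal.ofReal (σ * (x ^ 2 * Ub k * (Ub k ^ 2 / (4 ^ k * PW.mZ (2 ^ k))))) ≤ (∑' Z' : List Bool, ∑' T1 : List Bool,
        ∑' D : List Bool, ∑' T2 : List Bool, ∑' Z : List Bool, (if G Z' T1 D T2 Z then
          wE Z' * wE T1 * wE D * wE T2 * wE Z else 0)) →
      ENNReal.ofReal (σ ^ 4 / Q * N * (x ^ 2 * Ub k ^ 2 / (4 ^ k * PW.mZ (2 ^ k) * U2 (2 ^ k) ^ 2))) ≤ gf {t | t ∈ Cy N ∧
        ∃ (c0 : ℕ) (Z' T1 D T2 Z : List Bool), G Z' T1 D T2 Z ∧ t.rotate c0 = Z' ++ (T1 ++ (D ++ (T2 ++ Z)))} :=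
  l4X_of (fun k => mlow_M.pos k) sums5

end PGS

end HexObs
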