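import Pool.Agent.PGS.Lit
import Pool.Agent.POL.Big
import Pool.Agent.FIS.TsNorm
import Pool.Agent.JNT.UpM

/-!
PGS / Leaf (helper51): the leaves of a word with few letters, the classes of the runs and their norms.
-/

set_option autoImplicit false

namespace HexObs

namespace PGS

open Finset TS SDN NTW NTA SIM JNT POL

open scoped ENNReal Classical

/-- leaves of the box with at most N letters -/
def GN (kc J N : ℕ) : Set (List Bool) := {g | g ∈ BrR (2 ^ (kc + 4)) (2 ^ (kc + J + 2)) ∧ g.length ≤ N}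

/-- one leaf with at most N letters -/
def SglN (kc J N : ℕ) : Set (List (List Bool)) := {r | ∃ g ∈ GN kc J N, r = [g]}

/-- the merged leaves are leaves of the box -/
lemma mrgB {w : List Bool} {kc J m u l1 l2 : ℕ} {e : ℕ → ℕ} (hw : w ∈ WL (kc + J)) (h : Fd (kc + 5) w m u e)
    (h1 : 1 ≤ l1) (hM : Mrg w u e l1 l2) (h2 : l2 + 1 ≤ m) :
    lw w (e l1) (e l2) ∈ BrR (2 ^ (kc + 4)) (2 ^ (kc + J + 2)) := by
  obtain ⟨n, a1, a2, a3, a4, -⟩ := mrg_lw hw.1 (show 1 ≤ kc + 5 by omega) h h1 hM h2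
  have h12 := hM.1
  have h3 := h.2.2.1 l1 (by omega)
  have hle : ∀ j, j ≤ m → e j ≤ w.length := by
    intro j hj
    have h1 := fd_mono h hj le_rfl
    have h2 := h.2.1.le
    omega
  have m1 := fd_mono h (i := l1) (j := l1 + 1) (by omega) (by omega)
  have m2 := fd_mono h (i := l1 + 1) (j := l2) (by omega) (by omega)
  have h4 := hM.2.2.2 (e (l1 + 1)) (by omega) (by omega)
  have b1 := lev_box hw (hle l1 (by omega))
  have b2 := lev_box hw (hle l2 (by omega))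
  rw [abs_le] at b1 b2
  have e1 : (2 : ℤ) ^ (kc + 5) = 2 * 2 ^ (kc + 4) := by rw [pow_succ]; ring
  have e2 : (2 : ℤ) ^ (kc + J + 2) = 4 * 2 ^ (kc + J) := by rw [pow_add]; ring
  have p1 : (1 : ℤ) ≤ 2 ^ (kc + 4) := one_le_pow₀ (by norm_num)
  have p2 : (1 : ℤ) ≤ 2 ^ (kc + J) := one_le_pow₀ (by norm_num)
  have h6 : RR (kc + 5) = 3 * 2 ^ (kc + 5) - 2 := rfl
  have c1 : ((2 ^ (kc + 4) : ℕ) : ℤ) ≤ n := by
    push_cast
    omega
  have c2 : (n : ℤ) ≤ ((2 ^ (kc + J + 2) : ℕ) : ℤ) := by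
    push_cast
    unfold Tight.sg at a2
    split_ifs at a2 <;> omega
  exact ⟨n, by exact_mod_cast c1, by exact_mod_cast c2, a1⟩

/-- a piece has at most as many letters as the word -/
lemma mrg_len {w : List Bool} {kc m u l1 l2 : ℕ} {e : ℕ → ℕ} (hw : w ∈ SA) (h : Fd (kc + 5) w m u e)
    (h1 : 1 ≤ l1) (hM : Mrg w u e l1 l2) (h2 : l2 + 1 ≤ m) : (lw w (e l1) (e l2)).length ≤ w.length := by
  obtain ⟨n, a1, a2, a3, a4, -⟩ := mrg_lw hw (show 1 ≤ kc + 5 by omega) h h1 hM h2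
  have h3 := fd_mono h (i := l2) (j := m) (by omega) le_rfl
  have h4 := h.2.1.le
  omega

/-- **all leaves of a run have few letters** -/
lemma hrm_add {w : List Bool} {kc J N : ℕ} {R : Set (List (List Bool))} (hw : w ∈ WL (kc + J)) (hN : w.length ≤ N)
    (h : w ∈ HRm kc R) : w ∈ HRm kc {gs | gs ∈ R ∧ ∀ x ∈ gs, x ∈ GN kc J N} := by
  obtain ⟨m, u, e, hF, l1, l2, d, hl1, hM, hm, hor⟩ := h
  have h12 := hM.1
  have hg : lw w (e l1) (e l2) ∈ GN kc J N := ⟨mrgB hw hF hl1 hM hm, (mrg_len hw.1 hF hl1 hM hm).trans hN⟩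
  have hx : ∀ a d : ℕ, 1 ≤ a → a + d + 1 ≤ m → ∀ x ∈ lws w e a d, x ∈ GN kc J N := by
    intro a d h1 h2 x hx
    obtain ⟨i, hi, rfl⟩ := List.mem_iff_getElem.1 hx
    have hi' : i < d := by rwa [lws_len] at hi
    rw [lws_getE w e a d i hi]
    have h3 := mrg_one hF (l := a + i) (by omega) (by omega)
    exact ⟨mrgB hw hF (by omega) h3 (by omega), (mrg_len hw.1 hF (by omega) h3 (by omega)).trans hN⟩
  refine ⟨m, u, e, hF, l1, l2, d, hl1, hM, hm, ?_⟩
  rcases hor with ⟨h2, h3⟩ | ⟨h2, h3⟩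
  · refine Or.inl ⟨h2, h3, fun x h4 => ?_⟩
    rcases List.mem_cons.1 h4 with rfl | h5
    · exact hg
    · exact hx l2 d (by omega) h2 x h5
  · refine Or.inr ⟨h2, h3, fun x h4 => ?_⟩
    rcases List.mem_append.1 h4 with h5 | h5
    · exact hx (l1 - d) d (by omega) (by omega) x h5
    · rw [List.mem_singleton] at h5
      rw [h5]
      exact hg

/-- many leaves of the scale kc + 5, few letters -/
lemma in_AN {w : List Bool} {kc J m u M N : ℕ} {e : ℕ → ℕ} (hw : w ∈ WL (kc + J)) (hN : w.length ≤ N)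
    (h : Fd (kc + 5) w m u e) (hm : M + 4 ≤ m) : w ∈ HRf kc (WinR kc J M (Sgl kc J) (SglN kc J N)) := by
  refine ⟨m, u, e, h, 1, M + 2, le_rfl, by omega, by omega, ?_⟩
  have hb := lws_brr hw h (l := 1) (d := M + 2) le_rfl (by omega)
  have hbN : ∀ x ∈ lws w e 1 (M + 2), x ∈ GN kc J N := by
    intro x hx
    refine ⟨hb x hx, ?_⟩
    obtain ⟨i, hi, rfl⟩ := List.mem_iff_getElem.1 hx
    have hi' : i < M + 2 := by rwa [lws_len] at hi
    rw [lws_getE w e 1 (M + 2) i hi]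
    exact (mrg_len hw.1 h (by omega) (mrg_one h (by omega) (by omega)) (by omega)).trans hN
  have hlen := lws_len w e 1 (M + 2)
  generalize lws w e 1 (M + 2) = ms at hb hbN hlen
  obtain ⟨g0, t, rfl⟩ := List.exists_cons_of_length_pos (by omega : 0 < ms.length)
  rw [List.length_cons] at hlen
  have h1 : t ≠ [] := by
    rintro rfl
    simp at hlen
  refine ⟨[g0], t.dropLast, [t.getLast h1], ?_, ⟨g0, rfl, hb _ (by simp)⟩, by simp,
    ⟨_, hbN _ (List.mem_cons_of_mem _ (List.getLast_mem h1)), rfl⟩, by simp, by rw [List.length_dropLast]; omega⟩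
  rw [List.dropLast_append_getLast h1]
  rfl

/-- tall leaves with few letters, without backtracks of the scale kc + 6 -/
def RTn (kc J c N : ℕ) : Set (List (List Bool)) :=
  {gs | ∃ g ∈ {g : List Bool | (g ∈ SDN.CL (kc + 6) ∧ 2 ^ (kc + J) ≤ c * hgt g) ∧ g ∈ GN kc J N}, gs = [g]}

/-- the runs with a tall leaf have a tall leaf with few letters -/
lemma hrm_tl {kc J Mb n N : ℕ} (hn : 1 ≤ n) (hMb : n ≤ Mb) {w : List Bool} (hw : w ∈ WL (kc + J)) (hN : w.length ≤ N)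
    (h : w ∈ HRm kc (RunTl kc J Mb)) : w ∈ HRm kc (TlR n (RTn kc J (8 * (2 * Mb + 10) ^ 2) N)) := by
  refine hrm_shrink hn hMb (hrm_mono ?_ (hrm_add hw hN h))
  rintro gs ⟨⟨g, ms, h1, h2, h3, h4, -⟩, h5⟩
  refine ⟨g, ms, h1, h2, g, ⟨⟨h3, h4⟩, h5 g ?_⟩, rfl⟩
  rcases h2 with rfl | rfl
  · exact List.mem_cons_self
  · exact List.mem_append_right _ (List.mem_singleton.2 rfl)

end PGS

end HexObs
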