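import Pool.Agent.PGS.TailE

/-!
PGS / Lit (helper51): the literals of the full tail of the extent of the polygons. Row 1 (51): UpTail. Row 2 (39): TailFull from
UpTail.
-/

set_option autoImplicit false

namespace HexObs

namespace PGS

open Finset TS SDN NTW NTA SIM JNT POL

open scoped ENNReal Classical

/-- **Row 1**: the layers of the extent for closed words with few letters (N letters, N < m_(k+1), the extent is 2 ^ (k + i)) -/
def UpTail : Prop := ∀ r0 : ℕ, ∃ (A : ℝ) (c8 i0 : ℕ), 1 ≤ A ∧ ∀ N k i : ℕ, 1 ≤ N → i0 ≤ i → 3 * i + i0 ≤ k →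
  2 ^ (4 * i - r0) ≤ k → (N : ℝ) < mM (k + 1) →
  gf (WC N (k + i) \ WC N (k + i - 1)) ≤
    ENNReal.ofReal (A * (1 / 2) ^ (2 ^ (4 * i - c8)) * (N / w4 mM (k + i)))

/-- **Row 2**: the full tail of the largest distance of the polygons -/
def TailFull : Prop := ∃ c C : ℝ, 0 < c ∧ 0 < C ∧ ∀ n : ℕ, 9 ≤ n → ¬ Even n → ∀ L : ℝ, 0 ≤ L →
  (((PGX.Pol Pool.Agent.NTS.Res.step n).filter fun s =>
    ∃ j, j ≤ n ∧ L * (n : ℝ) ^ (3 / 4 : ℝ) ≤ ‖MS.pw Pool.Agent.NTS.Res.step s j‖).card : ℝ) ≤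
    C * Real.exp (-(c * L ^ 4)) * ((PGX.Pol Pool.Agent.NTS.Res.step n).card : ℝ)

end PGS

end HexObs
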