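import Pool.Agent.JNT.LowDefs2

/-!
PGS / LitB (helper39, helper51): the literal of the tall narrow bridges.
-/

set_option autoImplicit false

namespace HexObs

namespace PGS

open Finset TS SDN NTA JNT RP

open scoped ENNReal

/-- **Row 3** (39): bridges of height about J H 2 ^ k in a tube of width 2 ^ k, given end, given number of letters -/
def LowNarT (m : ℕ → ℝ) : Prop := ∀ w a A : ℝ, 0 < w → 0 < a → 2 * a ≤ A → ∃ H0 : ℕ, ∀ H : ℕ, H0 ≤ H →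
  ∃ (c : ℝ) (k0 : ℕ), 0 < c ∧ c ≤ 1 ∧ ∀ (k J h b : ℕ) (x : ℤ), k0 ≤ k → 1 ≤ J → J * (H * 2 ^ k) ≤ h →
    h ≤ 2 * (J * (H * 2 ^ k)) → Even (x - h) → |(x : ℝ)| ≤ w * 2 ^ k → Even b → J * (a * m k) ≤ b →
    (b : ℝ) ≤ J * (A * m k) → ENNReal.ofReal (c ^ J * (Ub k / (4 ^ k * m k))) ≤
      gf {Z | Z ∈ EndB h x ∧ Z.length = b ∧ ∀ i, i ≤ Z.length → |(lat Z i : ℝ)| ≤ 40 * w * 2 ^ k}

end PGS

end HexObs
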