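import Pool.Agent.PGS.Small
import Pool.Agent.PGS.Lit

/-!
PGS / Mom (helper51): all real moments of the largest distance of the polygons, from the two tails.
-/

set_option autoImplicit false

open scoped Classical

namespace HexObs

namespace PGS

open Finset

open Pool.Agent.NTS.Res (step)

/-- layers -/
lemma gen {α : Type} (P : Finset α) (F : α → ℝ) (a : ℕ → ℝ) (E : ℕ → α → Prop) (I : ℕ) (ha : ∀ i, 0 ≤ a i)
    (h : ∀ s ∈ P, F s ≤ a 0 ∨ ∃ i < I, E i s ∧ F s ≤ a (i + 1)) :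
    ∑ s ∈ P, F s ≤ a 0 * (P.card : ℝ) + ∑ i ∈ range I, a (i + 1) * ((P.filter (E i)).card : ℝ) := by
  have h1 : ∀ s ∈ P, F s ≤ a 0 + ∑ i ∈ range I, a (i + 1) * (if E i s then (1 : ℝ) else 0) := by
    intro s hs
    have hnn : ∀ i ∈ range I, (0 : ℝ) ≤ a (i + 1) * (if E i s then (1 : ℝ) else 0) := by
      intro i _
      have := ha (i + 1)
      split_ifs <;> simp [this]
    rcases h s hs with h2 | ⟨i, hi, h2, h3⟩
    · have := Finset.sum_nonneg hnn
      linarith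
    · have h4 := Finset.single_le_sum hnn (Finset.mem_range.2 hi)
      rw [if_pos h2, mul_one] at h4
      have := ha 0
      linarith
  refine (Finset.sum_le_sum h1).trans (le_of_eq ?_)
  rw [Finset.sum_add_distrib, Finset.sum_const, nsmul_eq_mul, Finset.sum_comm]
  congr 1
  · ring
  · refine Finset.sum_congr rfl fun i _ => ?_
    rw [← Finset.mul_sum, Finset.sum_ite, Finset.sum_const_zero, add_zero, Finset.sum_const, nsmul_eq_mul, mul_one]

/-- exponentials are smaller than powers -/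
lemma exp_pow {c q : ℝ} (hc : 0 < c) : ∃ K : ℝ, 0 < K ∧ ∀ L : ℝ, 1 ≤ L → Real.exp (-(c * L ^ 4)) ≤ K * L ^ (-q) := by
  obtain ⟨k, hk⟩ := exists_nat_ge q
  refine ⟨(k.factorial : ℝ) / c ^ k, by positivity, fun L hL => ?_⟩
  have hL0 : 0 < L := by linarith
  have hx : 0 ≤ c * L ^ 4 := by positivity
  have h1 := Real.pow_div_factorial_le_exp (c * L ^ 4) hx k
  have h2 : 0 < (c * L ^ 4) ^ k / (k.factorial : ℝ) := by positivity
  have h3 : Real.exp (-(c * L ^ 4)) ≤ ((c * L ^ 4) ^ k / (k.factorial : ℝ))⁻¹ := by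
    rw [Real.exp_neg]
    exact inv_anti₀ h2 h1
  refine h3.trans ?_
  rw [inv_div, mul_pow]
  have h4 : L ^ q ≤ (L ^ 4) ^ k := by
    rw [← pow_mul, ← Real.rpow_natCast]
    refine Real.rpow_le_rpow_of_exponent_le hL ?_
    push_cast
    have : (0 : ℝ) ≤ k := Nat.cast_nonneg k
    linarith
  have h5 : 0 < L ^ q := by positivity
  rw [Real.rpow_neg hL0.le, ← div_eq_mul_inv, div_div]
  exact div_le_div_of_nonneg_left (by positivity) (by positivity) (by gcongr)

/-- the largest distance from the start -/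
noncomputable def Mx {n : ℕ} (s : Fin n → Fin 3) : ℝ :=
  (range (n + 1)).sup' ⟨0, mem_range.2 (Nat.succ_pos n)⟩ fun j => ‖MS.pw step s j‖

lemma le_mx {n : ℕ} (s : Fin n → Fin 3) (x : ℝ) : x ≤ Mx s ↔ ∃ j, j ≤ n ∧ x ≤ ‖MS.pw step s j‖ := by
  unfold Mx
  rw [Finset.le_sup'_iff]
  constructor
  · rintro ⟨j, hj, h⟩
    exact ⟨j, by have := mem_range.1 hj; omega, h⟩
  · rintro ⟨j, hj, h⟩
    exact ⟨j, mem_range.2 (by omega), h⟩

lemma mx_le {n : ℕ} (s : Fin n → Fin 3) (x : ℝ) : Mx s ≤ x ↔ ∀ j, j ≤ n → ‖MS.pw step s j‖ ≤ x := by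
  unfold Mx
  rw [Finset.sup'_le_iff]
  constructor
  · intro h j hj
    exact h j (mem_range.2 (by omega))
  · intro h j hj
    exact h j (by have := mem_range.1 hj; omega)

lemma hexS : MS.Hex step := fun _ _ => rfl

lemma mx_ge1 {n : ℕ} (hn : 1 ≤ n) (s : Fin n → Fin 3) : 1 ≤ Mx s := by
  rw [le_mx]
  refine ⟨1, hn, ?_⟩
  have h4 : ‖MS.pw step s 1‖ = 1 := by
    have h5 : MS.pw step s 1 = step 0 (s ⟨0, by omega⟩) := by
      unfold MS.pw
      rw [Finset.sum_eq_single ⟨0, by omega⟩]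
      · intro i hi hne
        exfalso
        apply hne
        have := (Finset.mem_filter.1 hi).2
        exact Fin.ext (by simpa using this)
      · intro h
        exact absurd (Finset.mem_filter.2 ⟨Finset.mem_univ (⟨0, by omega⟩ : Fin n), Nat.zero_lt_one⟩) h
    rw [h5]
    exact hexS.norm_step _ _
  rw [h4]

lemma mx_len {n : ℕ} (s : Fin n → Fin 3) : Mx s ≤ n := by
  rw [mx_le]
  intro j hj
  have h2 := MS.steps_le hexS s 0 j (Nat.zero_le _)
  have h0 : MS.pw step s 0 = 0 := by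
    unfold MS.pw
    rw [Finset.filter_false_of_mem (fun i _ => Nat.not_lt_zero _), Finset.sum_empty]
  rw [h0, sub_zero] at h2
  have h3 : (j : ℝ) ≤ n := by exact_mod_cast hj
  push_cast at h2
  linarith

/-- **the moments from above** -/
theorem mom_up (hT : TailFull) (p : ℝ) : ∃ C : ℝ, 0 < C ∧ ∀ n : ℕ, 9 ≤ n → ¬ Even n →
    ∑ s ∈ PGX.Pol step n, Mx s ^ p ≤ C * (n : ℝ) ^ (3 / 4 * p : ℝ) * ((PGX.Pol step n).card : ℝ) := by
  obtain ⟨c1, C1, hc1, hC1, h1⟩ := hT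
  obtain ⟨K, hK, h2⟩ := exp_pow (q := |p| + 1) hc1
  obtain ⟨C2, hC2, h3⟩ := small (|p| + 1) (by positivity)
  obtain ⟨C, hC⟩ : ∃ C : ℝ, C = max (C1 * K) C2 := ⟨_, rfl⟩
  have hC0 : 0 < C := by rw [hC]; positivity
  refine ⟨2 ^ |p| + 2 ^ |p| * 2 * C, by positivity, fun n hn ho => ?_⟩
  have hn0 : (0 : ℝ) < n := by exact_mod_cast (by omega : 0 < n)
  have hn1 : (1 : ℝ) ≤ n := by exact_mod_cast (by omega : 1 ≤ n)
  obtain ⟨A, hA⟩ : ∃ A : ℝ, A = (n : ℝ) ^ (3 / 4 : ℝ) := ⟨_, rfl⟩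
  have hA0 : 0 < A := by rw [hA]; positivity
  have hA1 : 1 ≤ A := by rw [hA]; exact Real.one_le_rpow hn1 (by norm_num)
  have hAn : A ≤ 2 ^ n := by
    have h4 : A ≤ (n : ℝ) ^ (1 : ℝ) := by rw [hA]; exact Real.rpow_le_rpow_of_exponent_le hn1 (by norm_num)
    rw [Real.rpow_one] at h4
    have h5 : (n : ℝ) < 2 ^ n := by exact_mod_cast (Nat.lt_two_pow_self (n := n))
    linarith
  have hnn : (n : ℝ) < 2 ^ n := by exact_mod_cast (Nat.lt_two_pow_self (n := n))
  have hAp : (n : ℝ) ^ (3 / 4 * p : ℝ) = A ^ p := by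
    rw [hA, ← Real.rpow_mul hn0.le]
  obtain ⟨P, hP⟩ : ∃ P, P = PGX.Pol step n := ⟨_, rfl⟩
  have hAp0 : 0 < A ^ p := by positivity
  -- layers
  obtain ⟨a, ha⟩ : ∃ a : ℕ → ℝ, a = fun i => (2 ^ |p|) * ((2 : ℝ) ^ ((i - 1 : ℕ) : ℝ)) ^ |p| * A ^ p := ⟨_, rfl⟩
  have ha0 : ∀ i, 0 ≤ a i := fun i => by rw [ha]; positivity
  obtain ⟨E, hE⟩ : ∃ E : ℕ → (Fin n → Fin 3) → Prop, E = fun (i : ℕ) (s : Fin n → Fin 3) =>
    if 0 ≤ p then (2 : ℝ) ^ (i : ℝ) * A ≤ Mx s else Mx s ≤ ((2 : ℝ) ^ (i : ℝ))⁻¹ * A := ⟨_, rfl⟩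
  have hlay : ∀ s ∈ P, Mx s ^ p ≤ a 0 ∨ ∃ i < n, E i s ∧ Mx s ^ p ≤ a (i + 1) := by
    intro s _
    have m1 := mx_ge1 (by omega : 1 ≤ n) s
    have m0 : 0 < Mx s := by linarith
    have m2 := mx_len s
    have e0 : a 0 = 2 ^ |p| * A ^ p := by rw [ha]; simp
    have e1 : ∀ i, a (i + 1) = (2 ^ |p|) * ((2 : ℝ) ^ (i : ℝ)) ^ |p| * A ^ p := fun i => by
      rw [ha]
      simp only
      rw [Nat.add_sub_cancel]
    have one2 : (1 : ℝ) ≤ 2 ^ |p| := Real.one_le_rpow (by norm_num) (abs_nonneg p)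
    rcases le_or_gt 0 p with hp | hp
    · rcases le_or_gt (Mx s) A with h | h
      · left
        rw [e0]
        calc Mx s ^ p ≤ A ^ p := Real.rpow_le_rpow m0.le h hp
          _ ≤ _ := le_mul_of_one_le_left hAp0.le one2
      · right
        obtain ⟨i, hi1, hi2⟩ := exists_nat_pow_near (x := Mx s / A) (y := 2)
          (by rw [le_div_iff₀ hA0]; linarith) (by norm_num)
        rw [le_div_iff₀ hA0] at hi1
        rw [div_lt_iff₀ hA0] at hi2
        refine ⟨i, ?_, ?_, ?_⟩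
        · by_contra hc
          have h5 : (2 : ℝ) ^ n ≤ 2 ^ i := pow_le_pow_right₀ (by norm_num) (by omega)
          have h6 : (2 : ℝ) ^ i ≤ 2 ^ i * A := le_mul_of_one_le_right (by positivity) hA1
          linarith
        · rw [hE]
          simp only
          rw [if_pos hp, Real.rpow_natCast]
          exact hi1
        · rw [e1, abs_of_nonneg hp, ← Real.mul_rpow (by norm_num) (by positivity), ← Real.mul_rpow (by positivity) hA0.le,
            Real.rpow_natCast]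
          refine Real.rpow_le_rpow m0.le ?_ hp
          rw [pow_succ] at hi2
          linarith
    · rcases le_or_gt A (Mx s) with h | h
      · left
        rw [e0]
        calc Mx s ^ p ≤ A ^ p := Real.rpow_le_rpow_of_nonpos hA0 h hp.le
          _ ≤ _ := le_mul_of_one_le_left hAp0.le one2
      · right
        obtain ⟨i, hi1, hi2⟩ := exists_nat_pow_near (x := A / Mx s) (y := 2)
          (by rw [le_div_iff₀ m0]; linarith) (by norm_num)
        rw [le_div_iff₀ m0] at hi1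
        rw [div_lt_iff₀ m0] at hi2
        refine ⟨i, ?_, ?_, ?_⟩
        · by_contra hc
          have h5 : (2 : ℝ) ^ n ≤ 2 ^ i := pow_le_pow_right₀ (by norm_num) (by omega)
          have h6 : (2 : ℝ) ^ i ≤ 2 ^ i * Mx s := le_mul_of_one_le_right (by positivity) m1
          have h7 : A ≤ n := by
            have h4 : A ≤ (n : ℝ) ^ (1 : ℝ) := by rw [hA]; exact Real.rpow_le_rpow_of_exponent_le hn1 (by norm_num)
            rwa [Real.rpow_one] at h4
          linarith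
        · rw [hE]
          simp only
          rw [if_neg (not_le.2 hp), Real.rpow_natCast, inv_mul_eq_div, le_div_iff₀ (by positivity), mul_comm]
          exact hi1
        · rw [e1, abs_of_neg hp]
          have e3 : (2 : ℝ) ^ (-p) * ((2 : ℝ) ^ (i : ℝ)) ^ (-p) * A ^ p = (A / (2 * 2 ^ i)) ^ p := by
            rw [Real.div_rpow hA0.le (by positivity), Real.mul_rpow (by norm_num) (by positivity), Real.rpow_natCast,
              Real.rpow_neg (by norm_num), Real.rpow_neg (by positivity)]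
            field_simp
          rw [e3]
          refine Real.rpow_le_rpow_of_nonpos (by positivity) ?_ hp.le
          rw [div_le_iff₀ (by positivity)]
          rw [pow_succ] at hi2
          linarith
  have hg := gen P (fun s => Mx s ^ p) a E n ha0 hlay
  have hEc : ∀ i ∈ range n, a (i + 1) * ((P.filter (E i)).card : ℝ) ≤
      2 ^ |p| * C * A ^ p * (P.card : ℝ) * (1 / 2) ^ i := by
    intro i _
    have hL1 : (1 : ℝ) ≤ 2 ^ (i : ℝ) := Real.one_le_rpow (by norm_num) (Nat.cast_nonneg i)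
    have hL0 : (0 : ℝ) < 2 ^ (i : ℝ) := by linarith
    have e1 : a (i + 1) = (2 ^ |p|) * ((2 : ℝ) ^ (i : ℝ)) ^ |p| * A ^ p := by
      rw [ha]
      simp only
      rw [Nat.add_sub_cancel]
    have hcd : ((P.filter (E i)).card : ℝ) ≤ C * ((2 : ℝ) ^ (i : ℝ)) ^ (-(|p| + 1)) * (P.card : ℝ) := by
      rcases le_or_gt 0 p with hp | hp
      · have h4 := h1 n hn ho (2 ^ (i : ℝ)) hL0.le
        have h5 : P.filter (E i) = (PGX.Pol step n).filter fun s =>
            ∃ j, j ≤ n ∧ 2 ^ (i : ℝ) * (n : ℝ) ^ (3 / 4 : ℝ) ≤ ‖MS.pw step s j‖ := by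
          rw [hP]
          refine Finset.filter_congr fun s _ => ?_
          rw [hE]
          simp only
          rw [if_pos hp, le_mx, hA]
        rw [h5]
        refine h4.trans ?_
        rw [← hP]
        have h6 := h2 (2 ^ (i : ℝ)) hL1
        calc C1 * Real.exp (-(c1 * (2 ^ (i : ℝ)) ^ 4)) * (P.card : ℝ)
            ≤ C1 * (K * (2 ^ (i : ℝ)) ^ (-(|p| + 1))) * (P.card : ℝ) := by gcongr
          _ = (C1 * K) * (2 ^ (i : ℝ)) ^ (-(|p| + 1)) * (P.card : ℝ) := by ring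
          _ ≤ _ := by
              gcongr
              rw [hC]
              exact le_max_left _ _
      · have h4 := h3 step hexS n hn ho ((2 : ℝ) ^ (i : ℝ))⁻¹ (by positivity)
        have h5 : P.filter (E i) = (PGX.Pol step n).filter fun s =>
            ∀ j, j ≤ n → ‖MS.pw step s j‖ ≤ ((2 : ℝ) ^ (i : ℝ))⁻¹ * (n : ℝ) ^ (3 / 4 : ℝ) := by
          rw [hP]
          refine Finset.filter_congr fun s _ => ?_
          rw [hE]
          simp only
          rw [if_neg (not_le.2 hp), mx_le, hA]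
        rw [h5]
        refine (le_of_eq ?_).trans (h4.trans ?_)
        · congr
        rw [← hP, Real.inv_rpow hL0.le, ← Real.rpow_neg hL0.le]
        gcongr
        rw [hC]
        exact le_max_right _ _
    have e2 : ((2 : ℝ) ^ (i : ℝ)) ^ |p| * ((2 : ℝ) ^ (i : ℝ)) ^ (-(|p| + 1)) = (1 / 2) ^ i := by
      rw [← Real.rpow_add hL0, show |p| + -(|p| + 1) = -1 by ring, Real.rpow_neg_one, Real.rpow_natCast, one_div, inv_pow]
    calc a (i + 1) * ((P.filter (E i)).card : ℝ) ≤ a (i + 1) * (C * ((2 : ℝ) ^ (i : ℝ)) ^ (-(|p| + 1)) * (P.card : ℝ)) :=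
          mul_le_mul_of_nonneg_left hcd (ha0 _)
      _ = 2 ^ |p| * C * A ^ p * (P.card : ℝ) * (((2 : ℝ) ^ (i : ℝ)) ^ |p| * ((2 : ℝ) ^ (i : ℝ)) ^ (-(|p| + 1))) := by
          rw [e1]
          ring
      _ = _ := by rw [e2]
  have hs2 : ∑ i ∈ range n, (1 / 2 : ℝ) ^ i ≤ 2 := sum_geometric_two_le n
  have e0 : a 0 = 2 ^ |p| * A ^ p := by rw [ha]; simp
  rw [hP] at hg
  rw [← hP] at hg ⊢
  rw [hAp]
  calc ∑ s ∈ P, Mx s ^ p ≤ a 0 * (P.card : ℝ) + ∑ i ∈ range n, a (i + 1) * ((P.filter (E i)).card : ℝ) := hg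
    _ ≤ a 0 * (P.card : ℝ) + ∑ i ∈ range n, 2 ^ |p| * C * A ^ p * (P.card : ℝ) * (1 / 2) ^ i := by
        exact add_le_add le_rfl (Finset.sum_le_sum hEc)
    _ = 2 ^ |p| * A ^ p * (P.card : ℝ) + 2 ^ |p| * C * A ^ p * (P.card : ℝ) * ∑ i ∈ range n, (1 / 2 : ℝ) ^ i := by
        rw [e0, Finset.mul_sum]
    _ ≤ 2 ^ |p| * A ^ p * (P.card : ℝ) + 2 ^ |p| * C * A ^ p * (P.card : ℝ) * 2 := by gcongr
    _ = _ := by ring

/-- **the moments from below** -/
theorem mom_low (hT : TailFull) (p : ℝ) : ∃ c : ℝ, 0 < c ∧ ∀ n : ℕ, 9 ≤ n → ¬ Even n →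
    c * (n : ℝ) ^ (3 / 4 * p : ℝ) * ((PGX.Pol step n).card : ℝ) ≤ ∑ s ∈ PGX.Pol step n, Mx s ^ p := by
  obtain ⟨c1, C1, hc1, hC1, h1⟩ := hT
  obtain ⟨K, hK, h2⟩ := exp_pow (q := 1) hc1
  obtain ⟨C2, hC2, h3⟩ := small 1 zero_le_one
  obtain ⟨L, hL⟩ : ∃ L : ℝ, L = max 1 (4 * C1 * K) := ⟨_, rfl⟩
  have hL1 : 1 ≤ L := by rw [hL]; exact le_max_left _ _
  have hL0 : 0 < L := by linarith
  obtain ⟨δ, hδ⟩ : ∃ δ : ℝ, δ = 1 / (4 * C2) := ⟨_, rfl⟩
  have hδ0 : 0 < δ := by rw [hδ]; positivity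
  refine ⟨min (δ ^ p) (L ^ p) / 2, by positivity, fun n hn ho => ?_⟩
  have hn0 : (0 : ℝ) < n := by exact_mod_cast (by omega : 0 < n)
  obtain ⟨A, hA⟩ : ∃ A : ℝ, A = (n : ℝ) ^ (3 / 4 : ℝ) := ⟨_, rfl⟩
  have hA0 : 0 < A := by rw [hA]; positivity
  have hAp : (n : ℝ) ^ (3 / 4 * p : ℝ) = A ^ p := by
    rw [hA, ← Real.rpow_mul hn0.le]
  obtain ⟨P, hP⟩ : ∃ P, P = PGX.Pol step n := ⟨_, rfl⟩
  have g1 : ((P.filter fun s => L * A ≤ Mx s).card : ℝ) ≤ 1 / 4 * (P.card : ℝ) := by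
    have h4 := h1 n hn ho L hL0.le
    have h5 : P.filter (fun s => L * A ≤ Mx s) = (PGX.Pol step n).filter fun s =>
        ∃ j, j ≤ n ∧ L * (n : ℝ) ^ (3 / 4 : ℝ) ≤ ‖MS.pw step s j‖ := by
      rw [hP]
      refine Finset.filter_congr fun s _ => ?_
      rw [le_mx, hA]
    rw [h5]
    refine h4.trans ?_
    rw [← hP]
    have h6 := h2 L hL1
    rw [Real.rpow_neg_one] at h6
    have h7 : C1 * (K * L⁻¹) ≤ 1 / 4 := by
      have h8 : 4 * C1 * K ≤ L := by rw [hL]; exact le_max_right _ _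
      rw [← mul_assoc, ← div_eq_mul_inv, div_le_iff₀ hL0]
      linarith
    have h9 : C1 * Real.exp (-(c1 * L ^ 4)) ≤ 1 / 4 := (mul_le_mul_of_nonneg_left h6 hC1.le).trans h7
    gcongr
  have g2 : ((P.filter fun s => Mx s ≤ δ * A).card : ℝ) ≤ 1 / 4 * (P.card : ℝ) := by
    have h4 := h3 step hexS n hn ho δ hδ0
    have h5 : P.filter (fun s => Mx s ≤ δ * A) = (PGX.Pol step n).filter fun s =>
        ∀ j, j ≤ n → ‖MS.pw step s j‖ ≤ δ * (n : ℝ) ^ (3 / 4 : ℝ) := by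
      rw [hP]
      refine Finset.filter_congr fun s _ => ?_
      rw [mx_le, hA]
    rw [h5]
    refine (le_of_eq ?_).trans (h4.trans ?_)
    · congr
    rw [← hP, Real.rpow_one]
    have h7 : C2 * δ = 1 / 4 := by
      rw [hδ]
      field_simp
    rw [h7]
  have hsplit : (P.card : ℝ) ≤ ((P.filter fun s => L * A ≤ Mx s).card : ℝ) + ((P.filter fun s => Mx s ≤ δ * A).card : ℝ) +
      ((P.filter fun s => δ * A < Mx s ∧ Mx s < L * A).card : ℝ) := by
    have h4 : P ⊆ (P.filter fun s => L * A ≤ Mx s) ∪ (P.filter fun s => Mx s ≤ δ * A) ∪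
        (P.filter fun s => δ * A < Mx s ∧ Mx s < L * A) := by
      intro s hs
      simp only [Finset.mem_union, Finset.mem_filter]
      rcases le_or_gt (L * A) (Mx s) with h | h
      · exact Or.inl (Or.inl ⟨hs, h⟩)
      · rcases le_or_gt (Mx s) (δ * A) with h' | h'
        · exact Or.inl (Or.inr ⟨hs, h'⟩)
        · exact Or.inr ⟨hs, h', h⟩
    have h5 := (Finset.card_le_card h4).trans (Finset.card_union_le _ _)
    have h6 := Finset.card_union_le (P.filter fun s => L * A ≤ Mx s) (P.filter fun s => Mx s ≤ δ * A)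
    have h7 : P.card ≤ (P.filter fun s => L * A ≤ Mx s).card + (P.filter fun s => Mx s ≤ δ * A).card +
        (P.filter fun s => δ * A < Mx s ∧ Mx s < L * A).card := by omega
    exact_mod_cast h7
  have g3 : 1 / 2 * (P.card : ℝ) ≤ ((P.filter fun s => δ * A < Mx s ∧ Mx s < L * A).card : ℝ) := by linarith
  obtain ⟨q, hq⟩ : ∃ q : ℝ, q = min (δ ^ p) (L ^ p) := ⟨_, rfl⟩
  have hq0 : 0 < q := by rw [hq]; positivity
  have g4 : ∀ s ∈ P.filter (fun s => δ * A < Mx s ∧ Mx s < L * A), q * A ^ p ≤ Mx s ^ p := by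
    intro s hs
    obtain ⟨-, h4, h5⟩ := Finset.mem_filter.1 hs
    have hδA : 0 < δ * A := by positivity
    have m0 : 0 < Mx s := hδA.trans h4
    rcases le_or_gt 0 p with hp | hp
    · calc q * A ^ p ≤ δ ^ p * A ^ p := by
            gcongr
            rw [hq]
            exact min_le_left _ _
        _ = (δ * A) ^ p := (Real.mul_rpow hδ0.le hA0.le).symm
        _ ≤ _ := Real.rpow_le_rpow hδA.le h4.le hp
    · calc q * A ^ p ≤ L ^ p * A ^ p := by
            gcongr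
            rw [hq]
            exact min_le_right _ _
        _ = (L * A) ^ p := (Real.mul_rpow hL0.le hA0.le).symm
        _ ≤ _ := Real.rpow_le_rpow_of_nonpos m0 h5.le hp.le
  rw [← hP, hAp, ← hq]
  have hAp0 : 0 < A ^ p := by positivity
  calc q / 2 * A ^ p * (P.card : ℝ) = q * A ^ p * (1 / 2 * (P.card : ℝ)) := by ring
    _ ≤ q * A ^ p * ((P.filter fun s => δ * A < Mx s ∧ Mx s < L * A).card : ℝ) := by gcongr
    _ = ∑ s ∈ P.filter (fun s => δ * A < Mx s ∧ Mx s < L * A), q * A ^ p := by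
        rw [Finset.sum_const, nsmul_eq_mul]
        ring
    _ ≤ ∑ s ∈ P.filter (fun s => δ * A < Mx s ∧ Mx s < L * A), Mx s ^ p := Finset.sum_le_sum g4
    _ ≤ _ := by
        refine Finset.sum_le_sum_of_subset_of_nonneg (Finset.filter_subset _ _) fun s _ _ => ?_
        have := mx_ge1 (by omega : 1 ≤ n) s
        positivity

end PGS

end HexObs
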