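import Pool.Agent.PGS.L3T
import Pool.Agent.PGS.L4x
import Pool.Agent.PGS.Mom
import Pool.Agent.POL.Low5

/-!
PGS / LowF (helper51): the lower side of the tail of the extent of the polygons, from the tall narrow bridges.
-/

set_option autoImplicit false

namespace HexObs

namespace PGS

open Finset TS SDN NTA JNT RP POL

open scoped ENNReal

/-- a scale for every number -/
lemma scale_R {m : ℕ → ℝ} {c C : ℝ} (hc : 0 < c) (h1 : ∀ k : ℕ, c * 2 ^ (4 / 3 * (k : ℝ)) ≤ m k)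
    (h2 : ∀ k, m (k + 1) ≤ C * m k) (k0 : ℕ) : ∀ x : ℝ, m k0 ≤ x → ∃ k, k0 ≤ k ∧ m k ≤ x ∧ x ≤ C * m k := by
  intro x h0
  have hex : ∃ k, k0 ≤ k ∧ x < m k := by
    obtain ⟨k, hk⟩ := pow_unbounded_of_one_lt (x / c) (by norm_num : (1 : ℝ) < 2)
    refine ⟨max k0 k, le_max_left _ _, lt_of_lt_of_le ?_ (h1 _)⟩
    rw [div_lt_iff₀ hc] at hk
    refine lt_of_lt_of_le hk ?_
    rw [mul_comm]
    refine mul_le_mul_of_nonneg_left ?_ hc.le
    rw [← Real.rpow_natCast]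
    refine Real.rpow_le_rpow_of_exponent_le (by norm_num) ?_
    have h3 : (k : ℝ) ≤ ((max k0 k : ℕ) : ℝ) := by exact_mod_cast le_max_right _ _
    have h4 : (0 : ℝ) ≤ k := Nat.cast_nonneg k
    linarith
  classical
  obtain ⟨k, hk⟩ : ∃ k, k = Nat.find hex := ⟨_, rfl⟩
  have hk1 := Nat.find_spec hex
  rw [← hk] at hk1
  have hk2 : k0 < k := by
    rcases Nat.lt_or_ge k0 k with h | h
    · exact h
    · exfalso
      have h3 : k = k0 := le_antisymm h hk1.1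
      rw [h3] at hk1
      linarith [hk1.2]
  have hk3 := Nat.find_min hex (m := k - 1) (by omega)
  push Not at hk3
  refine ⟨k - 1, by omega, hk3 (by omega), ?_⟩
  have h3 := h2 (k - 1)
  rw [Nat.sub_add_cancel (by omega)] at h3
  exact hk1.2.le.trans h3

/-- a closed word with a rotation that starts with a high bridge has a vertex far away -/
lemma ext_cls {N K c0 : ℕ} {t Z' R : List Bool} (ht : t ∈ Cy N) (hN : 1 ≤ N) (he : t.rotate c0 = Z' ++ R)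
    (hZ : Z' ∈ HB (2 ^ K)) : ∃ j < N, 1 / 2 * (4 : ℝ) ^ K ≤ ((nrm (vx oo up t j) : ℤ) : ℝ) := by
  have hc := Cy.clo ht
  have hlen := ht.1
  obtain ⟨a, ha, hb⟩ := hZ
  obtain ⟨-, -, -, b4⟩ := mem_Brd.1 hb
  have hl : Z'.length ≤ N := by
    have := congrArg List.length he
    rw [List.length_rotate, List.length_append, hlen] at this
    omega
  have h1 : vx oo up (t.rotate c0) Z'.length = vx oo up Z' Z'.length := by
    rw [he]
    exact vx_append (by omega)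
  have h2 : (ip (vx oo up Z' Z'.length) up) ^ 2 ≤ 4 * nrm (vx oo up Z' Z'.length) := by
    obtain ⟨x, y⟩ := vx oo up Z' Z'.length
    unfold ip nrm up
    simp only
    nlinarith [sq_nonneg x]
  rw [ip_vx, b4, ← h1, rot_vx (by omega), nrm_mulE, nrm_rotTo_pd, one_mul] at h2
  have h5 := nrm_sub_le (pv t (c0 + Z'.length)) (pv t c0)
  have hmod : ∀ a : ℕ, a % N < N := fun a => Nat.mod_lt _ hN
  have e1 : pv t (c0 + Z'.length) = vx oo up t ((c0 + Z'.length) % N) := by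
    rw [pv_mod hc, hlen, pv_eq (by have := hmod (c0 + Z'.length); omega)]
  have e2 : pv t c0 = vx oo up t (c0 % N) := by
    rw [pv_mod hc, hlen, pv_eq (by have := hmod c0; omega)]
  rw [e1, e2] at h2 h5
  have h6 : ((4 : ℤ) ^ K) ≤ (a : ℤ) ^ 2 := by
    have h7 : (4 : ℤ) ^ K = (2 ^ K) ^ 2 := by
      rw [← pow_mul, mul_comm, pow_mul]
      norm_num
    rw [h7]
    exact pow_le_pow_left₀ (by positivity) (by exact_mod_cast ha) 2
  have h8 : 9 * (4 : ℤ) ^ K ≤ 8 * nrm (vx oo up t ((c0 + Z'.length) % N)) + 8 * nrm (vx oo up t (c0 % N)) := by nlinarith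
  have h9 : 9 * (4 : ℝ) ^ K ≤ 8 * ((nrm (vx oo up t ((c0 + Z'.length) % N)) : ℤ) : ℝ) +
      8 * ((nrm (vx oo up t (c0 % N)) : ℤ) : ℝ) := by exact_mod_cast h8
  have hp : (0 : ℝ) < 4 ^ K := by positivity
  rcases le_total ((nrm (vx oo up t ((c0 + Z'.length) % N)) : ℤ) : ℝ) ((nrm (vx oo up t (c0 % N)) : ℤ) : ℝ) with h | h
  · exact ⟨c0 % N, hmod _, by linarith⟩
  · exact ⟨(c0 + Z'.length) % N, hmod _, by linarith⟩

/-- closed words with a vertex at a distance of at least θ from the start -/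
def Fr (N : ℕ) (θ : ℝ) : Set (List Bool) :=
  {t | t ∈ POLP.PCy N ∧ ∃ j, j < N ∧ θ ^ 2 ≤ ((nrm (vx oo up t j) : ℤ) : ℝ)}

/-- **the elongated closed words** -/
theorem fr_low (hNT : LowNarT (fun k => PW.mZ (2 ^ k))) : ∃ (c b X0 : ℝ), 0 < c ∧ c ≤ 1 ∧ 0 < b ∧ 1 ≤ X0 ∧
    ∀ N u : ℕ, Even N → X0 * (2 ^ u : ℕ) ≤ N → ENNReal.ofReal (c ^ (2 ^ u) * (N : ℝ) ^ (-(3 / 2) : ℝ)) ≤
      gf (Fr N (b * ((2 ^ u : ℕ) : ℝ) ^ (1 / 4 : ℝ) * (N : ℝ) ^ (3 / 4 : ℝ))) := by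
  obtain ⟨η, L, C, hη, hL, hC, hup, harc⟩ := arcs_M
  obtain ⟨A, hA, hAm⟩ := mup_M
  obtain ⟨c1, hc1, hlow⟩ := VF.mLow VF.sharpZ
  obtain ⟨C1, hC1, hupm⟩ := VF.mUp VF.sharpZ
  obtain ⟨c3, hc3, hnum⟩ := num_low
  obtain ⟨c, j, s0, k0, hc, hcc, hj, hs, h3⟩ := l3T mlow_M hNT hη hL hC harc hA
  obtain ⟨Q, hQ, h4⟩ := l4X
  obtain ⟨E, hE⟩ : ∃ E : ℝ, E = C ^ 2 * c3 * c1 ^ (5 / 2 : ℝ) / (Q * (4 ^ s0 * 2 ^ (4 / 3 * (s0 : ℝ)) * C1)) := ⟨_, rfl⟩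
  have hE0 : 0 < E := by rw [hE]; positivity
  obtain ⟨b, hb⟩ : ∃ b : ℝ, b = 1 / 2 * (1 / (A * C1)) ^ (3 / 4 : ℝ) := ⟨_, rfl⟩
  have hA0 : 0 < A := by linarith
  have hb0 : 0 < b := by rw [hb]; positivity
  refine ⟨min E 1 * c ^ 4 / 16, b, max 1 (PW.mZ (2 ^ k0)), by positivity, ?_, hb0, le_max_left _ _, fun N u hev hN => ?_⟩
  · have q1 : c ^ 4 ≤ 1 := pow_le_one₀ hc.le hcc
    have q2 : min E 1 * c ^ 4 ≤ 1 := mul_le_one₀ (min_le_right _ _) (by positivity) q1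
    linarith
  obtain ⟨J, hJ⟩ : ∃ J : ℕ, J = 2 ^ u := ⟨_, rfl⟩
  have hJ1 : 1 ≤ J := by rw [hJ]; exact Nat.one_le_two_pow
  have hJR : (1 : ℝ) ≤ J := by exact_mod_cast hJ1
  have hJ0 : (0 : ℝ) < J := by linarith
  rw [← hJ] at hN ⊢
  have hx : PW.mZ (2 ^ k0) ≤ (N : ℝ) / J := by
    rw [le_div_iff₀ hJ0]
    exact (mul_le_mul_of_nonneg_right (le_max_right _ _) hJ0.le).trans hN
  have hNJ : (1 : ℝ) ≤ N := by
    have : 1 * (1 : ℝ) ≤ max 1 (PW.mZ (2 ^ k0)) * J := mul_le_mul (le_max_left _ _) hJR zero_le_one (by positivity)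
    linarith
  have hN1 : 1 ≤ N := by exact_mod_cast hNJ
  have hN0 : (0 : ℝ) < N := by linarith
  obtain ⟨k, hk, hk1, hk2⟩ := scale_R hc1 hlow hAm k0 _ hx
  rw [le_div_iff₀ hJ0] at hk1
  rw [div_le_iff₀ hJ0] at hk2
  have hk1' : ((2 ^ u : ℕ) : ℝ) * PW.mZ (2 ^ k) ≤ N := by rw [← hJ]; linarith
  have hk2' : (N : ℝ) ≤ A * (((2 ^ u : ℕ) : ℝ) * PW.mZ (2 ^ k)) := by rw [← hJ]; linarith
  obtain ⟨d, G, g1, g2⟩ := h3 k u N hk (Nat.even_iff.1 hev) hk1' hk2'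
  rw [← hJ] at g2
  have hmk : 0 < PW.mZ (2 ^ k) := mlow_M.pos k
  have hmN : PW.mZ (2 ^ k) ≤ N := by
    have : PW.mZ (2 ^ k) ≤ PW.mZ (2 ^ k) * J := le_mul_of_one_le_right hmk.le hJR
    linarith
  have hik : (2 : ℤ) ^ (k - j) ≤ 2 ^ k := pow_le_pow_right₀ (by norm_num) (Nat.sub_le k j)
  have hks : (2 : ℤ) ^ (k + 3) ≤ 2 ^ (k + (s0 + u)) := pow_le_pow_right₀ (by norm_num) (by omega)
  have hk8 : (2 : ℤ) ^ (k + 3) = 8 * 2 ^ k := by rw [pow_add]; ring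
  have hpk : (1 : ℤ) ≤ 2 ^ k := one_le_pow₀ (by norm_num)
  have h5 := h4 (c ^ J) (by positivity) (POL.AT (fun k => PW.mZ (2 ^ k)) (k - j) d (η / 320) L)
    (C * (2 : ℝ) ^ (-(((k - j : ℕ) : ℝ) / 4))) (k + (s0 + u)) N
    (3 * ((2 * 2 ^ (k - j) : ℕ) : ℤ) + 1) G (by positivity) (fun X hX => arkW (at_ark hX)) (by push_cast; linarith)
    (hup _ _ _ (by omega)) g1 g2
  have h6 := num5 hc1 hC1 hc3 (show 0 < (c ^ J) ^ 4 / Q by positivity) hC hlow hupm U2_pos hnum j (s0 + u) k N hmN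
  refine (ENNReal.ofReal_le_ofReal ?_).trans (h5.trans (gf_mono ?_))
  · refine le_trans ?_ h6
    have hp : (0 : ℝ) < (N : ℝ) ^ (-(3 / 2) : ℝ) := by positivity
    refine mul_le_mul_of_nonneg_right ?_ hp.le
    have e1 : (2 : ℝ) ^ (4 / 3 * ((s0 + u : ℕ) : ℝ)) = 2 ^ (4 / 3 * (s0 : ℝ)) * 2 ^ (4 / 3 * (u : ℝ)) := by
      rw [← Real.rpow_add (by norm_num)]
      congr 1
      push_cast
      ring
    have e2 : (4 : ℝ) ^ u * 2 ^ (4 / 3 * (u : ℝ)) ≤ 16 ^ J := by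
      have a1 : (2 : ℝ) ^ (4 / 3 * (u : ℝ)) ≤ 4 ^ u := by
        have : (4 : ℝ) ^ u = 2 ^ (2 * (u : ℝ)) := by
          rw [Real.rpow_mul (by norm_num), Real.rpow_natCast]
          norm_num
        rw [this]
        refine Real.rpow_le_rpow_of_exponent_le (by norm_num) ?_
        have : (0 : ℝ) ≤ u := Nat.cast_nonneg u
        linarith
      have a2 : (16 : ℝ) ^ u ≤ 16 ^ J := pow_le_pow_right₀ (by norm_num) (by rw [hJ]; exact Nat.lt_two_pow_self.le)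
      calc (4 : ℝ) ^ u * 2 ^ (4 / 3 * (u : ℝ)) ≤ 4 ^ u * 4 ^ u := by gcongr
        _ = 16 ^ u := by rw [← mul_pow]; norm_num
        _ ≤ _ := a2
    have e3 : (min E 1) ^ J ≤ E := by
      calc (min E 1) ^ J ≤ (min E 1) ^ 1 := pow_le_pow_of_le_one (by positivity) (min_le_right _ _) hJ1
        _ ≤ E := by rw [pow_one]; exact min_le_left _ _
    calc (min E 1 * c ^ 4 / 16) ^ J = (min E 1) ^ J * (c ^ J) ^ 4 / 16 ^ J := by
          rw [div_pow, mul_pow, ← pow_mul, ← pow_mul, mul_comm 4 J]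
      _ ≤ E * (c ^ J) ^ 4 / (4 ^ u * 2 ^ (4 / 3 * (u : ℝ))) := by gcongr
      _ = _ := by
          rw [hE, e1, pow_add]
          field_simp
  · rintro t ⟨ht, c0, Z', X, D, Y, Z, hG, he⟩
    obtain ⟨⟨⟨hZ, -⟩, -⟩, -⟩ := g1 _ _ _ _ _ hG
    obtain ⟨i, hi, h7⟩ := ext_cls ht hN1 he hZ
    refine ⟨by rw [← Cy_eq]; exact ht, i, hi, le_trans ?_ h7⟩
    have e1 : ((4 : ℝ)) ^ (k + (s0 + u)) = (2 ^ (k + (s0 + u))) ^ 2 := by
      rw [← pow_mul, mul_comm _ 2, pow_mul]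
      norm_num
    have e2 : ((J : ℝ)) ^ (1 / 4 : ℝ) * (N : ℝ) ^ (3 / 4 : ℝ) * (1 / (A * C1)) ^ (3 / 4 : ℝ) ≤ 2 ^ (k + (s0 + u)) := by
      have a1 : (N : ℝ) ≤ A * C1 * J * 2 ^ (4 / 3 * (k : ℝ)) := by
        calc (N : ℝ) ≤ A * PW.mZ (2 ^ k) * J := hk2
          _ ≤ A * (C1 * 2 ^ (4 / 3 * (k : ℝ))) * J := by
              gcongr
              exact hupm k
          _ = _ := by ring
      have a2 : (N : ℝ) ^ (3 / 4 : ℝ) ≤ (A * C1) ^ (3 / 4 : ℝ) * (J : ℝ) ^ (3 / 4 : ℝ) * 2 ^ k := by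
        calc (N : ℝ) ^ (3 / 4 : ℝ) ≤ (A * C1 * J * 2 ^ (4 / 3 * (k : ℝ))) ^ (3 / 4 : ℝ) :=
              Real.rpow_le_rpow hN0.le a1 (by norm_num)
          _ = _ := by
              rw [Real.mul_rpow (by positivity) (by positivity), Real.mul_rpow (by positivity) (by positivity),
                ← Real.rpow_mul (by norm_num)]
              congr 1
              rw [← Real.rpow_natCast (2 : ℝ) k]
              congr 1
              ring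
      have a3 : (J : ℝ) ^ (1 / 4 : ℝ) * (J : ℝ) ^ (3 / 4 : ℝ) = J := by
        rw [← Real.rpow_add hJ0]
        norm_num
      have a4 : (A * C1) ^ (3 / 4 : ℝ) * (1 / (A * C1)) ^ (3 / 4 : ℝ) = 1 := by
        rw [← Real.mul_rpow (by positivity) (by positivity)]
        have : A * C1 * (1 / (A * C1)) = 1 := by field_simp
        rw [this, Real.one_rpow]
      calc (J : ℝ) ^ (1 / 4 : ℝ) * (N : ℝ) ^ (3 / 4 : ℝ) * (1 / (A * C1)) ^ (3 / 4 : ℝ)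
          ≤ (J : ℝ) ^ (1 / 4 : ℝ) * ((A * C1) ^ (3 / 4 : ℝ) * (J : ℝ) ^ (3 / 4 : ℝ) * 2 ^ k) *
              (1 / (A * C1)) ^ (3 / 4 : ℝ) := by gcongr
        _ = ((J : ℝ) ^ (1 / 4 : ℝ) * (J : ℝ) ^ (3 / 4 : ℝ)) * ((A * C1) ^ (3 / 4 : ℝ) * (1 / (A * C1)) ^ (3 / 4 : ℝ)) *
              2 ^ k := by ring
        _ = J * 2 ^ k := by rw [a3, a4, mul_one]
        _ ≤ 2 ^ (k + (s0 + u)) := by
            rw [hJ]
            push_cast
            rw [← pow_add]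
            exact pow_le_pow_right₀ (by norm_num) (by omega)
    have e3 : b * (J : ℝ) ^ (1 / 4 : ℝ) * (N : ℝ) ^ (3 / 4 : ℝ) ≤ 1 / 2 * 2 ^ (k + (s0 + u)) := by
      rw [hb]
      calc 1 / 2 * (1 / (A * C1)) ^ (3 / 4 : ℝ) * (J : ℝ) ^ (1 / 4 : ℝ) * (N : ℝ) ^ (3 / 4 : ℝ)
          = 1 / 2 * ((J : ℝ) ^ (1 / 4 : ℝ) * (N : ℝ) ^ (3 / 4 : ℝ) * (1 / (A * C1)) ^ (3 / 4 : ℝ)) := by ring
        _ ≤ _ := by gcongr
    rw [e1]
    calc (b * (J : ℝ) ^ (1 / 4 : ℝ) * (N : ℝ) ^ (3 / 4 : ℝ)) ^ 2 ≤ (1 / 2 * 2 ^ (k + (s0 + u))) ^ 2 :=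
          pow_le_pow_left₀ (by positivity) e3 2
      _ ≤ 1 / 2 * (2 ^ (k + (s0 + u))) ^ 2 := by
          rw [mul_pow]
          gcongr
          norm_num

/-- the polygons with a large distance from the start, from below -/
lemma farB_low {f : ℕ → Fin 3 → ℂ} (hf : MS.Hex f) {n : ℕ} (hn : 3 ≤ n) (ho : ¬ Even n) {θ B : ℝ} (hθ : 0 ≤ θ)
    (h : ENNReal.ofReal B ≤ gf (Fr (n + 1) θ)) :
    3 * POLP.mu ^ (n + 1) * B ≤ (((PGX.Pol f n).filter fun s => ∃ j, j ≤ n ∧ θ ≤ ‖MS.pw f s j‖).card : ℝ) := by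
  classical
  have hx := xc_pos
  obtain ⟨G, hG⟩ : ∃ G : List Bool → ℝ, G = fun t => if ∃ j, j ≤ n ∧
    θ ^ 2 ≤ ((nrm (vx oo up t j - vx oo up t 0) : ℤ) : ℝ) then 1 else 0 := ⟨_, rfl⟩
  have hG0 : ∀ t, 0 ≤ G t := fun t => by
    rw [hG]
    dsimp only
    split_ifs <;> norm_num
  have h0 : ∀ s : Fin n → Fin 3, MS.pw f s 0 = 0 := by
    intro s
    unfold MS.pw
    rw [Finset.filter_false_of_mem (fun i _ => Nat.not_lt_zero _), Finset.sum_empty]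
  have h1 : ∑ s ∈ PGX.Pol f n, (if ∃ j, j ≤ n ∧ θ ≤ ‖MS.pw f s j‖ then (1 : ℝ) else 0) =
      3 * ∑ t ∈ (POLP.PCy_fin (n + 1)).toFinset, G t := by
    refine POLP.sum_Pol hf hn ho _ _ fun s hs => ?_
    rw [hG]
    dsimp only
    have hs' := (Finset.mem_filter.1 hs).1
    congr 1
    rw [eq_iff_iff]
    constructor
    · rintro ⟨j, hj, h2⟩
      refine ⟨j, hj, ?_⟩
      rw [← POLP.dist_cw hf (by omega) hs' hj (Nat.zero_le _), h0, sub_zero]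
      exact pow_le_pow_left₀ hθ h2 2
    · rintro ⟨j, hj, h2⟩
      refine ⟨j, hj, ?_⟩
      rw [← POLP.dist_cw hf (by omega) hs' hj (Nat.zero_le _), h0, sub_zero] at h2
      exact le_of_sq_le_sq h2 (norm_nonneg _)
  have h2 : (((PGX.Pol f n).filter fun s => ∃ j, j ≤ n ∧ θ ≤ ‖MS.pw f s j‖).card : ℝ) =
      3 * ∑ t ∈ (POLP.PCy_fin (n + 1)).toFinset, G t := by
    rw [← h1, Finset.sum_ite, Finset.sum_const_zero, add_zero, Finset.sum_const, nsmul_eq_mul, mul_one]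
  have h3 := POLP.tsum_PCy (n + 1) G fun t _ => hG0 t
  have hv0 : ∀ t : List Bool, vx oo up t 0 = 0 := fun t => rfl
  have h4 : gf (Fr (n + 1) θ) ≤ ∑' t : POLP.PCy (n + 1), wE (t : List Bool) * ENNReal.ofReal (G t) := by
    unfold gf
    rw [tsum_subtype (POLP.PCy (n + 1)) fun t => wE t * ENNReal.ofReal (G t), tsum_subtype (Fr (n + 1) θ) wE]
    refine ENNReal.tsum_le_tsum fun t => ?_
    by_cases ht : t ∈ Fr (n + 1) θ
    · obtain ⟨ht1, j, hj, h5⟩ := ht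
      have ht2 : t ∈ Fr (n + 1) θ := ⟨ht1, j, hj, h5⟩
      have hj' : ∃ j, j ≤ n ∧ θ ^ 2 ≤ ((nrm (vx oo up t j - vx oo up t 0) : ℤ) : ℝ) :=
        ⟨j, by omega, by rwa [hv0, sub_zero]⟩
      rw [Set.indicator_of_mem ht2, Set.indicator_of_mem ht1, hG]
      dsimp only
      rw [if_pos hj', ENNReal.ofReal_one, mul_one]
    · rw [Set.indicator_of_notMem ht]
      exact zero_le
  have hGs : 0 ≤ xc ^ (n + 1) * ∑ t ∈ (POLP.PCy_fin (n + 1)).toFinset, G t :=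
    mul_nonneg (by positivity) (Finset.sum_nonneg fun t _ => hG0 t)
  have h5 := h.trans h4
  rw [h3, ENNReal.ofReal_le_ofReal_iff hGs] at h5
  rw [h2]
  have e : ∑ t ∈ (POLP.PCy_fin (n + 1)).toFinset, G t =
      (xc ^ (n + 1) * ∑ t ∈ (POLP.PCy_fin (n + 1)).toFinset, G t) * POLP.mu ^ (n + 1) := by
    have := POLP.xc_mul_mu (n + 1)
    linear_combination (-(∑ t ∈ (POLP.PCy_fin (n + 1)).toFinset, G t)) * this
  have hm := POLP.mu_pos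
  rw [e]
  calc 3 * POLP.mu ^ (n + 1) * B
      ≤ 3 * POLP.mu ^ (n + 1) * (xc ^ (n + 1) * ∑ t ∈ (POLP.PCy_fin (n + 1)).toFinset, G t) :=
        mul_le_mul_of_nonneg_left h5 (by positivity)
    _ = _ := by ring

end PGS

end HexObs
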