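import Pool.Agent.PGS.LitB
import Pool.Agent.JNT.NarM
import Pool.Agent.TIP.FP
import Pool.Agent.TIP.Free
import Pool.Agent.POL.TallD
import Pool.Agent.POL.L3Sum

/-!
PGS / LowT (helper39): the local lower bound for narrow bridges of the height J 2 ^ k with J m k letters: first good cuts.
-/

set_option autoImplicit false

namespace HexObs

namespace PGS

open Finset TS SDN NTW NTA JNT RP POL

open scoped ENNReal

/-- heights up to 16 H -/
lemma lowW {m : ℕ → ℝ} (hm : MLow m) (hL : LowNar m) {w a A : ℝ} (hw : 0 < w) (ha : 0 < a) (hA : a ≤ A) :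
    ∃ H0 : ℕ, 1 ≤ H0 ∧ ∀ H : ℕ, H0 ≤ H → ∃ (c : ℝ) (k0 : ℕ), 0 < c ∧
      ∀ (k h b : ℕ) (x : ℤ), k0 ≤ k → H * 2 ^ k ≤ h → h ≤ 16 * (H * 2 ^ k) → Even (x - h) → |(x : ℝ)| ≤ w * 2 ^ k →
        Even b → a * m k ≤ b → (b : ℝ) ≤ A * m k → ENNReal.ofReal (c * (Ub k / (4 ^ k * m k))) ≤
          gf {Z | Z ∈ EndB h x ∧ Z.length = b ∧ ∀ i, i ≤ Z.length → |(lat Z i : ℝ)| ≤ 20 * w * 2 ^ k} := by
  obtain ⟨H0, h0⟩ := hL w a A hw ha hA
  refine ⟨max H0 1, le_max_right _ _, fun H hH => ?_⟩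
  have hH0 : H0 ≤ H := (le_max_left _ _).trans hH
  obtain ⟨c1, k1, hc1, h1⟩ := h0 H hH0
  obtain ⟨c2, k2, hc2, h2⟩ := h0 (2 * H) (by omega)
  obtain ⟨c3, k3, hc3, h3⟩ := h0 (4 * H) (by omega)
  obtain ⟨c4, k4, hc4, h4⟩ := h0 (8 * H) (by omega)
  obtain ⟨c, hc⟩ : ∃ c : ℝ, c = min (min c1 c2) (min c3 c4) := ⟨_, rfl⟩
  have e1 : c ≤ c1 := by rw [hc]; exact (min_le_left _ _).trans (min_le_left _ _)
  have e2 : c ≤ c2 := by rw [hc]; exact (min_le_left _ _).trans (min_le_right _ _)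
  have e3 : c ≤ c3 := by rw [hc]; exact (min_le_right _ _).trans (min_le_left _ _)
  have e4 : c ≤ c4 := by rw [hc]; exact (min_le_right _ _).trans (min_le_right _ _)
  refine ⟨c, k1 + k2 + k3 + k4, by rw [hc]; exact lt_min (lt_min hc1 hc2) (lt_min hc3 hc4),
    fun k h b x hk g1 g2 g3 g4 g5 g6 g7 => ?_⟩
  have hmk := hm.pos k
  have hU := Ub_pos k
  have hq : 0 ≤ Ub k / (4 ^ k * m k) := by positivity
  have t2 : 2 * H * 2 ^ k = 2 * (H * 2 ^ k) := by ring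
  have t3 : 4 * H * 2 ^ k = 4 * (H * 2 ^ k) := by ring
  have t4 : 8 * H * 2 ^ k = 8 * (H * 2 ^ k) := by ring
  rcases Nat.lt_or_ge (2 * (H * 2 ^ k)) h with r1 | r1
  · rcases Nat.lt_or_ge (4 * (H * 2 ^ k)) h with r2 | r2
    · rcases Nat.lt_or_ge (8 * (H * 2 ^ k)) h with r3 | r3
      · exact (ENNReal.ofReal_le_ofReal (mul_le_mul_of_nonneg_right e4 hq)).trans
          (h4 k h b x (by omega) (by omega) (by omega) g3 g4 g5 g6 g7)
      · exact (ENNReal.ofReal_le_ofReal (mul_le_mul_of_nonneg_right e3 hq)).trans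
          (h3 k h b x (by omega) (by omega) (by omega) g3 g4 g5 g6 g7)
    · exact (ENNReal.ofReal_le_ofReal (mul_le_mul_of_nonneg_right e2 hq)).trans
        (h2 k h b x (by omega) (by omega) (by omega) g3 g4 g5 g6 g7)
  · exact (ENNReal.ofReal_le_ofReal (mul_le_mul_of_nonneg_right e1 hq)).trans
      (h1 k h b x (by omega) g1 r1 g3 g4 g5 g6 g7)

open scoped Classical in
/-- many disjoint classes -/
lemma gf_many {ι : Type} (T : Finset ι) (S : ι → Set (List Bool)) {P : Set (List Bool)} (hsub : ∀ t ∈ T, S t ⊆ P)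
    (hdis : ∀ t ∈ T, ∀ t' ∈ T, ∀ Z, Z ∈ S t → Z ∈ S t' → t = t') {q : ℝ≥0∞} (hq : ∀ t ∈ T, q ≤ gf (S t)) :
    (T.card : ℝ≥0∞) * q ≤ gf P := by
  have h1 : (T.card : ℝ≥0∞) * q ≤ ∑ t ∈ T, gf (S t) := by
    rw [← nsmul_eq_mul]
    exact Finset.card_nsmul_le_sum _ _ _ hq
  refine h1.trans ?_
  have h2 : ∑ t ∈ T, gf (S t) = ∑' Z : List Bool, ∑ t ∈ T, (if Z ∈ S t then wE Z else 0) := by
    rw [Summable.tsum_finsetSum fun _ _ => ENNReal.summable]
    exact Finset.sum_congr rfl fun t _ => gfi (S t)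
  rw [h2, gfi P]
  refine ENNReal.tsum_le_tsum fun Z => ?_
  by_cases hZ : ∃ t ∈ T, Z ∈ S t
  · obtain ⟨t, ht, hZt⟩ := hZ
    rw [Finset.sum_eq_single_of_mem t ht, if_pos hZt, if_pos (hsub t ht hZt)]
    intro t' ht' hne
    rw [if_neg]
    intro hc
    exact hne (hdis t' ht' t ht Z hc hZt)
  · rw [Finset.sum_eq_zero]
    · exact zero_le
    · intro t ht
      rw [if_neg]
      intro hc
      exact hZ ⟨t, ht, hc⟩

/-- the sum over the heights, the ends and the numbers of letters -/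
lemma gd_low {w : ℝ} {k lo b0 n1 n2 n3 : ℕ} {y0 : ℤ} {P : Set (List Bool)} {q : ℝ≥0∞}
    (hq : ∀ i < n1, ∀ j < n2, ∀ l < n3, q ≤ gf {Z | Z ∈ EndB (lo + i) (2 * (y0 + j) + (((lo + i) % 2 : ℕ) : ℤ)) ∧
      Z.length = 2 * (b0 + l) ∧ ∀ i, i ≤ Z.length → |(lat Z i : ℝ)| ≤ 20 * w * 2 ^ k})
    (hP : ∀ i < n1, ∀ j < n2, ∀ l < n3, ∀ Z, Z ∈ EndB (lo + i) (2 * (y0 + j) + (((lo + i) % 2 : ℕ) : ℤ)) →
      Z.length = 2 * (b0 + l) → (∀ i, i ≤ Z.length → |(lat Z i : ℝ)| ≤ 20 * w * 2 ^ k) → Z ∈ P) :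
    ((n1 * n2 * n3 : ℕ) : ℝ≥0∞) * q ≤ gf P := by
  have h1 := gf_many (range n1 ×ˢ (range n2 ×ˢ range n3)) (fun t : ℕ × (ℕ × ℕ) =>
    {Z | Z ∈ EndB (lo + t.1) (2 * (y0 + t.2.1) + (((lo + t.1) % 2 : ℕ) : ℤ)) ∧
      Z.length = 2 * (b0 + t.2.2) ∧ ∀ i, i ≤ Z.length → |(lat Z i : ℝ)| ≤ 20 * w * 2 ^ k}) (P := P) (q := q) ?_ ?_ ?_
  · rw [Finset.card_product, Finset.card_product, Finset.card_range, Finset.card_range, Finset.card_range, ← mul_assoc] at h1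
    exact h1
  · rintro ⟨i, j, l⟩ ht Z ⟨z1, z2, z3⟩
    rw [Finset.mem_product, Finset.mem_product, Finset.mem_range, Finset.mem_range, Finset.mem_range] at ht
    exact hP i ht.1 j ht.2.1 l ht.2.2 Z z1 z2 z3
  · rintro ⟨i, j, l⟩ - ⟨i', j', l'⟩ - Z ⟨⟨z0, z1⟩, z2, -⟩ ⟨⟨y0', y1⟩, y2, -⟩
    simp only at z0 z1 z2 y0' y1 y2
    have e1 : lo + i = lo + i' := by rw [← hgt_eq z0, ← hgt_eq y0']
    have e2 : i = i' := by omega
    subst e2
    rw [z1] at y1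
    have e3 : j = j' := by omega
    have e4 : l = l' := by omega
    rw [e3, e4]
  · rintro ⟨i, j, l⟩ ht
    rw [Finset.mem_product, Finset.mem_product, Finset.mem_range, Finset.mem_range, Finset.mem_range] at ht
    exact hq i ht.1 j ht.2.1 l ht.2.2

/-- the class, the positions seen from the end -/
def ClT (w : ℝ) (k h b : ℕ) (x : ℤ) : Set (List Bool) :=
  {Z | Z ∈ EndB h x ∧ Z.length = b ∧ ∀ i, i ≤ Z.length → |(lat Z i : ℝ) - x| ≤ 21 * w * 2 ^ k}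

/-- **one block** -/
lemma peel {w : ℝ} {k R h b : ℕ} {x : ℤ} {S : Set (List Bool)} {q v : ℝ} (hq : 0 ≤ q) (hSB : S ⊆ BU)
    (hR : ∀ X ∈ S, hgt X ≤ R) (hmass : ENNReal.ofReal (q * UU R) ≤ gf S) (hx : |(x : ℝ)| ≤ w * 2 ^ k)
    (hS : ∀ X ∈ S, hgt X ≤ h ∧ X.length ≤ b ∧ (∀ i, i ≤ X.length → |(lat X i : ℝ)| ≤ 20 * w * 2 ^ k) ∧
      ENNReal.ofReal v ≤ gf (ClT w k (h - hgt X) (b - X.length) (x - latE X))) :
    ENNReal.ofReal (q * v) ≤ gf (ClT w k h b x) := by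
  have h1 := TIP.FreeA.mi_ge TIP.miMass hSB hR hq hmass
  have h2 := TIP.acMul (TIP.Mi S) (fun X => ClT w k (h - hgt X) (b - X.length) (x - latE X)) (ENNReal.ofReal v)
    (fun X hX => hSB hX.1) (TIP.acMi S) (fun X _ Y hY => ⟨_, hY.1.1⟩) (fun X hX => (hS X hX.1).2.2.2)
  rw [ENNReal.ofReal_mul hq]
  refine (mul_le_mul' h1 le_rfl).trans (h2.trans (gf_mono ?_))
  rintro W ⟨X, hX, Y, ⟨⟨y1, y2⟩, y3, y4⟩, rfl⟩
  obtain ⟨s1, s2, s3, -⟩ := hS X hX.1
  have hXB := hSB hX.1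
  have hXb := BUb hXB
  have hX3 := (mem_Brd.1 hXb).2.2.1
  refine ⟨⟨?_, ?_⟩, ?_, fun i hi => ?_⟩
  · have := Brd_append hXb y1
    rwa [show hgt X + (h - hgt X) = h by omega] at this
  · rw [latE_cat hX3, y2]
    ring
  · rw [List.length_append, y3]
    omega
  · rw [List.length_append] at hi
    rcases Nat.lt_or_ge X.length i with hi2 | hi2
    · obtain ⟨i', rfl⟩ : ∃ i', i = X.length + i' := ⟨i - X.length, by omega⟩
      rw [lat_cat hX3]
      have e1 := y4 i' (by omega)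
      push_cast at e1 ⊢
      have e2 : (latE X : ℝ) + (lat Y i' : ℝ) - x = lat Y i' - (x - latE X) := by ring
      rw [e2]
      exact e1
    · rw [lat_append (by omega)]
      have e1 := s3 i hi2
      rw [abs_le] at e1 hx ⊢
      constructor <;> nlinarith [e1.1, e1.2, hx.1, hx.2]

/-- a scale at which a quantity that grows is large -/
lemma m_big {m : ℕ → ℝ} (hm : MLow m) (B : ℝ) : ∃ k0 : ℕ, ∀ k, k0 ≤ k → B ≤ m k := by
  have h0 := hm.pos 0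
  obtain ⟨k0, hk0⟩ := pow_unbounded_of_one_lt (B / m 0) (one_lt_two (α := ℝ))
  refine ⟨k0, fun k hk => ?_⟩
  have h1 := hm.low 0 k
  rw [zero_add] at h1
  have h2 : (2 : ℝ) ^ k0 ≤ (2 : ℝ) ^ (5 / 4 * (k : ℝ)) := by
    rw [← Real.rpow_natCast]
    refine Real.rpow_le_rpow_of_exponent_le (by norm_num) ?_
    have : (k0 : ℝ) ≤ k := by exact_mod_cast hk
    have h3 : (0 : ℝ) ≤ k := Nat.cast_nonneg k
    linarith
  rw [div_lt_iff₀ h0] at hk0
  nlinarith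

/-- **narrow bridges of the height J 2 ^ k with J m k letters** -/
theorem lowT {m : ℕ → ℝ} (hm : MLow m) (hL : LowNar m) : LowNarT m := by
  intro w a A hw ha hA
  obtain ⟨H0, hH0, h0⟩ := lowW hm hL hw (half_pos ha) (show a / 2 ≤ 2 * A by linarith)
  refine ⟨4 * H0 + 12, fun H hH => ?_⟩
  obtain ⟨c0, k0, hc0, hc⟩ := h0 (H / 4) (by omega)
  obtain ⟨s, hs⟩ : ∃ s : ℕ, 3 * H ≤ 2 ^ s := ⟨3 * H, Nat.lt_two_pow_self.le⟩
  obtain ⟨k1, hk1⟩ := pow_unbounded_of_one_lt (8 / w) (one_lt_two (α := ℝ))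
  obtain ⟨k2, hk2⟩ := m_big hm (16 / a)
  obtain ⟨q, hq⟩ : ∃ q : ℝ, q = c0 * w * a / (128 * 2 ^ s) := ⟨_, rfl⟩
  have hq0 : 0 < q := by rw [hq]; positivity
  obtain ⟨c, hcd⟩ : ∃ c : ℝ, c = min (min c0 q) 1 := ⟨_, rfl⟩
  have hcp : 0 < c := by rw [hcd]; exact lt_min (lt_min hc0 hq0) one_pos
  have hc1 : c ≤ 1 := by rw [hcd]; exact min_le_right _ _
  have hcc0 : c ≤ c0 := by rw [hcd]; exact (min_le_left _ _).trans (min_le_left _ _)
  have hcq : c ≤ q := by rw [hcd]; exact (min_le_left _ _).trans (min_le_right _ _)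
  refine ⟨c, k0 + k1 + k2, hcp, hc1, ?_⟩
  suffices hmain : ∀ (k : ℕ), k0 + k1 + k2 ≤ k → ∀ (J : ℕ), 1 ≤ J → ∀ (h b : ℕ) (x : ℤ), J * (H * 2 ^ k) ≤ h →
      h ≤ 2 * (J * (H * 2 ^ k)) → Even (x - h) → |(x : ℝ)| ≤ w * 2 ^ k → Even b → J * (a * m k) ≤ b →
      (b : ℝ) ≤ J * (A * m k) → ENNReal.ofReal (c ^ J * (Ub k / (4 ^ k * m k))) ≤ gf (ClT w k h b x) by
    intro k J h b x g0 g1 g2 g3 g4 g5 g6 g7 g8
    refine (hmain k g0 J g1 h b x g2 g3 g4 g5 g6 g7 g8).trans (gf_mono ?_)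
    rintro Z ⟨z1, z2, z3⟩
    refine ⟨z1, z2, fun i hi => ?_⟩
    have e1 := z3 i hi
    have hp : 0 < w * 2 ^ k := by positivity
    rw [abs_le] at e1 g5 ⊢
    constructor <;> nlinarith [e1.1, e1.2, g5.1, g5.2]
  intro k hk
  have hmk := hm.pos k
  have hU := Ub_pos k
  obtain ⟨V, hV⟩ : ∃ V : ℝ, V = Ub k / (4 ^ k * m k) := ⟨_, rfl⟩
  have hV0 : 0 < V := by rw [hV]; positivity
  rw [← hV]
  obtain ⟨p, hp⟩ : ∃ p : ℕ, p = 2 ^ k := ⟨_, rfl⟩
  have hp1 : 1 ≤ p := by rw [hp]; exact Nat.one_le_two_pow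
  obtain ⟨n, hn⟩ : ∃ n : ℕ, n = H * 2 ^ k := ⟨_, rfl⟩
  obtain ⟨t, ht⟩ : ∃ t : ℕ, t = H / 4 * 2 ^ k := ⟨_, rfl⟩
  have hn12 : 12 * p ≤ n := by rw [hn, hp]; exact Nat.mul_le_mul_right _ (by omega)
  have ht1 : 4 * t ≤ n := by
    rw [hn, ht, ← mul_assoc]
    exact Nat.mul_le_mul_right _ (by omega)
  have ht2 : n ≤ 4 * t + 3 * p := by
    have : H ≤ 4 * (H / 4) + 3 := by omega
    calc n = H * 2 ^ k := hn
      _ ≤ (4 * (H / 4) + 3) * 2 ^ k := Nat.mul_le_mul_right _ this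
      _ = _ := by rw [ht, hp]; ring
  have hpR : (p : ℝ) = 2 ^ k := by rw [hp]; push_cast; ring
  have hw8 : 8 ≤ w * 2 ^ k := by
    have h1 : (2 : ℝ) ^ k1 ≤ 2 ^ k := pow_le_pow_right₀ (by norm_num) (by omega)
    rw [div_lt_iff₀ hw] at hk1
    nlinarith
  have ha16 : 16 ≤ a * m k := by
    have h1 := hk2 k (by omega)
    rw [div_le_iff₀ ha] at h1
    linarith
  intro J hJ
  induction J, hJ using Nat.le_induction with
  | base =>
    intro h b x g1 g2 g3 g4 g5 g6 g7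
    rw [← hn] at g1 g2
    push_cast at g6 g7
    refine (ENNReal.ofReal_le_ofReal ?_).trans ((hc k h b x (by omega) (by rw [← ht]; omega) (by rw [← ht]; omega) g3 g4 g5
      (by nlinarith) (by nlinarith)).trans (gf_mono ?_))
    · rw [← hV, pow_one]
      gcongr
    · rintro Z ⟨z1, z2, z3⟩
      refine ⟨z1, z2, fun i hi => ?_⟩
      have e1 := z3 i hi
      rw [abs_le] at e1 g4 ⊢
      constructor <;> nlinarith [e1.1, e1.2, g4.1, g4.2]
  | succ J hJ ih =>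
    intro h b x g1 g2 g3 g4 g5 g6 g7
    obtain ⟨r, hr⟩ : ∃ r : ℕ, r = J * n := ⟨_, rfl⟩
    have hrn : n ≤ r := by rw [hr]; exact Nat.le_mul_of_pos_left _ hJ
    rw [← hn] at g1 g2 ih
    rw [← hr] at ih
    have hJ1 : (J + 1) * n = r + n := by rw [hr]; ring
    rw [hJ1] at g1 g2
    have hJR : (1 : ℝ) ≤ J := by exact_mod_cast hJ
    -- the heights
    obtain ⟨lo, hlo⟩ : ∃ lo : ℕ, lo = max (h - 2 * r) (n / 2) := ⟨_, rfl⟩
    -- the letters
    obtain ⟨lb, hlb⟩ : ∃ lb : ℝ, lb = max (b - J * (A * m k)) (a / 2 * m k) := ⟨_, rfl⟩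
    obtain ⟨b0, hb0⟩ : ∃ b0 : ℕ, b0 = ⌈lb / 2⌉₊ := ⟨_, rfl⟩
    obtain ⟨n3, hn3⟩ : ∃ n3 : ℕ, n3 = ⌊a * m k / 8⌋₊ := ⟨_, rfl⟩
    obtain ⟨n2, hn2⟩ : ∃ n2 : ℕ, n2 = ⌊w * 2 ^ k / 4⌋₊ := ⟨_, rfl⟩
    obtain ⟨y0, hy0⟩ : ∃ y0 : ℤ, y0 = if 0 ≤ x then 0 else -(n2 : ℤ) := ⟨_, rfl⟩
    have hlb0 : a / 2 * m k ≤ lb := by rw [hlb]; exact le_max_right _ _
    have hlb1 : b - J * (A * m k) ≤ lb := by rw [hlb]; exact le_max_left _ _
    have hlbp : 0 < lb := lt_of_lt_of_le (by positivity) hlb0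
    have b01 : lb / 2 ≤ b0 := by rw [hb0]; exact Nat.le_ceil _
    have b02 : (b0 : ℝ) < lb / 2 + 1 := by rw [hb0]; exact Nat.ceil_lt_add_one (by positivity)
    have n31 : (n3 : ℝ) ≤ a * m k / 8 := by rw [hn3]; exact Nat.floor_le (by positivity)
    have n32 : a * m k / 16 ≤ n3 := by
      have h1 := Nat.lt_floor_add_one (a * m k / 8)
      rw [← hn3] at h1
      linarith
    have n21 : (n2 : ℝ) ≤ w * 2 ^ k / 4 := by rw [hn2]; exact Nat.floor_le (by positivity)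
    have n22 : w * 2 ^ k / 8 ≤ n2 := by
      have h1 := Nat.lt_floor_add_one (w * 2 ^ k / 4)
      rw [← hn2] at h1
      linarith
    push_cast at g6 g7
    -- the facts about the parameters
    have fh : ∀ i < p, t ≤ lo + i ∧ lo + i ≤ 16 * t ∧ lo + i ≤ 3 * n ∧ lo + i ≤ h ∧ r ≤ h - (lo + i) ∧
        h - (lo + i) ≤ 2 * r := by
      intro i hi
      rw [hlo]
      rcases max_cases (h - 2 * r) (n / 2) with hmx | hmx
      · rw [hmx.1]
        omega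
      · rw [hmx.1]
        omega
    have fb : ∀ l < n3, a / 2 * m k ≤ ((2 * (b0 + l) : ℕ) : ℝ) ∧ ((2 * (b0 + l) : ℕ) : ℝ) ≤ 2 * A * m k ∧
        2 * (b0 + l) ≤ b ∧ J * (a * m k) ≤ ((b - 2 * (b0 + l) : ℕ) : ℝ) ∧
        ((b - 2 * (b0 + l) : ℕ) : ℝ) ≤ J * (A * m k) := by
      intro l hl
      have hl1 : ((l + 1 : ℕ) : ℝ) ≤ n3 := by exact_mod_cast hl
      have hl0 : (0 : ℝ) ≤ l := Nat.cast_nonneg l
      push_cast at hl1
      have e1 : lb ≤ ((2 * (b0 + l) : ℕ) : ℝ) := by push_cast; linarith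
      have e2 : ((2 * (b0 + l) : ℕ) : ℝ) ≤ lb + a * m k / 4 := by push_cast; linarith
      have haA : a * m k * 2 ≤ A * m k := by nlinarith
      have hJa : J * (a * m k) + (3 / 4) * (a * m k) ≤ b := by nlinarith
      have e3 : lb + a * m k / 4 ≤ b - J * (a * m k) := by
        rw [hlb]
        rcases max_cases (b - J * (A * m k)) (a / 2 * m k) with hmx | hmx
        · rw [hmx.1]
          nlinarith
        · rw [hmx.1]
          linarith
      have e4 : lb ≤ A * m k := by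
        rw [hlb]
        refine max_le ?_ ?_
        · linarith
        · nlinarith
      have e5 : 2 * (b0 + l) ≤ b := by
        have : ((2 * (b0 + l) : ℕ) : ℝ) ≤ b := by
          have : 0 ≤ J * (a * m k) := by positivity
          linarith
        exact_mod_cast this
      refine ⟨by linarith, by nlinarith, e5, ?_, ?_⟩
      · rw [Nat.cast_sub e5]
        linarith
      · rw [Nat.cast_sub e5]
        linarith
    have fx : ∀ i < p, ∀ j < n2, |((2 * (y0 + j) + (((lo + i) % 2 : ℕ) : ℤ) : ℤ) : ℝ)| ≤ w * 2 ^ k ∧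
        |((x - (2 * (y0 + j) + (((lo + i) % 2 : ℕ) : ℤ)) : ℤ) : ℝ)| ≤ w * 2 ^ k := by
      intro i _ j hj
      have hj1 : ((j + 1 : ℕ) : ℝ) ≤ n2 := by exact_mod_cast hj
      have hj0 : (0 : ℝ) ≤ j := Nat.cast_nonneg j
      push_cast at hj1
      have hpar : (((lo + i) % 2 : ℕ) : ℝ) ≤ 1 := by
        have : (lo + i) % 2 ≤ 1 := by omega
        exact_mod_cast this
      have hpar0 : (0 : ℝ) ≤ (((lo + i) % 2 : ℕ) : ℝ) := Nat.cast_nonneg _
      obtain ⟨ε, hε⟩ : ∃ ε : ℝ, ε = (((lo + i) % 2 : ℕ) : ℝ) := ⟨_, rfl⟩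
      rw [← hε] at hpar hpar0
      have ecast : ((2 * (y0 + j) + (((lo + i) % 2 : ℕ) : ℤ) : ℤ) : ℝ) = 2 * ((y0 : ℝ) + j) + ε := by
        rw [hε, Int.cast_add, Int.cast_mul, Int.cast_add, Int.cast_natCast, Int.cast_natCast, Int.cast_ofNat]
      have ecast2 : ((x - (2 * (y0 + j) + (((lo + i) % 2 : ℕ) : ℤ)) : ℤ) : ℝ) = x - (2 * ((y0 : ℝ) + j) + ε) := by
        rw [← ecast, Int.cast_sub]
      rw [ecast, ecast2]
      rw [abs_le] at g4
      by_cases hx0 : 0 ≤ x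
      · rw [if_pos hx0] at hy0
        have hy : (y0 : ℝ) = 0 := by rw [hy0]; norm_num
        have hxR : (0 : ℝ) ≤ x := by exact_mod_cast hx0
        rw [hy, abs_le, abs_le]
        refine ⟨⟨by linarith, by linarith⟩, ⟨by linarith, by linarith⟩⟩
      · rw [if_neg hx0] at hy0
        have hy : (y0 : ℝ) = -n2 := by rw [hy0]; push_cast; ring
        have hxR : (x : ℝ) ≤ 0 := by exact_mod_cast (not_le.1 hx0).le
        rw [hy, abs_le, abs_le]
        refine ⟨⟨by linarith, by linarith⟩, ⟨by linarith, by linarith⟩⟩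
    obtain ⟨S, hS⟩ : ∃ S : Set (List Bool), S = {X | X ∈ BU ∧ hgt X ≤ 3 * n ∧ hgt X ≤ h ∧ X.length ≤ b ∧
      (∀ i, i ≤ X.length → |(lat X i : ℝ)| ≤ 20 * w * 2 ^ k) ∧
      ENNReal.ofReal (c ^ J * V) ≤ gf (ClT w k (h - hgt X) (b - X.length) (x - latE X))} := ⟨_, rfl⟩
    have hmass : ((p * n2 * n3 : ℕ) : ℝ≥0∞) * ENNReal.ofReal (c0 * V) ≤ gf S := by
      refine gd_low (w := w) (k := k) (lo := lo) (b0 := b0) (y0 := y0) ?_ ?_
      · intro i hi j hj l hl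
        obtain ⟨f1, f2, -⟩ := fh i hi
        obtain ⟨f3, f4, -⟩ := fb l hl
        have f5 := (fx i hi j hj).1
        rw [hV]
        refine hc k (lo + i) (2 * (b0 + l)) _ (by omega) (by rw [← ht]; exact f1) (by rw [← ht]; exact f2) ?_ f5
          (even_two_mul _) f3 f4
        rw [Int.even_iff]
        omega
      · intro i hi j hj l hl Z z1 z2 z3
        obtain ⟨f1, f2, f6, f7, f8, f9⟩ := fh i hi
        obtain ⟨f3, f4, f10, f11, f12⟩ := fb l hl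
        obtain ⟨f5, f13⟩ := fx i hi j hj
        obtain ⟨z1, z4⟩ := z1
        rw [hS]
        have eh := hgt_eq z1
        refine ⟨⟨_, z1⟩, by rw [eh]; exact f6, by rw [eh]; exact f7, by rw [z2]; exact f10, z3, ?_⟩
        rw [eh, z2, z4]
        refine ih _ _ _ f8 f9 ?_ f13 ?_ f11 f12
        · rw [Int.even_iff] at g3 ⊢
          omega
        · rw [Nat.even_iff] at g5 ⊢
          omega
    have hqU : ENNReal.ofReal (q * UU (3 * n)) ≤ gf S := by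
      refine le_trans ?_ hmass
      rw [← ENNReal.ofReal_natCast, ← ENNReal.ofReal_mul (by positivity)]
      apply ENNReal.ofReal_le_ofReal
      have u1 : UU (3 * n) ≤ 2 ^ s * Ub k := by
        have h1 : 3 * n ≤ 2 ^ (k + s) := by
          rw [hn, ← mul_assoc, pow_add, mul_comm (2 ^ k)]
          exact Nat.mul_le_mul_right _ hs
        exact (UU_mono h1).trans (Ub_iter k s)
      have u2 : (4 : ℝ) ^ k = 2 ^ k * 2 ^ k := by
        rw [← mul_pow]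
        norm_num
      have e0 : q * (2 ^ s * Ub k) = c0 * w * a / 128 * Ub k := by
        rw [hq]
        field_simp
      have e1 : c0 * w * a / 128 * Ub k = (2 ^ k * (w * 2 ^ k / 8) * (a * m k / 16)) * (c0 * V) := by
        rw [hV, u2]
        field_simp
        ring
      calc q * UU (3 * n) ≤ q * (2 ^ s * Ub k) := by gcongr
        _ = (2 ^ k * (w * 2 ^ k / 8) * (a * m k / 16)) * (c0 * V) := e0.trans e1
        _ ≤ (2 ^ k * n2 * n3) * (c0 * V) := by gcongr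
        _ = _ := by push_cast; rw [hpR]
    have := peel (S := S) (R := 3 * n) (q := q) (v := c ^ J * V) hq0.le (fun X hX => by rw [hS] at hX; exact hX.1)
      (fun X hX => by rw [hS] at hX; exact hX.2.1) hqU g4 (fun X hX => by rw [hS] at hX; exact hX.2.2)
    refine (ENNReal.ofReal_le_ofReal ?_).trans this
    rw [pow_succ']
    have : 0 ≤ c ^ J * V := by positivity
    calc c * c ^ J * V = c * (c ^ J * V) := by ring
      _ ≤ q * (c ^ J * V) := by gcongr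

/-- **no hypothesis** -/
theorem lowNarT_M : LowNarT (fun k => PW.mZ (2 ^ k)) := lowT mlow_M lowNar_M

end PGS

end HexObs
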