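import Pool.Agent.PGS.LowF
import Pool.Agent.PGS.LowT
import Pool.Agent.POL.FinC

/-!
PGS / LowG (helper51): the lower side of the tail of the largest distance of the polygons, no hypothesis.
-/

set_option autoImplicit false

open scoped Classical

namespace HexObs

namespace PGS

open Finset TS SDN NTA JNT RP POL

open scoped ENNReal

open Pool.Agent.NTS.Res (step)

lemma fr_mono {N : ℕ} {θ θ' : ℝ} (h0 : 0 ≤ θ) (h : θ ≤ θ') : Fr N θ' ⊆ Fr N θ := by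
  rintro t ⟨h1, j, hj, h2⟩
  exact ⟨h1, j, hj, (pow_le_pow_left₀ h0 h 2).trans h2⟩

/-- **the tail of the largest distance from below, polygons** -/
theorem tail_low : ∃ c C : ℝ, 0 < c ∧ 0 < C ∧ ∀ n : ℕ, 9 ≤ n → ¬ Even n → ∀ L : ℝ, 0 ≤ L →
    (∃ s ∈ PGX.Pol step n, ∃ j, j ≤ n ∧ L * (n : ℝ) ^ (3 / 4 : ℝ) ≤ ‖MS.pw step s j‖) →
    c * Real.exp (-(C * L ^ 4)) * ((PGX.Pol step n).card : ℝ) ≤
      (((PGX.Pol step n).filter fun s => ∃ j, j ≤ n ∧ L * (n : ℝ) ^ (3 / 4 : ℝ) ≤ ‖MS.pw step s j‖).card : ℝ) := by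
  obtain ⟨κ, b, X0, hκ, hκ1, hb, hX0, hF⟩ := fr_low lowNarT_M
  obtain ⟨c2, C2, hc2, hC⟩ := POL.finC
  obtain ⟨C3, hC3⟩ : ∃ C3 : ℝ, C3 = max C2 1 := ⟨_, rfl⟩
  have hC30 : 0 < C3 := by rw [hC3]; exact lt_max_of_lt_right one_pos
  have hm := POLP.mu_pos
  obtain ⟨a, ha⟩ : ∃ a : ℝ, a = -Real.log κ := ⟨_, rfl⟩
  have ha0 : 0 ≤ a := by
    rw [ha, neg_nonneg]
    exact Real.log_nonpos hκ.le hκ1
  have hκa : κ = Real.exp (-a) := by rw [ha, neg_neg, Real.exp_log hκ]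
  obtain ⟨D, hD⟩ : ∃ D : ℝ, D = a + 2 * X0 := ⟨_, rfl⟩
  have hD0 : 0 < D := by rw [hD]; linarith
  obtain ⟨q, hq⟩ : ∃ q : ℝ, q = min 1 (3 * POLP.mu * (2 : ℝ) ^ (-(3 / 2) : ℝ) / C3) := ⟨_, rfl⟩
  have hq0 : 0 < q := by rw [hq]; positivity
  refine ⟨q * Real.exp (-(2 * D)), 2 * D / b ^ 4, by positivity, by positivity, fun n hn ho L hL hex => ?_⟩
  have hn0 : (0 : ℝ) < n := by exact_mod_cast (by omega : 0 < n)
  have hn1 : (1 : ℝ) ≤ n := by exact_mod_cast (by omega : 1 ≤ n)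
  obtain ⟨x, hx⟩ : ∃ x : ℝ, x = (L / b) ^ 4 := ⟨_, rfl⟩
  have hx0 : 0 ≤ x := by rw [hx]; positivity
  obtain ⟨v, hv1, hv2⟩ := exists_nat_pow_near (x := max 1 x) (y := 2) (le_max_left _ _) (by norm_num)
  obtain ⟨J, hJ⟩ : ∃ J : ℝ, J = ((2 ^ (v + 1) : ℕ) : ℝ) := ⟨_, rfl⟩
  have hJ2 : J = 2 ^ (v + 1) := by rw [hJ]; push_cast; rfl
  have hJx : x ≤ J := by rw [hJ2]; exact (le_max_right _ _).trans hv2.le
  have hJ1 : 1 ≤ J := by rw [hJ2]; exact one_le_pow₀ (by norm_num)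
  have hJ0 : 0 < J := by linarith
  have hJu : J ≤ 2 * (1 + x) := by
    rw [hJ2, pow_succ]
    have : max 1 x ≤ 1 + x := max_le (by linarith) (by linarith)
    linarith
  have hexp : q * Real.exp (-(2 * D)) * Real.exp (-(2 * D / b ^ 4 * L ^ 4)) ≤ q * Real.exp (-(D * J)) := by
    rw [mul_assoc, ← Real.exp_add]
    refine mul_le_mul_of_nonneg_left (Real.exp_le_exp.2 ?_) hq0.le
    have e1 : 2 * D / b ^ 4 * L ^ 4 = 2 * D * x := by
      rw [hx, div_pow]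
      ring
    rw [e1]
    nlinarith [mul_le_mul_of_nonneg_left hJu hD0.le]
  refine (mul_le_mul_of_nonneg_right hexp (Nat.cast_nonneg _)).trans ?_
  obtain ⟨θ, hθ⟩ : ∃ θ : ℝ, θ = L * (n : ℝ) ^ (3 / 4 : ℝ) := ⟨_, rfl⟩
  have hθ0 : 0 ≤ θ := by rw [hθ]; positivity
  rw [← hθ] at hex ⊢
  rcases le_or_gt (X0 * J) ((n + 1 : ℕ) : ℝ) with hA | hB
  · have he : Even (n + 1) := by
      rw [Nat.even_add_one]
      exact ho
    have h1 := hF (n + 1) (v + 1) he (by rw [← hJ]; exact hA)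
    rw [← hJ] at h1
    have hθ' : θ ≤ b * J ^ (1 / 4 : ℝ) * (((n + 1 : ℕ) : ℝ)) ^ (3 / 4 : ℝ) := by
      have h2 : L / b ≤ J ^ (1 / 4 : ℝ) := by
        have h3 : x ^ (1 / 4 : ℝ) ≤ J ^ (1 / 4 : ℝ) := Real.rpow_le_rpow hx0 hJx (by norm_num)
        have h4 : x ^ (1 / 4 : ℝ) = L / b := by
          rw [hx, ← Real.rpow_natCast, ← Real.rpow_mul (by positivity)]
          norm_num
        rwa [h4] at h3
      rw [div_le_iff₀ hb] at h2
      have h5 : (n : ℝ) ^ (3 / 4 : ℝ) ≤ (((n + 1 : ℕ) : ℝ)) ^ (3 / 4 : ℝ) :=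
        Real.rpow_le_rpow hn0.le (by push_cast; linarith) (by norm_num)
      rw [hθ]
      calc L * (n : ℝ) ^ (3 / 4 : ℝ) ≤ (J ^ (1 / 4 : ℝ) * b) * (((n + 1 : ℕ) : ℝ)) ^ (3 / 4 : ℝ) := by gcongr
        _ = _ := by ring
    have h2 := farB_low (f := step) hexS (by omega) ho hθ0 (h1.trans (gf_mono (fr_mono hθ0 hθ')))
    refine le_trans ?_ h2
    have h3 := (hC step hexS n hn ho).1.2
    have h4 : ((PGX.Pol step n).card : ℝ) ≤ C3 * (n : ℝ) ^ (-(3 / 2) : ℝ) * POLP.mu ^ n := by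
      refine h3.trans ?_
      gcongr
      rw [hC3]
      exact le_max_left _ _
    have h5 : κ ^ (2 ^ (v + 1)) = Real.exp (-(a * J)) := by
      rw [hκa, ← Real.exp_nat_mul, ← hJ]
      congr 1
      ring
    rw [h5]
    have h6 : Real.exp (-(D * J)) ≤ Real.exp (-(a * J)) := by
      rw [Real.exp_le_exp]
      have : a * J ≤ D * J := mul_le_mul_of_nonneg_right (by rw [hD]; linarith) hJ0.le
      linarith
    have h7 : (2 : ℝ) ^ (-(3 / 2) : ℝ) * (n : ℝ) ^ (-(3 / 2) : ℝ) ≤ (((n + 1 : ℕ) : ℝ)) ^ (-(3 / 2) : ℝ) := by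
      rw [← Real.mul_rpow (by norm_num) hn0.le]
      refine Real.rpow_le_rpow_of_nonpos (by positivity) ?_ (by norm_num)
      push_cast
      linarith
    have h8 : q ≤ 3 * POLP.mu * (2 : ℝ) ^ (-(3 / 2) : ℝ) / C3 := by rw [hq]; exact min_le_right _ _
    calc q * Real.exp (-(D * J)) * ((PGX.Pol step n).card : ℝ)
        ≤ (3 * POLP.mu * (2 : ℝ) ^ (-(3 / 2) : ℝ) / C3) * Real.exp (-(a * J)) *
          (C3 * (n : ℝ) ^ (-(3 / 2) : ℝ) * POLP.mu ^ n) :=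
          mul_le_mul (mul_le_mul h8 h6 (Real.exp_pos _).le (by positivity)) h4 (Nat.cast_nonneg _) (by positivity)
      _ = 3 * POLP.mu ^ (n + 1) * (Real.exp (-(a * J)) * ((2 : ℝ) ^ (-(3 / 2) : ℝ) * (n : ℝ) ^ (-(3 / 2) : ℝ))) := by
          rw [pow_succ]
          field_simp
      _ ≤ _ := by gcongr
  · have h1 : (1 : ℝ) ≤ (((PGX.Pol step n).filter fun s => ∃ j, j ≤ n ∧ θ ≤ ‖MS.pw step s j‖).card : ℝ) := by
      obtain ⟨s, hs, h2⟩ := hex
      have h3 : 0 < ((PGX.Pol step n).filter fun s => ∃ j, j ≤ n ∧ θ ≤ ‖MS.pw step s j‖).card :=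
        Finset.card_pos.2 ⟨s, Finset.mem_filter.2 ⟨hs, h2⟩⟩
      exact_mod_cast h3
    refine le_trans ?_ h1
    have h2 : ((PGX.Pol step n).card : ℝ) ≤ Real.exp (D * J) := by
      have h3 : (PGX.Pol step n).card ≤ 3 ^ n := by
        refine (Finset.card_le_univ _).trans (le_of_eq ?_)
        rw [Fintype.card_fun, Fintype.card_fin, Fintype.card_fin]
      have h4 : ((PGX.Pol step n).card : ℝ) ≤ 3 ^ n := by exact_mod_cast h3
      refine h4.trans ?_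
      have h5 : (3 : ℝ) ≤ Real.exp 2 := by
        have := Real.add_one_le_exp (2 : ℝ)
        linarith
      calc (3 : ℝ) ^ n ≤ (Real.exp 2) ^ n := pow_le_pow_left₀ (by norm_num) h5 n
        _ = Real.exp (n * 2) := (Real.exp_nat_mul 2 n).symm
        _ ≤ _ := by
            rw [Real.exp_le_exp, hD]
            push_cast at hB
            nlinarith [mul_nonneg ha0 hJ0.le]
    have h6 : q ≤ 1 := by rw [hq]; exact min_le_left _ _
    calc q * Real.exp (-(D * J)) * ((PGX.Pol step n).card : ℝ) ≤ 1 * Real.exp (-(D * J)) * Real.exp (D * J) :=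
          mul_le_mul (mul_le_mul_of_nonneg_right h6 (Real.exp_pos _).le) h2 (Nat.cast_nonneg _)
            (mul_nonneg zero_le_one (Real.exp_pos _).le)
      _ = 1 := by
          rw [one_mul, ← Real.exp_add]
          norm_num

end PGS

end HexObs
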