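import Pool.Agent.POL.FinH
import Pool.Agent.POL.FinC
import Pool.Agent.PGX.Fin

/-!
PGS / MaxT (helper51): the extent of the self-avoiding polygons: tail L ^ (- 10 / 3), second moment of the largest distance.
-/

set_option autoImplicit false

namespace HexObs

namespace PGS

open Finset TS SDN NTW NTA SIM JNT POL

open scoped ENNReal

/-- closed words with two vertices at a distance of at least θ -/
def Wd (N : ℕ) (θ : ℝ) : Set (List Bool) :=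
  {t | t ∈ POLP.PCy N ∧ ∃ i j, i < N ∧ j < N ∧ θ ^ 2 ≤ ((nrm (vx oo up t i - vx oo up t j) : ℤ) : ℝ)}

/-- the tail of the extent, closed words -/
theorem wd_le : ∃ C : ℝ, 0 < C ∧ ∀ N : ℕ, 1 ≤ N → ∀ θ : ℝ, 0 < θ →
    gf (Wd N θ) ≤ ENNReal.ofReal (C * N * θ ^ (-(10 / 3) : ℝ)) := by
  obtain ⟨c1, hc1, hlow⟩ := VF.mLow VF.sharpZ
  obtain ⟨CU, kU, hCU, hU⟩ := upU
  obtain ⟨CP, hCP, hP⟩ := P1
  obtain ⟨T0, hT0⟩ : ∃ T0 : ℝ, T0 = 20 * 2 ^ kU := ⟨_, rfl⟩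
  have hT0p : 0 < T0 := by rw [hT0]; positivity
  refine ⟨max (CP * T0 ^ (10 / 3 : ℝ)) (2 * (CU / c1) * 20 ^ (10 / 3 : ℝ)), lt_max_of_lt_left (by positivity),
    fun N hN θ hθ => ?_⟩
  have hNR : (1 : ℝ) ≤ N := by exact_mod_cast hN
  have hN0 : (0 : ℝ) < N := by linarith
  have hθp : 0 < θ ^ (-(10 / 3) : ℝ) := by positivity
  rcases lt_or_ge θ T0 with hlt | hge
  · have h1 : gf (Wd N θ) ≤ ENNReal.ofReal (CP * (N : ℝ) ^ (-(3 / 2) : ℝ)) := by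
      refine (gf_mono fun t ht => ht.1).trans ?_
      rw [← Cy_eq]
      exact hP N hN
    refine h1.trans (ENNReal.ofReal_le_ofReal ?_)
    have h2 : (N : ℝ) ^ (-(3 / 2) : ℝ) ≤ 1 := Real.rpow_le_one_of_one_le_of_nonpos hNR (by norm_num)
    have h3 : 1 ≤ T0 ^ (10 / 3 : ℝ) * θ ^ (-(10 / 3) : ℝ) := by
      have h4 : θ ^ (10 / 3 : ℝ) ≤ T0 ^ (10 / 3 : ℝ) := Real.rpow_le_rpow hθ.le hlt.le (by norm_num)
      calc (1 : ℝ) = θ ^ (10 / 3 : ℝ) * θ ^ (-(10 / 3) : ℝ) := by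
            rw [← Real.rpow_add hθ]
            norm_num
        _ ≤ _ := by gcongr
    calc CP * (N : ℝ) ^ (-(3 / 2) : ℝ) ≤ CP * 1 := by gcongr
      _ ≤ CP * (N * (T0 ^ (10 / 3 : ℝ) * θ ^ (-(10 / 3) : ℝ))) := by
          gcongr
          exact one_le_mul_of_one_le_of_one_le hNR h3
      _ = CP * T0 ^ (10 / 3 : ℝ) * N * θ ^ (-(10 / 3) : ℝ) := by ring
      _ ≤ _ := by
          gcongr
          exact le_max_left _ _
  · have h1 : 1 ≤ θ / 20 := by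
      have h2 : (1 : ℝ) ≤ 2 ^ kU := one_le_pow₀ (by norm_num)
      rw [le_div_iff₀ (by norm_num)]
      linarith
    obtain ⟨K, hK1, hK2⟩ := exists_nat_pow_near h1 (show (1 : ℝ) < 2 by norm_num)
    have hKU : kU ≤ K := by
      by_contra hc
      have h2 : (2 : ℝ) ^ (K + 1) ≤ 2 ^ kU := pow_le_pow_right₀ (by norm_num) (by omega)
      have h3 : (2 : ℝ) ^ kU ≤ θ / 20 := by
        rw [le_div_iff₀ (by norm_num)]
        linarith
      linarith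
    have hsub : Wd N θ ⊆ ⋃ j : ℕ, (WC N (K + j + 1) \ WC N (K + j)) := by
      rintro t ⟨ht, i, j, hi, hj, h2⟩
      rcases Cy_cover N K ht with h | h
      · exfalso
        have h3 := WC_nrm h i j hi hj
        have h4 : (4 : ℝ) ^ K = (2 ^ K) ^ 2 := by
          rw [← pow_mul, mul_comm, pow_mul]
          norm_num
        have h5 : (2 ^ K : ℝ) ^ 2 ≤ (θ / 20) ^ 2 := pow_le_pow_left₀ (by positivity) hK1 2
        rw [h4] at h3
        nlinarith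
      · exact h
    obtain ⟨P, hPd⟩ : ∃ P : ℝ, P = (2 ^ (K + 1) : ℝ) ^ (10 / 3 : ℝ) := ⟨_, rfl⟩
    have hP0 : 0 < P := by rw [hPd]; positivity
    have hw : ∀ j : ℕ, c1 * P * 2 ^ j ≤ w4 mM (K + j + 1) := by
      intro j
      have h2 := hlow (K + j + 1)
      have e1 : (2 : ℝ) ^ (4 / 3 * ((K + j + 1 : ℕ) : ℝ)) * 4 ^ (K + j + 1) =
          P * (2 ^ (10 / 3 : ℝ)) ^ j := by
        rw [hPd, show (4 : ℝ) ^ (K + j + 1) = 2 ^ (2 * ((K + j + 1 : ℕ) : ℝ)) by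
          rw [Real.rpow_mul (by norm_num), Real.rpow_natCast]
          norm_num, ← Real.rpow_add (by norm_num), ← Real.rpow_natCast (2 : ℝ) (K + 1),
          ← Real.rpow_mul (by norm_num), ← Real.rpow_natCast (2 ^ (10 / 3 : ℝ)) j,
          ← Real.rpow_mul (by norm_num), ← Real.rpow_add (by norm_num)]
        congr 1
        push_cast
        ring
      have e2 : (2 : ℝ) ^ j ≤ (2 ^ (10 / 3 : ℝ)) ^ j := by
        refine pow_le_pow_left₀ (by norm_num) (two_rpow_ge (by norm_num)) j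
      calc c1 * P * 2 ^ j ≤ c1 * (P * (2 ^ (10 / 3 : ℝ)) ^ j) := by
            rw [mul_assoc]
            gcongr
        _ = c1 * 2 ^ (4 / 3 * ((K + j + 1 : ℕ) : ℝ)) * 4 ^ (K + j + 1) := by rw [← e1]; ring
        _ ≤ _ := by
            unfold w4
            exact mul_le_mul_of_nonneg_right h2 (by positivity)
    have hB : 0 ≤ CU * N / (c1 * P) := by positivity
    have h2 : gf (⋃ j : ℕ, (WC N (K + j + 1) \ WC N (K + j))) ≤ ENNReal.ofReal (2 * (CU * N / (c1 * P))) := by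
      have h3 : gf (⋃ j : ℕ, (WC N (K + j + 1) \ WC N (K + j))) ≤ ∑' j : ℕ, gf (WC N (K + j + 1) \ WC N (K + j)) := by
        unfold gf
        exact ENNReal.tsum_iUnion_le_tsum _ _
      refine h3.trans ((ENNReal.tsum_le_tsum fun j => ?_).trans
        (geo_sum (q := 1 / 2) (by norm_num) le_rfl (CU * N / (c1 * P)) hB))
      refine (hU N (K + j) hN (by omega)).trans (ENNReal.ofReal_le_ofReal ?_)
      have h4 : CU * (N : ℝ) / w4 mM (K + j + 1) ≤ CU * N / (c1 * P * 2 ^ j) :=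
        div_le_div_of_nonneg_left (by positivity) (by positivity) (hw j)
      refine h4.trans (le_of_eq ?_)
      rw [one_div, inv_pow]
      field_simp
    refine (gf_mono hsub).trans (h2.trans (ENNReal.ofReal_le_ofReal ?_))
    have h5 : (θ / 20) ^ (10 / 3 : ℝ) ≤ P := by
      rw [hPd]
      exact Real.rpow_le_rpow (by positivity) hK2.le (by norm_num)
    have h6 : 1 / P ≤ 20 ^ (10 / 3 : ℝ) * θ ^ (-(10 / 3) : ℝ) := by
      have h7 : 1 / P ≤ 1 / (θ / 20) ^ (10 / 3 : ℝ) := one_div_le_one_div_of_le (by positivity) h5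
      refine h7.trans (le_of_eq ?_)
      rw [Real.div_rpow hθ.le (by norm_num), Real.rpow_neg hθ.le]
      field_simp
    calc 2 * (CU * N / (c1 * P)) = 2 * (CU / c1) * N * (1 / P) := by field_simp
      _ ≤ 2 * (CU / c1) * N * (20 ^ (10 / 3 : ℝ) * θ ^ (-(10 / 3) : ℝ)) := by gcongr
      _ = 2 * (CU / c1) * 20 ^ (10 / 3 : ℝ) * N * θ ^ (-(10 / 3) : ℝ) := by ring
      _ ≤ _ := by
          gcongr
          exact le_max_right _ _

/-- the closed words of the polygons with a large distance from the start -/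
lemma far_sum {f : ℕ → Fin 3 → ℂ} (hf : MS.Hex f) {n : ℕ} (hn : 3 ≤ n) (ho : ¬ Even n) {θ B : ℝ} (hθ : 0 ≤ θ) (hB : 0 ≤ B)
    (h : gf (Wd (n + 1) θ) ≤ ENNReal.ofReal B) :
    (((PGX.Pol f n).filter fun s => ∃ j, j ≤ n ∧ θ ≤ ‖MS.pw f s j‖).card : ℝ) ≤ 3 * POLP.mu ^ (n + 1) * B := by
  classical
  have hx := xc_pos
  obtain ⟨G, hG⟩ : ∃ G : List Bool → ℝ, G = fun t => if ∃ j, j ≤ n ∧
    θ ^ 2 ≤ ((nrm (vx oo up t j - vx oo up t 0) : ℤ) : ℝ) then 1 else 0 := ⟨_, rfl⟩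
  have hG0 : ∀ t, 0 ≤ G t := fun t => by
    rw [hG]
    dsimp only
    split_ifs <;> norm_num
  have h0 : ∀ s : Fin n → Fin 3, MS.pw f s 0 = 0 := by
    intro s
    unfold MS.pw
    rw [Finset.filter_false_of_mem (fun i _ => Nat.not_lt_zero _), Finset.sum_empty]
  have h1 : ∑ s ∈ PGX.Pol f n, (if ∃ j, j ≤ n ∧ θ ≤ ‖MS.pw f s j‖ then (1 : ℝ) else 0) =
      3 * ∑ t ∈ (POLP.PCy_fin (n + 1)).toFinset, G t := by
    refine POLP.sum_Pol hf hn ho _ _ fun s hs => ?_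
    rw [hG]
    dsimp only
    have hs' := (Finset.mem_filter.1 hs).1
    congr 1
    rw [eq_iff_iff]
    constructor
    · rintro ⟨j, hj, h2⟩
      refine ⟨j, hj, ?_⟩
      rw [← POLP.dist_cw hf (by omega) hs' hj (Nat.zero_le _), h0, sub_zero]
      exact pow_le_pow_left₀ hθ h2 2
    · rintro ⟨j, hj, h2⟩
      refine ⟨j, hj, ?_⟩
      rw [← POLP.dist_cw hf (by omega) hs' hj (Nat.zero_le _), h0, sub_zero] at h2
      exact le_of_sq_le_sq h2 (norm_nonneg _)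
  have h2 : (((PGX.Pol f n).filter fun s => ∃ j, j ≤ n ∧ θ ≤ ‖MS.pw f s j‖).card : ℝ) =
      3 * ∑ t ∈ (POLP.PCy_fin (n + 1)).toFinset, G t := by
    rw [← h1, Finset.sum_ite, Finset.sum_const_zero, add_zero, Finset.sum_const, nsmul_eq_mul, mul_one]
  have h3 := POLP.tsum_PCy (n + 1) G fun t _ => hG0 t
  have h4 : ∑' t : POLP.PCy (n + 1), wE (t : List Bool) * ENNReal.ofReal (G t) ≤ gf (Wd (n + 1) θ) := by
    unfold gf
    rw [tsum_subtype (POLP.PCy (n + 1)) fun t => wE t * ENNReal.ofReal (G t), tsum_subtype (Wd (n + 1) θ) wE]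
    refine ENNReal.tsum_le_tsum fun t => ?_
    by_cases ht : t ∈ POLP.PCy (n + 1)
    · rw [Set.indicator_of_mem ht]
      by_cases hj : ∃ j, j ≤ n ∧ θ ^ 2 ≤ ((nrm (vx oo up t j - vx oo up t 0) : ℤ) : ℝ)
      · have hw : t ∈ Wd (n + 1) θ := by
          obtain ⟨j, hj, h5⟩ := hj
          exact ⟨ht, j, 0, by omega, by omega, h5⟩
        rw [Set.indicator_of_mem hw, hG]
        dsimp only
        rw [if_pos hj, ENNReal.ofReal_one, mul_one]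
      · rw [hG]
        dsimp only
        rw [if_neg hj, ENNReal.ofReal_zero, mul_zero]
        exact zero_le
    · rw [Set.indicator_of_notMem ht]
      exact zero_le
  have h5 := h4.trans h
  rw [h3, ENNReal.ofReal_le_ofReal_iff hB] at h5
  rw [h2]
  have e : ∑ t ∈ (POLP.PCy_fin (n + 1)).toFinset, G t =
      (xc ^ (n + 1) * ∑ t ∈ (POLP.PCy_fin (n + 1)).toFinset, G t) * POLP.mu ^ (n + 1) := by
    have := POLP.xc_mul_mu (n + 1)
    linear_combination (-(∑ t ∈ (POLP.PCy_fin (n + 1)).toFinset, G t)) * this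
  have hm := POLP.mu_pos
  rw [e]
  calc 3 * ((xc ^ (n + 1) * ∑ t ∈ (POLP.PCy_fin (n + 1)).toFinset, G t) * POLP.mu ^ (n + 1))
      = 3 * POLP.mu ^ (n + 1) * (xc ^ (n + 1) * ∑ t ∈ (POLP.PCy_fin (n + 1)).toFinset, G t) := by ring
    _ ≤ 3 * POLP.mu ^ (n + 1) * B := mul_le_mul_of_nonneg_left h5 (by positivity)

/-- the lower bound of the number of the polygons -/
lemma cnt_low : ∃ c : ℝ, 0 < c ∧ ∀ f : ℕ → Fin 3 → ℂ, MS.Hex f → ∀ n : ℕ, 9 ≤ n → ¬ Even n →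
    c * (n : ℝ) ^ (-(3 / 2) : ℝ) * POLP.mu ^ n ≤ ((PGX.Pol f n).card : ℝ) := by
  obtain ⟨c, C, hc, h⟩ := POL.finC
  exact ⟨c, hc, fun f hf n hn ho => (h f hf n hn ho).1.1⟩

/-- **the tail of the largest distance, polygons** -/
theorem tail : ∃ C : ℝ, 0 < C ∧ ∀ f : ℕ → Fin 3 → ℂ, MS.Hex f → ∀ n : ℕ, 9 ≤ n → ¬ Even n → ∀ L : ℝ, 0 < L →
    (((PGX.Pol f n).filter fun s => ∃ j, j ≤ n ∧ L * (n : ℝ) ^ (3 / 4 : ℝ) ≤ ‖MS.pw f s j‖).card : ℝ) ≤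
      C * L ^ (-(10 / 3) : ℝ) * ((PGX.Pol f n).card : ℝ) := by
  obtain ⟨C, hC, hW⟩ := wd_le
  obtain ⟨c, hc, hlow⟩ := cnt_low
  have hm := POLP.mu_pos
  refine ⟨6 * C * POLP.mu / c, by positivity, fun f hf n hn ho L hL => ?_⟩
  have hn0 : (0 : ℝ) < n := by exact_mod_cast (by omega : 0 < n)
  have hn1 : (1 : ℝ) ≤ n := by exact_mod_cast (by omega : 1 ≤ n)
  obtain ⟨θ, hθ⟩ : ∃ θ : ℝ, θ = L * (n : ℝ) ^ (3 / 4 : ℝ) := ⟨_, rfl⟩
  have hθ0 : 0 < θ := by rw [hθ]; positivity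
  have h1 := far_sum hf (by omega) ho hθ0.le (by positivity) (hW (n + 1) (by omega) θ hθ0)
  rw [← hθ]
  refine h1.trans ?_
  have h2 : θ ^ (-(10 / 3) : ℝ) = L ^ (-(10 / 3) : ℝ) * (n : ℝ) ^ (-(5 / 2) : ℝ) := by
    rw [hθ, Real.mul_rpow hL.le (by positivity), ← Real.rpow_mul hn0.le]
    norm_num
  have h3 : (n : ℝ) ^ (-(5 / 2) : ℝ) * n = (n : ℝ) ^ (-(3 / 2) : ℝ) := by
    conv_lhs => rw [← Real.rpow_one (n : ℝ), ← Real.rpow_mul hn0.le, ← Real.rpow_add hn0]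
    norm_num
  have h4 : (((n + 1 : ℕ) : ℝ)) ≤ 2 * n := by
    push_cast
    linarith
  have h5 := hlow f hf n hn ho
  calc 3 * POLP.mu ^ (n + 1) * (C * ((n + 1 : ℕ) : ℝ) * θ ^ (-(10 / 3) : ℝ))
      ≤ 3 * POLP.mu ^ (n + 1) * (C * (2 * n) * θ ^ (-(10 / 3) : ℝ)) := by gcongr
    _ = 6 * C * POLP.mu * L ^ (-(10 / 3) : ℝ) * ((n : ℝ) ^ (-(5 / 2) : ℝ) * n * POLP.mu ^ n) := by
        rw [h2, pow_succ]
        ring
    _ = 6 * C * POLP.mu / c * L ^ (-(10 / 3) : ℝ) * (c * (n : ℝ) ^ (-(3 / 2) : ℝ) * POLP.mu ^ n) := by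
        rw [h3]
        field_simp
    _ ≤ _ := by gcongr

/-- the largest squared distance from the start -/
noncomputable def Mq (f : ℕ → Fin 3 → ℂ) {n : ℕ} (s : Fin n → Fin 3) : ℝ :=
  (range (n + 1)).sup' ⟨0, mem_range.2 (Nat.succ_pos n)⟩ fun j => ‖MS.pw f s j‖ ^ 2

lemma mq_ex {f : ℕ → Fin 3 → ℂ} {n : ℕ} (s : Fin n → Fin 3) : ∃ j, j ≤ n ∧ Mq f s = ‖MS.pw f s j‖ ^ 2 := by
  obtain ⟨j, hj, h⟩ := Finset.exists_mem_eq_sup' (s := range (n + 1)) ⟨0, mem_range.2 (Nat.succ_pos n)⟩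
    fun j => ‖MS.pw f s j‖ ^ 2
  exact ⟨j, by have := mem_range.1 hj; omega, h⟩

lemma mq_bound {f : ℕ → Fin 3 → ℂ} (hf : MS.Hex f) {n : ℕ} (hn : 1 ≤ n) (s : Fin n → Fin 3) : Mq f s ≤ (n : ℝ) ^ 2 := by
  obtain ⟨j, hj, h⟩ := mq_ex (f := f) s
  rw [h]
  have h2 := MS.steps_le hf s 0 j (Nat.zero_le _)
  have h0 : MS.pw f s 0 = 0 := by
    unfold MS.pw
    rw [Finset.filter_false_of_mem (fun i _ => Nat.not_lt_zero _), Finset.sum_empty]
  rw [h0, sub_zero] at h2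
  have h3 : (j : ℝ) ≤ n := by exact_mod_cast hj
  refine pow_le_pow_left₀ (norm_nonneg _) ?_ 2
  push_cast at h2
  linarith

/-- dyadic decomposition -/
lemma dyadic {x A : ℝ} (hA : 0 < A) {I : ℕ} (hx : x < 4 ^ I * A ^ 2) :
    x ≤ A ^ 2 + ∑ i ∈ range I, 4 * 4 ^ i * A ^ 2 * (if 4 ^ i * A ^ 2 ≤ x then (1 : ℝ) else 0) := by
  have hnn : ∀ i : ℕ, (0 : ℝ) ≤ 4 * 4 ^ i * A ^ 2 * (if 4 ^ i * A ^ 2 ≤ x then (1 : ℝ) else 0) := by
    intro i
    split_ifs <;> positivity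
  induction I with
  | zero =>
    rw [Finset.range_zero, Finset.sum_empty, add_zero]
    rw [pow_zero, one_mul] at hx
    exact hx.le
  | succ I ih =>
    rw [Finset.sum_range_succ]
    rcases lt_or_ge x (4 ^ I * A ^ 2) with h | h
    · have := ih h
      have := hnn I
      linarith
    · have h1 : 0 ≤ ∑ i ∈ range I, 4 * 4 ^ i * A ^ 2 * (if 4 ^ i * A ^ 2 ≤ x then (1 : ℝ) else 0) :=
        Finset.sum_nonneg fun i _ => hnn i
      rw [if_pos h]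
      rw [pow_succ] at hx
      nlinarith [sq_nonneg A]

/-- **the second moment of the largest distance, polygons** -/
theorem max2 : ∃ C : ℝ, 0 < C ∧ ∀ f : ℕ → Fin 3 → ℂ, MS.Hex f → ∀ n : ℕ, 9 ≤ n → ¬ Even n →
    ∑ s ∈ PGX.Pol f n, Mq f s ≤ C * (n : ℝ) ^ (3 / 2 : ℝ) * ((PGX.Pol f n).card : ℝ) := by
  classical
  obtain ⟨C, hC, ht⟩ := tail
  refine ⟨1 + 8 * C, by positivity, fun f hf n hn ho => ?_⟩
  have hn0 : (0 : ℝ) < n := by exact_mod_cast (by omega : 0 < n)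
  have hn1 : (1 : ℝ) ≤ n := by exact_mod_cast (by omega : 1 ≤ n)
  obtain ⟨A, hA⟩ : ∃ A : ℝ, A = (n : ℝ) ^ (3 / 4 : ℝ) := ⟨_, rfl⟩
  have hA0 : 0 < A := by rw [hA]; positivity
  have hA1 : 1 ≤ A := by rw [hA]; exact Real.one_le_rpow hn1 (by norm_num)
  have hA2 : A ^ 2 = (n : ℝ) ^ (3 / 2 : ℝ) := by
    rw [hA, ← Real.rpow_natCast, ← Real.rpow_mul hn0.le]
    norm_num
  obtain ⟨r, hr⟩ : ∃ r : ℝ, r = 2 ^ (4 / 3 : ℝ) := ⟨_, rfl⟩
  have hr2 : 2 ≤ r := by rw [hr]; exact two_rpow_ge (by norm_num)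
  have hbig : ∀ s : Fin n → Fin 3, Mq f s < 4 ^ n * A ^ 2 := by
    intro s
    have h1 := mq_bound hf (show 1 ≤ n by omega) s
    have h2 : ((n : ℝ)) ^ 2 < 4 ^ n := by
      have h3 : n < 2 ^ n := Nat.lt_two_pow_self
      have h4 : (n : ℝ) < 2 ^ n := by exact_mod_cast h3
      have h5 : (4 : ℝ) ^ n = (2 ^ n) ^ 2 := by
        rw [← pow_mul, mul_comm, pow_mul]
        norm_num
      rw [h5]
      exact pow_lt_pow_left₀ h4 hn0.le (by norm_num)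
    have h6 : (1 : ℝ) ≤ A ^ 2 := one_le_pow₀ hA1
    nlinarith [pow_pos (show (0 : ℝ) < 4 by norm_num) n]
  have h1 : ∀ s ∈ PGX.Pol f n, Mq f s ≤ A ^ 2 + ∑ i ∈ range n, 4 * 4 ^ i * A ^ 2 *
      (if ∃ j, j ≤ n ∧ 2 ^ i * (n : ℝ) ^ (3 / 4 : ℝ) ≤ ‖MS.pw f s j‖ then (1 : ℝ) else 0) := by
    intro s _
    refine (dyadic hA0 (hbig s)).trans ?_
    gcongr with i _
    split_ifs with h2 h3
    · exact le_rfl
    · exfalso
      apply h3
      obtain ⟨j, hj, e⟩ := mq_ex (f := f) s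
      refine ⟨j, hj, ?_⟩
      rw [← hA]
      rw [e] at h2
      have h4 : (4 : ℝ) ^ i * A ^ 2 = (2 ^ i * A) ^ 2 := by
        rw [mul_pow, ← pow_mul, mul_comm i 2, pow_mul]
        norm_num
      rw [h4] at h2
      exact le_of_sq_le_sq h2 (norm_nonneg _)
    · exact zero_le_one
    · exact le_rfl
  refine (Finset.sum_le_sum h1).trans ?_
  rw [Finset.sum_add_distrib, Finset.sum_const, nsmul_eq_mul, Finset.sum_comm]
  have h2 : ∀ i ∈ range n, ∑ s ∈ PGX.Pol f n, 4 * 4 ^ i * A ^ 2 *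
      (if ∃ j, j ≤ n ∧ 2 ^ i * (n : ℝ) ^ (3 / 4 : ℝ) ≤ ‖MS.pw f s j‖ then (1 : ℝ) else 0) ≤
      4 * C * A ^ 2 * ((PGX.Pol f n).card : ℝ) * (1 / 2) ^ i := by
    intro i _
    rw [← Finset.mul_sum, Finset.sum_ite, Finset.sum_const_zero, add_zero, Finset.sum_const, nsmul_eq_mul, mul_one]
    have h3 := ht f hf n hn ho (2 ^ i) (by positivity)
    have h4 : (4 : ℝ) ^ i * (2 ^ i : ℝ) ^ (-(10 / 3) : ℝ) ≤ (1 / 2) ^ i := by
      have e1 : (4 : ℝ) ^ i * (2 ^ i : ℝ) ^ (-(10 / 3) : ℝ) = (r⁻¹) ^ i := by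
        have e4 : (4 : ℝ) ^ i = 2 ^ (2 * (i : ℝ)) := by
          rw [Real.rpow_mul (by norm_num), Real.rpow_natCast]
          norm_num
        have er : (r⁻¹) ^ i = 2 ^ (-(4 / 3) * (i : ℝ)) := by
          rw [hr, ← Real.rpow_neg (by norm_num), ← Real.rpow_natCast (2 ^ (-(4 / 3) : ℝ)) i,
            ← Real.rpow_mul (by norm_num)]
        rw [e4, er, ← Real.rpow_natCast (2 : ℝ) i, ← Real.rpow_mul (by norm_num), ← Real.rpow_add (by norm_num)]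
        congr 1
        ring
      rw [e1]
      refine pow_le_pow_left₀ (by positivity) ?_ i
      rw [one_div]
      exact inv_anti₀ (by norm_num) hr2
    calc _ ≤ 4 * 4 ^ i * A ^ 2 * (C * (2 ^ i : ℝ) ^ (-(10 / 3) : ℝ) * ((PGX.Pol f n).card : ℝ)) := by gcongr
      _ = 4 * C * A ^ 2 * ((PGX.Pol f n).card : ℝ) * (4 ^ i * (2 ^ i : ℝ) ^ (-(10 / 3) : ℝ)) := by ring
      _ ≤ _ := by gcongr
  have h3 : ∑ i ∈ range n, (1 / 2 : ℝ) ^ i ≤ 2 := by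
    have h4 := sum_geometric_two_le n
    exact h4
  calc ((PGX.Pol f n).card : ℝ) * A ^ 2 + ∑ i ∈ range n, ∑ s ∈ PGX.Pol f n, 4 * 4 ^ i * A ^ 2 *
        (if ∃ j, j ≤ n ∧ 2 ^ i * (n : ℝ) ^ (3 / 4 : ℝ) ≤ ‖MS.pw f s j‖ then (1 : ℝ) else 0)
      ≤ ((PGX.Pol f n).card : ℝ) * A ^ 2 + ∑ i ∈ range n, 4 * C * A ^ 2 * ((PGX.Pol f n).card : ℝ) * (1 / 2) ^ i := by
        gcongr with i hi
        exact h2 i hi
    _ = ((PGX.Pol f n).card : ℝ) * A ^ 2 + 4 * C * A ^ 2 * ((PGX.Pol f n).card : ℝ) * ∑ i ∈ range n, (1 / 2 : ℝ) ^ i := by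
        rw [Finset.mul_sum]
    _ ≤ ((PGX.Pol f n).card : ℝ) * A ^ 2 + 4 * C * A ^ 2 * ((PGX.Pol f n).card : ℝ) * 2 := by gcongr
    _ = (1 + 8 * C) * A ^ 2 * ((PGX.Pol f n).card : ℝ) := by ring
    _ = _ := by rw [hA2]

end PGS

end HexObs
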