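import Pool.Agent.PGS.Lit
import Pool.Agent.POL.RgRot

/-!
PGS / Out (helper39): a closed word which is not in the box has a vertex far from the start; the mass of such words.
-/

set_option autoImplicit false

namespace HexObs

namespace PGS

open Finset TS SDN NTW NTA SIM JNT POL

open scoped ENNReal Classical

lemma row_nrm {K : ℕ} {dir : Bool} {v : Pt} (h : (2 : ℤ) ^ K < |row dir v|) : (4 : ℝ) ^ K ≤ ((nrm v : ℤ) : ℝ) := by
  have e : 3 * nrm v = lvl false v ^ 2 + lvl false v * lvl true v + lvl true v ^ 2 := by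
    simp only [lvl, hd, ip, nrm, up, Bool.false_eq_true, if_false, if_true]
    ring
  have hP : (1 : ℤ) ≤ 2 ^ K := by exact_mod_cast Nat.one_le_two_pow
  have h1 : 3 * (2 : ℤ) ^ K ≤ |lvl dir v| := by
    unfold row at h
    rcases le_total 0 (lvl dir v) with h2 | h2
    · rw [abs_of_nonneg h2]
      rw [abs_of_nonneg (by omega)] at h
      omega
    · rw [abs_of_nonpos h2]
      rw [abs_of_nonpos (by omega)] at h
      omega
  have h2 : (3 * (2 : ℤ) ^ K) ^ 2 ≤ lvl dir v ^ 2 := by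
    rw [← sq_abs (lvl dir v)]
    exact pow_le_pow_left₀ (by positivity) h1 2
  have h3 : lvl dir v ^ 2 ≤ 4 * nrm v := by
    cases dir
    · nlinarith [sq_nonneg (lvl false v + 2 * lvl true v)]
    · nlinarith [sq_nonneg (2 * lvl false v + lvl true v)]
  have h4 : ((2 : ℤ) ^ K) ^ 2 = 4 ^ K := by
    rw [← pow_mul, mul_comm, pow_mul]
    norm_num
  have h5 : (4 : ℤ) ^ K ≤ nrm v := by nlinarith
  exact_mod_cast h5

lemma pv_red {N : ℕ} {t : List Bool} (ht : t ∈ Cy N) (hN : 1 ≤ N) (j : ℕ) : ∃ r, r < N ∧ pv t j = vx oo up t r := by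
  have hlen := ht.1
  induction j using Nat.strong_induction_on with
  | _ j ih =>
    rcases Nat.lt_or_ge j N with h | h
    · exact ⟨j, h, pv_eq (by omega)⟩
    · obtain ⟨r, hr, e⟩ := ih (j - N) (by omega)
      refine ⟨r, hr, ?_⟩
      rw [← e]
      have h1 := pv_per (Cy.clo ht) (j - N)
      rw [hlen, show N + (j - N) = j by omega] at h1
      exact h1

lemma not_WC {N K : ℕ} {t : List Bool} (ht : t ∈ Cy N) (hN : 1 ≤ N) (h : t ∉ WC N K) :
    ∃ i j, i < N ∧ j < N ∧ (4 : ℝ) ^ K ≤ ((nrm (vx oo up t i - vx oo up t j) : ℤ) : ℝ) := by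
  have h1 : ∃ X Y : List Bool, t = X ++ Y ∧ ∃ i, i ≤ N ∧ ∃ dir, (2 : ℤ) ^ K < |row dir (vx oo up (Y ++ X) i)| := by
    by_contra hc
    apply h
    refine ⟨ht, fun X Y hXY i hi dir => ?_⟩
    by_contra hd
    exact hc ⟨X, Y, hXY, i, hi, dir, not_le.1 hd⟩
  obtain ⟨X, Y, hXY, i, hi, dir, h2⟩ := h1
  have hlen := ht.1
  have e1 : Y ++ X = t.rotate X.length := by
    rw [hXY, List.rotate_append_length_eq]
  rw [e1, rot_vx (by omega)] at h2
  have h3 := row_nrm h2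
  rw [nrm_mulE, nrm_rotTo_pd, one_mul] at h3
  obtain ⟨a, ha, ea⟩ := pv_red ht hN (X.length + i)
  obtain ⟨c, hc, ec⟩ := pv_red ht hN X.length
  rw [ea, ec] at h3
  exact ⟨a, c, ha, hc, h3⟩

lemma nrm_par (p q o : Pt) : nrm (p - q) ≤ 2 * nrm (p - o) + 2 * nrm (q - o) := by
  simp only [nrm, Prod.fst_sub, Prod.snd_sub]
  nlinarith [sq_nonneg ((p.1 - o.1) + (q.1 - o.1) + ((p.2 - o.2) + (q.2 - o.2))), sq_nonneg ((p.1 - o.1) + (q.1 - o.1)),
    sq_nonneg ((p.2 - o.2) + (q.2 - o.2))]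

/-- a vertex far from the start -/
lemma not_WC_root {N K : ℕ} {t : List Bool} (ht : t ∈ Cy N) (hN : 1 ≤ N) (h : t ∉ WC N K) :
    ∃ j, j < N ∧ (2 ^ K / 2 : ℝ) ^ 2 ≤ ((nrm (vx oo up t j - vx oo up t 0) : ℤ) : ℝ) := by
  obtain ⟨i, j, hi, hj, h1⟩ := not_WC ht hN h
  have h2 : ((nrm (vx oo up t i - vx oo up t j) : ℤ) : ℝ) ≤
      2 * ((nrm (vx oo up t i - vx oo up t 0) : ℤ) : ℝ) + 2 * ((nrm (vx oo up t j - vx oo up t 0) : ℤ) : ℝ) := by
    exact_mod_cast nrm_par (vx oo up t i) (vx oo up t j) (vx oo up t 0)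
  have h4 : (2 ^ K / 2 : ℝ) ^ 2 = 4 ^ K / 4 := by
    rw [div_pow, ← pow_mul, mul_comm, pow_mul]
    norm_num
  rw [h4]
  rcases le_or_gt (4 ^ K / 4 : ℝ) ((nrm (vx oo up t i - vx oo up t 0) : ℤ) : ℝ) with h3 | h3
  · exact ⟨i, hi, h3⟩
  · exact ⟨j, hj, by linarith⟩

/-- the mass of the closed words which are not in the box, by the polygons with a far vertex -/
lemma out_le {f : ℕ → Fin 3 → ℂ} (hf : MS.Hex f) {n : ℕ} (hn : 3 ≤ n) (ho : ¬ Even n) (K : ℕ) :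
    gf {t | t ∈ Cy (n + 1) ∧ t ∉ WC (n + 1) K} ≤ ENNReal.ofReal (xc ^ (n + 1) / 3 *
      (((PGX.Pol f n).filter fun s => ∃ j, j ≤ n ∧ (2 ^ K / 2 : ℝ) ≤ ‖MS.pw f s j‖).card : ℝ)) := by
  have hx := xc_pos
  obtain ⟨θ, hθe⟩ : ∃ θ : ℝ, θ = 2 ^ K / 2 := ⟨_, rfl⟩
  have hθ : 0 ≤ θ := by rw [hθe]; positivity
  rw [← hθe]
  obtain ⟨G, hG⟩ : ∃ G : List Bool → ℝ, G = fun t => if ∃ j, j ≤ n ∧
    θ ^ 2 ≤ ((nrm (vx oo up t j - vx oo up t 0) : ℤ) : ℝ) then 1 else 0 := ⟨_, rfl⟩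
  have hG0 : ∀ t, 0 ≤ G t := fun t => by
    rw [hG]
    dsimp only
    split_ifs <;> norm_num
  have h0 : ∀ s : Fin n → Fin 3, MS.pw f s 0 = 0 := by
    intro s
    unfold MS.pw
    rw [Finset.filter_false_of_mem (fun i _ => Nat.not_lt_zero _), Finset.sum_empty]
  have h1 : ∑ s ∈ PGX.Pol f n, (if ∃ j, j ≤ n ∧ θ ≤ ‖MS.pw f s j‖ then (1 : ℝ) else 0) =
      3 * ∑ t ∈ (POLP.PCy_fin (n + 1)).toFinset, G t := by
    refine POLP.sum_Pol hf hn ho _ _ fun s hs => ?_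
    rw [hG]
    dsimp only
    have hs' := (Finset.mem_filter.1 hs).1
    congr 1
    rw [eq_iff_iff]
    constructor
    · rintro ⟨j, hj, h2⟩
      refine ⟨j, hj, ?_⟩
      rw [← POLP.dist_cw hf (by omega) hs' hj (Nat.zero_le _), h0, sub_zero]
      exact pow_le_pow_left₀ hθ h2 2
    · rintro ⟨j, hj, h2⟩
      refine ⟨j, hj, ?_⟩
      rw [← POLP.dist_cw hf (by omega) hs' hj (Nat.zero_le _), h0, sub_zero] at h2
      exact le_of_sq_le_sq h2 (norm_nonneg _)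
  have h2 : (((PGX.Pol f n).filter fun s => ∃ j, j ≤ n ∧ θ ≤ ‖MS.pw f s j‖).card : ℝ) =
      3 * ∑ t ∈ (POLP.PCy_fin (n + 1)).toFinset, G t := by
    rw [← h1, Finset.sum_ite, Finset.sum_const_zero, add_zero, Finset.sum_const, nsmul_eq_mul, mul_one]
  have h3 := POLP.tsum_PCy (n + 1) G fun t _ => hG0 t
  have h4 : gf {t | t ∈ Cy (n + 1) ∧ t ∉ WC (n + 1) K} ≤
      ∑' t : POLP.PCy (n + 1), wE (t : List Bool) * ENNReal.ofReal (G t) := by
    unfold gf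
    rw [tsum_subtype (POLP.PCy (n + 1)) fun t => wE t * ENNReal.ofReal (G t),
      tsum_subtype {t | t ∈ Cy (n + 1) ∧ t ∉ WC (n + 1) K} wE]
    refine ENNReal.tsum_le_tsum fun t => ?_
    by_cases ht : t ∈ Cy (n + 1) ∧ t ∉ WC (n + 1) K
    · rw [Set.indicator_of_mem (show t ∈ {t | t ∈ Cy (n + 1) ∧ t ∉ WC (n + 1) K} from ht)]
      have hp : t ∈ POLP.PCy (n + 1) := by rw [← Cy_eq]; exact ht.1
      rw [Set.indicator_of_mem hp, hG]
      obtain ⟨j, hj, h5⟩ := not_WC_root ht.1 (by omega) ht.2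
      dsimp only
      rw [if_pos ⟨j, by omega, by rw [hθe]; exact h5⟩, ENNReal.ofReal_one, mul_one]
    · rw [Set.indicator_of_notMem (show t ∉ {t | t ∈ Cy (n + 1) ∧ t ∉ WC (n + 1) K} from ht)]
      exact zero_le
  refine h4.trans (le_of_eq ?_)
  rw [h3, h2]
  congr 1
  ring

end PGS

end HexObs
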