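import Pool.Agent.PGS.MaxT
import Pool.Agent.PGS.Geo

/-!
PGS / Small (helper51): the small extents of the self-avoiding polygons.
-/

set_option autoImplicit false

namespace HexObs

namespace PGS

open Finset TS SDN NTW NTA SIM JNT POL

open scoped ENNReal

/-- closed words all whose vertices are at a distance of at most θ from the start -/
def Sm (N : ℕ) (θ : ℝ) : Set (List Bool) :=
  {t | t ∈ POLP.PCy N ∧ ∀ j, j < N → ((nrm (vx oo up t j) : ℤ) : ℝ) ≤ θ ^ 2}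

/-- the small extents, closed words -/
theorem sm_le : ∃ B : ℝ, 1 ≤ B ∧ ∀ Q : ℕ, ∃ A : ℝ, 0 < A ∧ ∀ (N : ℕ) (θ lam : ℝ), 2 ≤ N → 1 ≤ θ → 1 ≤ lam →
    lam * (B * θ ^ (4 / 3 : ℝ)) ≤ (N : ℝ) - 1 → gf (Sm N θ) ≤ ENNReal.ofReal (A / lam ^ Q * (N * θ ^ (-(10 / 3) : ℝ))) := by
  obtain ⟨c1, hc1, hlow⟩ := VF.mLow VF.sharpZ
  obtain ⟨C2, hC2, hup⟩ := VF.mUp VF.sharpZ
  obtain ⟨c, hc, hG⟩ := nwc
  obtain ⟨T, hT⟩ : ∃ T : ℝ, T = 1 / Real.sqrt c := ⟨_, rfl⟩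
  have hsc : 0 < Real.sqrt c := Real.sqrt_pos.2 hc
  have hT0 : 0 < T := by rw [hT]; positivity
  obtain ⟨S, hS⟩ : ∃ S : ℝ, S = max T 1 := ⟨_, rfl⟩
  have hS1 : 1 ≤ S := by rw [hS]; exact le_max_right _ _
  have hST : T ≤ S := by rw [hS]; exact le_max_left _ _
  have hS0 : 0 < S := by linarith
  refine ⟨max 1 (C2 * (2 * S) ^ (4 / 3 : ℝ)), le_max_left _ _, fun Q => ?_⟩
  obtain ⟨A, hA, hsm⟩ := small_of normAll Q
  have hA0 : 0 < A := by linarith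
  refine ⟨A / c1, by positivity, fun N θ lam hN hθ hl hh => ?_⟩
  have hθ0 : 0 < θ := by linarith
  have hN0 : (0 : ℝ) < N := by exact_mod_cast (by omega : 0 < N)
  have h1 : 1 ≤ S * θ := one_le_mul_of_one_le_of_one_le hS1 hθ
  obtain ⟨k, hk1, hk2⟩ := exists_nat_pow_near h1 (show (1 : ℝ) < 2 by norm_num)
  have hsub : Sm N θ ⊆ WC N (k + 1) := by
    rintro t ⟨ht, h2⟩
    by_contra hn
    rw [← Cy_eq] at ht
    obtain ⟨j, hj, h3⟩ := hG N (k + 1) t ht hn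
    have h4 := h2 j hj
    have h5 : (4 : ℝ) ^ (k + 1) = (2 ^ (k + 1)) ^ 2 := by
      rw [← pow_mul, mul_comm, pow_mul]
      norm_num
    have h6 : (S * θ) ^ 2 < (2 ^ (k + 1)) ^ 2 := pow_lt_pow_left₀ hk2 (by positivity) (by norm_num)
    have h7 : θ ^ 2 ≤ c * (S * θ) ^ 2 := by
      have h8 : 1 ≤ c * S ^ 2 := by
        have h9 : c * T ^ 2 = 1 := by
          rw [hT, div_pow, one_pow, Real.sq_sqrt hc.le]
          field_simp
        have h10 : T ^ 2 ≤ S ^ 2 := pow_le_pow_left₀ hT0.le hST 2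
        nlinarith
      nlinarith [sq_nonneg θ]
    rw [h5] at h3
    nlinarith
  have hK2 : (2 : ℝ) ^ (k + 1) ≤ 2 * S * θ := by
    rw [pow_succ]
    linarith
  have e1 : (2 : ℝ) ^ (4 / 3 * ((k + 1 : ℕ) : ℝ)) = (2 ^ (k + 1) : ℝ) ^ (4 / 3 : ℝ) := by
    rw [← Real.rpow_natCast (2 : ℝ) (k + 1), ← Real.rpow_mul (by norm_num)]
    congr 1
    ring
  have hm1 : mM (k + 1) ≤ max 1 (C2 * (2 * S) ^ (4 / 3 : ℝ)) * θ ^ (4 / 3 : ℝ) := by
    have h2 : mM (k + 1) ≤ C2 * 2 ^ (4 / 3 * ((k + 1 : ℕ) : ℝ)) := hup (k + 1)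
    refine h2.trans ?_
    rw [e1]
    calc C2 * (2 ^ (k + 1) : ℝ) ^ (4 / 3 : ℝ) ≤ C2 * (2 * S * θ) ^ (4 / 3 : ℝ) := by
          gcongr
      _ = C2 * (2 * S) ^ (4 / 3 : ℝ) * θ ^ (4 / 3 : ℝ) := by
          rw [Real.mul_rpow (by positivity) hθ0.le]
          ring
      _ ≤ _ := by
          gcongr
          exact le_max_right _ _
  have hlm : lam * mM (k + 1) + 1 ≤ N := by
    have h2 : lam * mM (k + 1) ≤ lam * (max 1 (C2 * (2 * S) ^ (4 / 3 : ℝ)) * θ ^ (4 / 3 : ℝ)) := by gcongr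
    linarith
  refine (gf_mono hsub).trans ((hsm N (k + 1) lam (by omega) hl hlm).trans (ENNReal.ofReal_le_ofReal ?_))
  have hw : c1 * θ ^ (10 / 3 : ℝ) ≤ w4 mM (k + 1) := by
    have h2 : c1 * 2 ^ (4 / 3 * ((k + 1 : ℕ) : ℝ)) ≤ mM (k + 1) := hlow (k + 1)
    have h3 : θ ≤ 2 ^ (k + 1) := by
      have h4 : θ ≤ S * θ := by nlinarith
      linarith
    have h4 : θ ^ (4 / 3 : ℝ) ≤ (2 ^ (k + 1) : ℝ) ^ (4 / 3 : ℝ) := Real.rpow_le_rpow hθ0.le h3 (by norm_num)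
    have h5 : θ ^ 2 ≤ (4 : ℝ) ^ (k + 1) := by
      have h6 : (4 : ℝ) ^ (k + 1) = (2 ^ (k + 1)) ^ 2 := by
        rw [← pow_mul, mul_comm, pow_mul]
        norm_num
      rw [h6]
      exact pow_le_pow_left₀ hθ0.le h3 2
    have h6 : θ ^ (10 / 3 : ℝ) = θ ^ (4 / 3 : ℝ) * θ ^ 2 := by
      rw [← Real.rpow_natCast θ 2, ← Real.rpow_add hθ0]
      norm_num
    rw [h6]
    unfold w4
    calc c1 * (θ ^ (4 / 3 : ℝ) * θ ^ 2) = (c1 * θ ^ (4 / 3 : ℝ)) * θ ^ 2 := by ring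
      _ ≤ (c1 * (2 ^ (k + 1) : ℝ) ^ (4 / 3 : ℝ)) * 4 ^ (k + 1) := by gcongr
      _ ≤ _ := by
          rw [← e1]
          exact mul_le_mul_of_nonneg_right h2 (by positivity)
  have hθp : 0 < θ ^ (10 / 3 : ℝ) := by positivity
  have h2 : (N : ℝ) / w4 mM (k + 1) ≤ N / (c1 * θ ^ (10 / 3 : ℝ)) :=
    div_le_div_of_nonneg_left hN0.le (by positivity) hw
  calc A / lam ^ Q * (N / w4 mM (k + 1)) ≤ A / lam ^ Q * (N / (c1 * θ ^ (10 / 3 : ℝ))) := by gcongr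
    _ = A / c1 / lam ^ Q * (N * θ ^ (-(10 / 3) : ℝ)) := by
        rw [Real.rpow_neg hθ0.le]
        field_simp

/-- the closed words of the polygons with a small extent -/
lemma near_sum {f : ℕ → Fin 3 → ℂ} (hf : MS.Hex f) {n : ℕ} (hn : 3 ≤ n) (ho : ¬ Even n) {θ B : ℝ} (hθ : 0 ≤ θ) (hB : 0 ≤ B)
    (h : gf (Sm (n + 1) θ) ≤ ENNReal.ofReal B) :
    (((PGX.Pol f n).filter fun s => ∀ j, j ≤ n → ‖MS.pw f s j‖ ≤ θ).card : ℝ) ≤ 3 * POLP.mu ^ (n + 1) * B := by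
  classical
  have hx := xc_pos
  obtain ⟨G, hG⟩ : ∃ G : List Bool → ℝ, G = fun t => if ∀ j, j ≤ n →
    ((nrm (vx oo up t j - vx oo up t 0) : ℤ) : ℝ) ≤ θ ^ 2 then 1 else 0 := ⟨_, rfl⟩
  have hG0 : ∀ t, 0 ≤ G t := fun t => by
    rw [hG]
    dsimp only
    split_ifs <;> norm_num
  have h0 : ∀ s : Fin n → Fin 3, MS.pw f s 0 = 0 := by
    intro s
    unfold MS.pw
    rw [Finset.filter_false_of_mem (fun i _ => Nat.not_lt_zero _), Finset.sum_empty]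
  have h1 : ∑ s ∈ PGX.Pol f n, (if ∀ j, j ≤ n → ‖MS.pw f s j‖ ≤ θ then (1 : ℝ) else 0) =
      3 * ∑ t ∈ (POLP.PCy_fin (n + 1)).toFinset, G t := by
    refine POLP.sum_Pol hf hn ho _ _ fun s hs => ?_
    rw [hG]
    dsimp only
    have hs' := (Finset.mem_filter.1 hs).1
    congr 1
    rw [eq_iff_iff]
    constructor
    · intro h2 j hj
      rw [← POLP.dist_cw hf (by omega) hs' hj (Nat.zero_le _), h0, sub_zero]
      exact pow_le_pow_left₀ (norm_nonneg _) (h2 j hj) 2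
    · intro h2 j hj
      have h3 := h2 j hj
      rw [← POLP.dist_cw hf (by omega) hs' hj (Nat.zero_le _), h0, sub_zero] at h3
      exact le_of_sq_le_sq h3 hθ
  have h2 : (((PGX.Pol f n).filter fun s => ∀ j, j ≤ n → ‖MS.pw f s j‖ ≤ θ).card : ℝ) =
      3 * ∑ t ∈ (POLP.PCy_fin (n + 1)).toFinset, G t := by
    rw [← h1, Finset.sum_ite, Finset.sum_const_zero, add_zero, Finset.sum_const, nsmul_eq_mul, mul_one]
  have h3 := POLP.tsum_PCy (n + 1) G fun t _ => hG0 t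
  have hv0 : ∀ t : List Bool, vx oo up t 0 = 0 := fun t => rfl
  have h4 : ∑' t : POLP.PCy (n + 1), wE (t : List Bool) * ENNReal.ofReal (G t) ≤ gf (Sm (n + 1) θ) := by
    unfold gf
    rw [tsum_subtype (POLP.PCy (n + 1)) fun t => wE t * ENNReal.ofReal (G t), tsum_subtype (Sm (n + 1) θ) wE]
    refine ENNReal.tsum_le_tsum fun t => ?_
    by_cases ht : t ∈ POLP.PCy (n + 1)
    · rw [Set.indicator_of_mem ht]
      by_cases hj : ∀ j, j ≤ n → ((nrm (vx oo up t j - vx oo up t 0) : ℤ) : ℝ) ≤ θ ^ 2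
      · have hw : t ∈ Sm (n + 1) θ := by
          refine ⟨ht, fun j hj' => ?_⟩
          have h5 := hj j (by omega)
          rwa [hv0, sub_zero] at h5
        rw [Set.indicator_of_mem hw, hG]
        dsimp only
        rw [if_pos hj, ENNReal.ofReal_one, mul_one]
      · rw [hG]
        dsimp only
        rw [if_neg hj, ENNReal.ofReal_zero, mul_zero]
        exact zero_le
    · rw [Set.indicator_of_notMem ht]
      exact zero_le
  have h5 := h4.trans h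
  rw [h3, ENNReal.ofReal_le_ofReal_iff hB] at h5
  rw [h2]
  have e : ∑ t ∈ (POLP.PCy_fin (n + 1)).toFinset, G t =
      (xc ^ (n + 1) * ∑ t ∈ (POLP.PCy_fin (n + 1)).toFinset, G t) * POLP.mu ^ (n + 1) := by
    have := POLP.xc_mul_mu (n + 1)
    linear_combination (-(∑ t ∈ (POLP.PCy_fin (n + 1)).toFinset, G t)) * this
  have hm := POLP.mu_pos
  rw [e]
  calc 3 * ((xc ^ (n + 1) * ∑ t ∈ (POLP.PCy_fin (n + 1)).toFinset, G t) * POLP.mu ^ (n + 1))
      = 3 * POLP.mu ^ (n + 1) * (xc ^ (n + 1) * ∑ t ∈ (POLP.PCy_fin (n + 1)).toFinset, G t) := by ring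
    _ ≤ 3 * POLP.mu ^ (n + 1) * B := mul_le_mul_of_nonneg_left h5 (by positivity)

/-- **the small extents of the polygons**: smaller than any power -/
theorem small : ∀ q : ℝ, 0 ≤ q → ∃ C : ℝ, 0 < C ∧ ∀ f : ℕ → Fin 3 → ℂ, MS.Hex f → ∀ n : ℕ, 9 ≤ n → ¬ Even n →
    ∀ δ : ℝ, 0 < δ →
    (((PGX.Pol f n).filter fun s => ∀ j, j ≤ n → ‖MS.pw f s j‖ ≤ δ * (n : ℝ) ^ (3 / 4 : ℝ)).card : ℝ) ≤
      C * δ ^ q * ((PGX.Pol f n).card : ℝ) := by
  intro q hq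
  classical
  obtain ⟨B, hB, hS⟩ := sm_le
  have hB0 : 0 < B := by linarith
  obtain ⟨Q, hQ⟩ := exists_nat_ge ((q + 10 / 3) * (3 / 4))
  obtain ⟨A, hA, hS⟩ := hS Q
  obtain ⟨c, hc, hlow⟩ := cnt_low
  have hm := POLP.mu_pos
  obtain ⟨δ0, hδ0⟩ : ∃ δ0 : ℝ, δ0 = B ^ (-(3 / 4) : ℝ) := ⟨_, rfl⟩
  have hd0 : 0 < δ0 := by rw [hδ0]; positivity
  refine ⟨max (δ0 ^ (-q)) (6 * A * B ^ Q * POLP.mu / c), by positivity, fun f hf n hn ho δ hδ => ?_⟩
  have hn0 : (0 : ℝ) < n := by exact_mod_cast (by omega : 0 < n)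
  have hn1 : (1 : ℝ) ≤ n := by exact_mod_cast (by omega : 1 ≤ n)
  have hcard : (((PGX.Pol f n).filter fun s => ∀ j, j ≤ n → ‖MS.pw f s j‖ ≤ δ * (n : ℝ) ^ (3 / 4 : ℝ)).card : ℝ) ≤
      ((PGX.Pol f n).card : ℝ) := by exact_mod_cast Finset.card_le_card (Finset.filter_subset _ _)
  have hP0 : (0 : ℝ) ≤ ((PGX.Pol f n).card : ℝ) := Nat.cast_nonneg _
  rcases lt_or_ge δ0 δ with hbig | hsm
  · refine hcard.trans ?_
    have h1 : 1 ≤ δ0 ^ (-q) * δ ^ q := by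
      have h2 : δ0 ^ q ≤ δ ^ q := Real.rpow_le_rpow hd0.le hbig.le hq
      calc (1 : ℝ) = δ0 ^ (-q) * δ0 ^ q := by
            rw [← Real.rpow_add hd0]
            norm_num
        _ ≤ _ := by gcongr
    calc ((PGX.Pol f n).card : ℝ) ≤ δ0 ^ (-q) * δ ^ q * ((PGX.Pol f n).card : ℝ) := le_mul_of_one_le_left hP0 h1
      _ ≤ _ := by
          gcongr
          exact le_max_left _ _
  · obtain ⟨θ, hθ⟩ : ∃ θ : ℝ, θ = δ * (n : ℝ) ^ (3 / 4 : ℝ) := ⟨_, rfl⟩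
    have hθ0 : 0 < θ := by rw [hθ]; positivity
    rcases lt_or_ge θ 1 with hlt | hge
    · -- no polygon
      have h1 : ((PGX.Pol f n).filter fun s => ∀ j, j ≤ n → ‖MS.pw f s j‖ ≤ δ * (n : ℝ) ^ (3 / 4 : ℝ)) = ∅ := by
        rw [Finset.filter_eq_empty_iff]
        intro s _ h2
        have h3 := h2 1 (by omega)
        rw [← hθ] at h3
        have h0 : MS.pw f s 0 = 0 := by
          unfold MS.pw
          rw [Finset.filter_false_of_mem (fun i _ => Nat.not_lt_zero _), Finset.sum_empty]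
        have h4 : ‖MS.pw f s 1‖ = 1 := by
          have h5 : MS.pw f s 1 = f 0 (s ⟨0, by omega⟩) := by
            unfold MS.pw
            rw [Finset.sum_eq_single ⟨0, by omega⟩]
            · intro i hi hne
              exfalso
              apply hne
              have := (Finset.mem_filter.1 hi).2
              exact Fin.ext (by simpa using this)
            · intro h
              exact absurd (Finset.mem_filter.2 ⟨Finset.mem_univ (⟨0, by omega⟩ : Fin n), Nat.zero_lt_one⟩) h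
          rw [h5, hf]
          simp [Complex.norm_exp]
        linarith
      rw [h1, Finset.card_empty, Nat.cast_zero]
      positivity
    · obtain ⟨lam, hlam⟩ : ∃ lam : ℝ, lam = (B * δ ^ (4 / 3 : ℝ))⁻¹ := ⟨_, rfl⟩
      have hdp : 0 < δ ^ (4 / 3 : ℝ) := by positivity
      have hl0 : 0 < lam := by rw [hlam]; positivity
      have hl1 : 1 ≤ lam := by
        rw [hlam]
        refine (one_le_inv₀ (by positivity)).2 ?_
        have h1 : δ ^ (4 / 3 : ℝ) ≤ δ0 ^ (4 / 3 : ℝ) := Real.rpow_le_rpow hδ.le hsm (by norm_num)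
        have h2 : δ0 ^ (4 / 3 : ℝ) = B⁻¹ := by
          rw [hδ0, ← Real.rpow_mul hB0.le]
          norm_num
          rw [Real.rpow_neg_one]
        rw [h2] at h1
        calc B * δ ^ (4 / 3 : ℝ) ≤ B * B⁻¹ := by gcongr
          _ = 1 := mul_inv_cancel₀ hB0.ne'
      have hθ43 : θ ^ (4 / 3 : ℝ) = δ ^ (4 / 3 : ℝ) * n := by
        rw [hθ, Real.mul_rpow hδ.le (by positivity), ← Real.rpow_mul hn0.le]
        norm_num
      have h1 := hS (n + 1) θ lam (by omega) hge hl1 (by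
        rw [hθ43, hlam]
        push_cast
        have : (B * δ ^ (4 / 3 : ℝ))⁻¹ * (B * (δ ^ (4 / 3 : ℝ) * n)) = n := by field_simp
        rw [this]
        linarith)
      have h2 := near_sum hf (by omega) ho hθ0.le (by positivity) h1
      rw [← hθ]
      refine h2.trans ?_
      have h3 : θ ^ (-(10 / 3) : ℝ) = δ ^ (-(10 / 3) : ℝ) * (n : ℝ) ^ (-(5 / 2) : ℝ) := by
        rw [hθ, Real.mul_rpow hδ.le (by positivity), ← Real.rpow_mul hn0.le]
        norm_num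
      have h4 : (n : ℝ) ^ (-(5 / 2) : ℝ) * n = (n : ℝ) ^ (-(3 / 2) : ℝ) := by
        conv_lhs => rw [← Real.rpow_one (n : ℝ), ← Real.rpow_mul hn0.le, ← Real.rpow_add hn0]
        norm_num
      have h5 : (((n + 1 : ℕ) : ℝ)) ≤ 2 * n := by
        push_cast
        linarith
      have h6 := hlow f hf n hn ho
      have hδ1 : δ ≤ 1 := by
        refine hsm.trans ?_
        rw [hδ0]
        exact Real.rpow_le_one_of_one_le_of_nonpos hB (by norm_num)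
      have h7 : 1 / lam ^ Q * δ ^ (-(10 / 3) : ℝ) ≤ B ^ Q * δ ^ q := by
        have e1 : 1 / lam ^ Q = B ^ Q * (δ ^ (4 / 3 : ℝ)) ^ Q := by
          rw [hlam, inv_pow, mul_pow]
          field_simp
        rw [e1, mul_assoc]
        refine mul_le_mul_of_nonneg_left ?_ (by positivity)
        rw [← Real.rpow_natCast (δ ^ (4 / 3 : ℝ)) Q, ← Real.rpow_mul hδ.le, ← Real.rpow_add hδ]
        refine Real.rpow_le_rpow_of_exponent_ge hδ hδ1 ?_
        linarith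
      calc 3 * POLP.mu ^ (n + 1) * (A / lam ^ Q * (((n + 1 : ℕ) : ℝ) * θ ^ (-(10 / 3) : ℝ)))
          ≤ 3 * POLP.mu ^ (n + 1) * (A / lam ^ Q * ((2 * n) * θ ^ (-(10 / 3) : ℝ))) := by gcongr
        _ = 6 * A * POLP.mu * (1 / lam ^ Q * δ ^ (-(10 / 3) : ℝ)) * ((n : ℝ) ^ (-(5 / 2) : ℝ) * n * POLP.mu ^ n) := by
            rw [h3, pow_succ]
            ring
        _ ≤ 6 * A * POLP.mu * (B ^ Q * δ ^ q) * ((n : ℝ) ^ (-(5 / 2) : ℝ) * n * POLP.mu ^ n) := by gcongr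
        _ = 6 * A * B ^ Q * POLP.mu / c * δ ^ q * (c * (n : ℝ) ^ (-(3 / 2) : ℝ) * POLP.mu ^ n) := by
            rw [h4]
            field_simp
        _ ≤ 6 * A * B ^ Q * POLP.mu / c * δ ^ q * ((PGX.Pol f n).card : ℝ) := by gcongr
        _ ≤ _ := by
            gcongr
            exact le_max_right _ _

end PGS

end HexObs
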