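import Pool.Agent.PGS.MaxT
import Pool.Agent.NUCR.Target
import Pool.Agent.JNT.LocEM

/-!
PGS / TailE (helper51): the tail of the extent of the self-avoiding polygons with the factor n ^ (11 / 32), and the pieces.
-/

set_option autoImplicit false

open scoped Classical

namespace PGSE

open Finset

open SawNu (encHex hexL phiTri)


open Pool.Agent.NTS.Res (step pos saw)

lemma hexS : MS.Hex step := fun _ _ => rfl

lemma saw_SW (n : ℕ) : saw n = MS.SW step n := by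
  ext s
  rw [MS.mem_SW]
  unfold saw
  rw [Finset.mem_filter]
  exact ⟨fun h => h.2, fun h => ⟨Finset.mem_univ _, h⟩⟩

lemma pos_pw {n : ℕ} (s : Fin n → Fin 3) (k : ℕ) : pos s k = MS.pw step s k := rfl

/-- the end of a polygon is one of three points -/
lemma end3 {n : ℕ} (ho : ¬ Even n) {s : Fin n → Fin 3} (hs : s ∈ PGX.Pol step n) :
    ∃ p ∈ hexL.S false, MS.pw step s n = phiTri p := by
  obtain ⟨h1, h2⟩ := Finset.mem_filter.1 hs
  refine ⟨(encHex.word s).sum, ?_, (PGX.word_end hexS s).symm⟩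
  rw [PGX.sum_mem_iff (encHex.word_tw s) (by rw [encHex.word_length]; exact ho), PGX.word_end hexS]
  exact h2

/-- **the tail with the factor n ^ (11 / 32)** -/
theorem tailE : ∃ c C : ℝ, 0 < c ∧ 0 < C ∧ ∀ n : ℕ, 9 ≤ n → ¬ Even n → ∀ L : ℝ, 0 ≤ L →
    (((PGX.Pol step n).filter fun s => ∃ j, j ≤ n ∧ L * (n : ℝ) ^ (3 / 4 : ℝ) ≤ ‖MS.pw step s j‖).card : ℝ) ≤
      C * (n : ℝ) ^ (11 / 32 : ℝ) * Real.exp (-(c * L ^ 4)) * ((PGX.Pol step n).card : ℝ) := by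
  obtain ⟨c0, C0, hc0, hC0, h1, -⟩ := NTSZ.Loc.loc_twoE
  obtain ⟨c1, C1, hc1, h2⟩ := HexObs.POL.finC
  refine ⟨c0, 3 * C0 / c1, hc0, by positivity, fun n hn ho L hL => ?_⟩
  have hn0 : (0 : ℝ) < n := by exact_mod_cast (by omega : 0 < n)
  have hsaw : (0 : ℝ) < ((saw n).card : ℝ) := by
    have h3 := PGX.card_Pol_pos hexS hn ho
    have h4 : (PGX.Pol step n).card ≤ (saw n).card := by
      rw [saw_SW]
      exact Finset.card_le_card (Finset.filter_subset _ _)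
    exact_mod_cast lt_of_lt_of_le h3 h4
  obtain ⟨X, hX⟩ : ∃ X : ℝ, X = C0 * (n : ℝ) ^ (-(3 / 2) : ℝ) * Real.exp (-(c0 * L ^ 4)) * ((saw n).card : ℝ) := ⟨_, rfl⟩
  have hz : ∀ z : ℂ, (((saw n).filter fun s => pos s n = z ∧ ∃ j, j ≤ n ∧
      L * (n : ℝ) ^ (3 / 4 : ℝ) ≤ ‖pos s j‖).card : ℝ) ≤ X := by
    intro z
    have h3 := h1 n (by omega) z L hL
    unfold NTSZ.prb at h3
    rw [div_le_iff₀ hsaw] at h3
    rw [hX]
    refine le_trans (le_of_eq ?_) h3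
    congr
  have hsub : ((PGX.Pol step n).filter fun s => ∃ j, j ≤ n ∧ L * (n : ℝ) ^ (3 / 4 : ℝ) ≤ ‖MS.pw step s j‖) ⊆
      (hexL.S false).biUnion fun p => (saw n).filter fun s => pos s n = phiTri p ∧ ∃ j, j ≤ n ∧
        L * (n : ℝ) ^ (3 / 4 : ℝ) ≤ ‖pos s j‖ := by
    intro s hs
    obtain ⟨hs1, hs2⟩ := Finset.mem_filter.1 hs
    obtain ⟨p, hp, e⟩ := end3 ho hs1
    rw [Finset.mem_biUnion]
    refine ⟨p, hp, Finset.mem_filter.2 ⟨?_, e, hs2⟩⟩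
    rw [saw_SW]
    exact (Finset.mem_filter.1 hs1).1
  have h3 : (((PGX.Pol step n).filter fun s => ∃ j, j ≤ n ∧ L * (n : ℝ) ^ (3 / 4 : ℝ) ≤ ‖MS.pw step s j‖).card : ℝ) ≤
      3 * X := by
    have h4 := (Finset.card_le_card hsub).trans Finset.card_biUnion_le
    have h5 : (((PGX.Pol step n).filter fun s => ∃ j, j ≤ n ∧ L * (n : ℝ) ^ (3 / 4 : ℝ) ≤ ‖MS.pw step s j‖).card : ℝ) ≤
        ∑ p ∈ hexL.S false, (((saw n).filter fun s => pos s n = phiTri p ∧ ∃ j, j ≤ n ∧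
          L * (n : ℝ) ^ (3 / 4 : ℝ) ≤ ‖pos s j‖).card : ℝ) := by exact_mod_cast h4
    refine h5.trans ((Finset.sum_le_sum fun p _ => hz _).trans ?_)
    rw [Finset.sum_const, nsmul_eq_mul]
    have h6 : (hexL.S false).card = 3 := by decide
    rw [h6]
    norm_num
  refine h3.trans ?_
  have h7 := (h2 step hexS n hn ho).2.1
  rw [← saw_SW, le_div_iff₀ hsaw] at h7
  have h8 : (n : ℝ) ^ (-(3 / 2) : ℝ) = (n : ℝ) ^ (11 / 32 : ℝ) * (n : ℝ) ^ (-(59 / 32) : ℝ) := by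
    rw [← Real.rpow_add hn0]
    norm_num
  calc 3 * X = 3 * C0 / c1 * (n : ℝ) ^ (11 / 32 : ℝ) * Real.exp (-(c0 * L ^ 4)) *
        (c1 * (n : ℝ) ^ (-(59 / 32) : ℝ) * ((saw n).card : ℝ)) := by
        rw [hX, h8]
        field_simp
    _ ≤ _ := by gcongr

end PGSE
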