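import Pool.Agent.PGS.LitB
import Pool.Agent.POL.CloDefs
import Pool.Agent.POL.L3Sum

/-!
PGS / TdT (helper51): the tall narrow bridges with few letters, from the tall local lower bound.
-/

set_option autoImplicit false

namespace HexObs

namespace PGS

open Finset TS SDN NTA JNT RP POL

open scoped ENNReal

/-- the mass of a family of disjoint sets -/
lemma sum_fib {ι : Type} (I : Finset ι) (P : ι → Set (List Bool)) {G : Set (List Bool)}
    (hd : ∀ i ∈ I, ∀ j ∈ I, ∀ t, t ∈ P i → t ∈ P j → i = j) (hs : ∀ i ∈ I, P i ⊆ G) : ∑ i ∈ I, gf (P i) ≤ gf G := by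
  classical
  induction I using Finset.induction_on generalizing G with
  | empty => simp
  | insert a I ha ih =>
    rw [Finset.sum_insert ha]
    have h1 := ih (G := {t | t ∈ G ∧ t ∉ P a}) (fun i hi j hj => hd i (mem_insert_of_mem hi) j (mem_insert_of_mem hj))
      (fun i hi t ht => ⟨hs i (mem_insert_of_mem hi) ht, fun h2 => ha (by
        have := hd i (mem_insert_of_mem hi) a (mem_insert_self a I) t ht h2
        rwa [this] at hi)⟩)
    calc gf (P a) + ∑ i ∈ I, gf (P i) ≤ gf (P a) + gf {t | t ∈ G ∧ t ∉ P a} := by gcongr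
      _ = gf (P a ∪ {t | t ∈ G ∧ t ∉ P a}) := by
          rw [gf_union]
          rw [Set.disjoint_left]
          rintro t h2 ⟨-, h3⟩
          exact h3 h2
      _ ≤ gf G := gf_mono (by
          rintro t (h2 | h2)
          · exact hs a (mem_insert_self a I) h2
          · exact h2.1)

/-- **the tall narrow bridges with few letters** -/
theorem tdT {m : ℕ → ℝ} (hm : MLow m) (hNT : LowNarT m) : ∀ e v : ℝ, 0 < e → 0 < v → ∃ H0 : ℕ, ∀ H : ℕ, H0 ≤ H →
    ∃ (c : ℝ) (k0 : ℕ), 0 < c ∧ c ≤ 1 ∧ ∀ k J h : ℕ, k0 ≤ k → 1 ≤ J → J * (H * 2 ^ k) ≤ h → 2 * h ≤ 3 * (J * (H * 2 ^ k)) →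
      ENNReal.ofReal (c ^ J * Ub k) ≤ gf (TD m k h (e * J) v) := by
  intro e v he hv
  obtain ⟨H1, hH1⟩ := hNT (v / 40) (e / 2) e (by positivity) (by positivity) (by linarith)
  obtain ⟨H2, hH2⟩ := exists_nat_ge (2 * v)
  refine ⟨max H1 H2, fun H hH => ?_⟩
  obtain ⟨c, k1, hc, hc1, h1⟩ := hH1 H ((le_max_left _ _).trans hH)
  have hHv : 2 * v ≤ H := hH2.trans (by exact_mod_cast (le_max_right _ _).trans hH)
  obtain ⟨q, hq⟩ : ∃ q : ℝ, q = v / 2 * (v / 160) * (e / 8) := ⟨_, rfl⟩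
  have hq0 : 0 < q := by rw [hq]; positivity
  obtain ⟨k2, hk2⟩ := pow_unbounded_of_one_lt (2 / v + 160 / v + 8 / (e * m 0)) (by norm_num : (1 : ℝ) < 2)
  have hm0 := hm.pos 0
  refine ⟨min q 1 * c, max k1 k2, by positivity, mul_le_one₀ (min_le_right _ _) hc.le hc1,
    fun k J h hk hJ hh1 hh2 => ?_⟩
  have hkk1 : k1 ≤ k := (le_max_left _ _).trans hk
  have hkk2 : k2 ≤ k := (le_max_right _ _).trans hk
  have hmk := hm.pos k
  have hUk := Ub_pos k
  have hJR : (1 : ℝ) ≤ J := by exact_mod_cast hJ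
  have hpk : (0 : ℝ) < 2 ^ k := by positivity
  have hp2 : 2 / v + 160 / v + 8 / (e * m 0) ≤ 2 ^ k := hk2.le.trans (pow_le_pow_right₀ (by norm_num) hkk2)
  have r1 : 0 < 2 / v := by positivity
  have r2 : 0 < 160 / v := by positivity
  have r3 : 0 < 8 / (e * m 0) := by positivity
  have b1 : 2 ≤ v * 2 ^ k := by
    have : 2 / v ≤ 2 ^ k := by linarith
    rw [div_le_iff₀ hv] at this
    linarith
  have b2 : 160 ≤ v * 2 ^ k := by
    have : 160 / v ≤ 2 ^ k := by linarith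
    rw [div_le_iff₀ hv] at this
    linarith
  have b3 : 8 ≤ e * m k := by
    have h3 : 8 / (e * m 0) ≤ 2 ^ k := by linarith
    rw [div_le_iff₀ (by positivity)] at h3
    have h4 := hm.low 0 k
    rw [zero_add] at h4
    have h5 : (2 : ℝ) ^ k ≤ (2 : ℝ) ^ (5 / 4 * (k : ℝ)) := by
      rw [← Real.rpow_natCast]
      refine Real.rpow_le_rpow_of_exponent_le (by norm_num) ?_
      have : (0 : ℝ) ≤ k := Nat.cast_nonneg k
      linarith
    have h6 : 2 ^ k * m 0 ≤ m k := (mul_le_mul_of_nonneg_right h5 hm0.le).trans h4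
    nlinarith
  obtain ⟨M, hM⟩ : ∃ M : ℝ, M = J * (e * m k) / 4 := ⟨_, rfl⟩
  have hM2 : 2 ≤ M := by
    rw [hM]
    nlinarith
  obtain ⟨n1, hn1⟩ : ∃ n1 : ℕ, n1 = ⌊v * 2 ^ k⌋₊ := ⟨_, rfl⟩
  obtain ⟨n2, hn2⟩ : ∃ n2 : ℕ, n2 = ⌊v / 80 * 2 ^ k⌋₊ := ⟨_, rfl⟩
  obtain ⟨n3, hn3⟩ : ∃ n3 : ℕ, n3 = ⌊M⌋₊ := ⟨_, rfl⟩
  obtain ⟨c0, hc0⟩ : ∃ c0 : ℕ, c0 = ⌈M⌉₊ := ⟨_, rfl⟩
  have f1 : (n1 : ℝ) ≤ v * 2 ^ k := by rw [hn1]; exact Nat.floor_le (by positivity)
  have f1' : v / 2 * 2 ^ k ≤ n1 := by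
    have := Nat.lt_floor_add_one (v * 2 ^ k)
    rw [← hn1] at this
    linarith
  have f2 : (n2 : ℝ) ≤ v / 80 * 2 ^ k := by rw [hn2]; exact Nat.floor_le (by positivity)
  have f2' : v / 160 * 2 ^ k ≤ n2 := by
    have := Nat.lt_floor_add_one (v / 80 * 2 ^ k)
    rw [← hn2] at this
    linarith
  have f3 : (n3 : ℝ) ≤ M := by rw [hn3]; exact Nat.floor_le (by linarith)
  have f3' : e / 8 * m k ≤ n3 := by
    have h3 := Nat.lt_floor_add_one M
    rw [← hn3] at h3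
    have h4 : e / 4 * m k ≤ M := by
      rw [hM]
      nlinarith [mul_pos he hmk]
    linarith
  have f4 : M ≤ c0 := by rw [hc0]; exact Nat.le_ceil M
  have f4' : (c0 : ℝ) ≤ M + 1 := by
    rw [hc0]
    exact (Nat.ceil_lt_add_one (by linarith)).le
  obtain ⟨Pf, hPf⟩ : ∃ Pf : ℕ × ℕ × ℕ → Set (List Bool), Pf = fun p =>
    {Z | Z ∈ EndB (h + p.1) (2 * p.2.1 + ((h + p.1) % 2 : ℕ)) ∧ Z.length = 2 * (c0 + p.2.2) ∧
      ∀ i, i ≤ Z.length → |(lat Z i : ℝ)| ≤ 40 * (v / 40) * 2 ^ k} := ⟨_, rfl⟩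
  have hsum := sum_fib (range n1 ×ˢ (range n2 ×ˢ range n3)) Pf (G := TD m k h (e * J) v) ?_ ?_
  · refine le_trans ?_ hsum
    have hone : ∀ p ∈ range n1 ×ˢ (range n2 ×ˢ range n3), ENNReal.ofReal (c ^ J * (Ub k / (4 ^ k * m k))) ≤ gf (Pf p) := by
      rintro ⟨i, y, z⟩ hp
      simp only [mem_product, mem_range] at hp
      obtain ⟨hi, hy, hz⟩ := hp
      rw [hPf]
      simp only
      have hiR : (i : ℝ) + 1 ≤ n1 := by exact_mod_cast hi
      have hyR : (y : ℝ) + 1 ≤ n2 := by exact_mod_cast hy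
      have hzR : (z : ℝ) + 1 ≤ n3 := by exact_mod_cast hz
      obtain ⟨r, hr⟩ : ∃ r : ℕ, r = (h + i) % 2 := ⟨_, rfl⟩
      rw [← hr]
      have hmodR : (r : ℝ) ≤ 1 := by exact_mod_cast (by omega : r ≤ 1)
      refine h1 k J (h + i) (2 * (c0 + z)) _ hkk1 hJ (by omega) ?_ ?_ ?_ (even_two_mul _) ?_ ?_
      · have h3 : 2 * n1 ≤ H * 2 ^ k := by
          have h4 : (2 : ℝ) * n1 ≤ H * 2 ^ k := by nlinarith
          exact_mod_cast h4
        have h5 : H * 2 ^ k ≤ J * (H * 2 ^ k) := Nat.le_mul_of_pos_left _ (by omega)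
        omega
      · rw [Int.even_iff]
        omega
      · push_cast
        have h3 : (0 : ℝ) ≤ y := Nat.cast_nonneg y
        have h4 : (0 : ℝ) ≤ (r : ℝ) := Nat.cast_nonneg _
        rw [abs_of_nonneg (by linarith)]
        linarith
      · push_cast
        have h3 : (0 : ℝ) ≤ z := Nat.cast_nonneg z
        have e1 : (J : ℝ) * (e / 2 * m k) = 2 * M := by rw [hM]; ring
        rw [e1]
        linarith
      · push_cast
        have e1 : (J : ℝ) * (e * m k) = 4 * M := by rw [hM]; ring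
        rw [e1]
        linarith
    refine le_trans ?_ (Finset.sum_le_sum hone)
    rw [Finset.sum_const, nsmul_eq_mul, card_product, card_product, card_range, card_range, card_range,
      ← ENNReal.ofReal_natCast, ← ENNReal.ofReal_mul (Nat.cast_nonneg _)]
    apply ENNReal.ofReal_le_ofReal
    push_cast
    have hn : q * (4 ^ k * m k) ≤ (n1 : ℝ) * (n2 * n3) := by
      have e4 : (4 : ℝ) ^ k = 2 ^ k * 2 ^ k := by
        rw [← mul_pow]
        norm_num
      calc q * (4 ^ k * m k) = (v / 2 * 2 ^ k) * ((v / 160 * 2 ^ k) * (e / 8 * m k)) := by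
            rw [hq, e4]
            ring
        _ ≤ _ := by gcongr
    have hmin : (min q 1) ^ J ≤ q := by
      calc (min q 1) ^ J ≤ (min q 1) ^ 1 := pow_le_pow_of_le_one (by positivity) (min_le_right _ _) hJ
        _ ≤ q := by rw [pow_one]; exact min_le_left _ _
    have hcJ : 0 < c ^ J := by positivity
    calc (min q 1 * c) ^ J * Ub k = (min q 1) ^ J * (c ^ J * Ub k) := by rw [mul_pow]; ring
      _ ≤ q * (c ^ J * Ub k) := by gcongr
      _ = q * (4 ^ k * m k) * (c ^ J * (Ub k / (4 ^ k * m k))) := by field_simp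
      _ ≤ _ := by gcongr
  · rintro ⟨i, y, z⟩ - ⟨i', y', z'⟩ - t ht ht'
    rw [hPf] at ht ht'
    simp only [Set.mem_setOf_eq] at ht ht'
    obtain ⟨⟨g1, g2⟩, g3, -⟩ := ht
    obtain ⟨⟨g1', g2'⟩, g3', -⟩ := ht'
    have e1 := hgt_eq g1
    have e1' := hgt_eq g1'
    have a1 : i = i' := by omega
    subst a1
    rw [g2] at g2'
    have a2 : y = y' := by omega
    have a3 : z = z' := by omega
    rw [a2, a3]
  · rintro ⟨i, y, z⟩ hp t ht
    simp only [mem_product, mem_range] at hp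
    obtain ⟨hi, hy, hz⟩ := hp
    rw [hPf] at ht
    simp only [Set.mem_setOf_eq] at ht
    obtain ⟨⟨g1, g2⟩, g3, g4⟩ := ht
    have hiR : (i : ℝ) + 1 ≤ n1 := by exact_mod_cast hi
    have hzR : (z : ℝ) + 1 ≤ n3 := by exact_mod_cast hz
    refine ⟨⟨_, g1⟩, by rw [hgt_eq g1]; omega, ?_, fun j hj => ?_, ?_⟩
    · rw [hgt_eq g1]
      push_cast
      linarith
    · refine (g4 j hj).trans (le_of_eq ?_)
      ring
    · rw [g3]
      push_cast
      have e1 : e * (J : ℝ) * m k = 4 * M := by rw [hM]; ring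
      rw [e1]
      linarith

end PGS

end HexObs
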