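import Pool.Agent.PGS.Leaf

/-!
PGS / UpA (helper51): the layers of the extent for closed words with few letters: many leaves, few leaves at the next scale.
-/

set_option autoImplicit false

namespace HexObs

namespace PGS

open Finset TS SDN NTW NTA SIM JNT POL

open scoped ENNReal Classical

/-- linear against exponential -/
lemma lin2 (a : ℕ) : ∃ n0 : ℕ, ∀ n, n0 ≤ n → a * n + a ≤ 2 ^ n := by
  refine ⟨(2 * a + 2) * (2 * a + 2) + a, fun n hn => ?_⟩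
  have h1 := lin_exp (2 * a + 2) n
  have h3 : (2 * a + 2) * n = a * n + a * n + 2 * n := by ring
  omega

/-- the exponents of the two powers -/
lemma expo {r r0 v a : ℕ} (hr : r0 + 1 ≤ r) : ∃ i1 : ℕ, ∀ i k : ℕ, i1 ≤ i → 2 ^ (4 * i - r0) ≤ k →
    2 ^ v * 2 ^ (4 * i - (r + v)) = 2 ^ (4 * i - r) ∧ a * i + a ≤ 2 ^ (4 * i - (r + v)) ∧
    2 * 2 ^ (4 * i - (r0 + 1)) ≤ k ∧ 2 * 2 ^ (4 * i - r) ≤ k := by
  obtain ⟨n0, hn0⟩ := lin2 a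
  refine ⟨n0 + r + v + 1, fun i k hi hk => ⟨?_, ?_, ?_, ?_⟩⟩
  · rw [← pow_add]
    congr 1
    omega
  · exact (hn0 i (by omega)).trans (Nat.pow_le_pow_right (by norm_num) (by omega))
  · rw [← pow_succ']
    exact le_trans (Nat.pow_le_pow_right (by norm_num) (by omega)) hk
  · rw [← pow_succ']
    exact le_trans (Nat.pow_le_pow_right (by norm_num) (by omega)) hk

/-- a real power against a power of two -/
lemma pow_half {x : ℝ} {y P Q a : ℕ} (h0 : 0 ≤ x) (hx : x ≤ 2 ^ y) (h : y * P + a ≤ Q) :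
    x ^ P * (1 / 2) ^ Q ≤ (1 / 2) ^ a := by
  obtain ⟨b, rfl⟩ := Nat.exists_eq_add_of_le h
  calc x ^ P * (1 / 2) ^ (y * P + a + b) ≤ (2 ^ y) ^ P * (1 / 2) ^ (y * P + a + b) := by gcongr
    _ = (1 / 2) ^ a * (1 / 2) ^ b := by
        rw [← pow_mul, pow_add, pow_add]
        rw [← mul_assoc, ← mul_assoc, ← mul_pow]
        norm_num
    _ ≤ (1 / 2) ^ a * 1 := by
        gcongr
        exact pow_le_one₀ (by norm_num) (by norm_num)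
    _ = _ := mul_one _

/-- **many leaves at the scale B - 1, few letters** -/
theorem layA2 (hNA : NormAll) (r0 : ℕ) : ∃ (M c8 i0 : ℕ) (A : ℝ), 1 ≤ A ∧ ∀ N k i : ℕ, 1 ≤ N → i0 ≤ i →
    3 * i + i0 ≤ k → 2 ^ (4 * i - r0) ≤ k → (N : ℝ) < mM (k + 1) →
    gf (RotC N (k + i) (HRf (k + i - 6) (WinR (k + i - 6) 6 M (Sgl (k + i - 6) 6) (SglN (k + i - 6) 6 N)))) ≤
      ENNReal.ofReal (A * (1 / 2) ^ (2 ^ (4 * i - c8)) * (N / w4 mM (k + i))) := by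
  obtain ⟨s3, M, k0, C, hC, hM, h⟩ := master hNA req rootRun
  obtain ⟨Kb, hKb, hbox⟩ := EN.smD_box
  obtain ⟨K, r, c2, hK, hr, hnorm⟩ := FIS.ts_norm mlo_M mhi_M EN.asm_M 4 (r0 + 1)
  have hC0 : 0 < C := by linarith
  have hK0 : 0 < K := by linarith
  have hKb0 : 0 < Kb := by linarith
  obtain ⟨y, hy⟩ : ∃ y : ℕ, C ≤ 2 ^ y := pow_unbounded_of_one_lt C (by norm_num : (1 : ℝ) < 2) |>.imp fun _ h => h.le
  obtain ⟨v, hv⟩ : ∃ v : ℕ, v = y + s3 + 4 := ⟨_, rfl⟩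
  obtain ⟨i1, hi1⟩ := expo (r := r) (r0 := r0) (v := v) (a := 3) hr
  obtain ⟨A, hA⟩ : ∃ A : ℝ, A = C ^ 6 * K + C ^ 7 * (Kb * 2 ^ 6 + K) := ⟨_, rfl⟩
  have hA1 : 1 ≤ A := by
    have h1 : 1 ≤ C ^ 6 * K := one_le_mul_of_one_le_of_one_le (one_le_pow₀ hC) hK
    have h2 : 0 ≤ C ^ 7 * (Kb * 2 ^ 6 + K) := by positivity
    rw [hA]
    linarith
  refine ⟨M, r + v, i1 + k0 + 4 * c2 + 2 * s3 + 20, A, hA1, fun N k i hN hi hk hk2 hNm => ?_⟩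
  obtain ⟨e1, e2, e3, e4⟩ := hi1 i k (by omega) hk2
  obtain ⟨kc, hkc⟩ : ∃ kc, kc = k + i - 6 := ⟨_, rfl⟩
  have hB : k + i = kc + 6 := by omega
  have hNR : (0 : ℝ) < N := by exact_mod_cast hN
  obtain ⟨P, hP⟩ : ∃ P : ℕ, P = 2 ^ (4 * i - (r + v)) := ⟨_, rfl⟩
  obtain ⟨Q, hQ⟩ : ∃ Q : ℕ, Q = 2 ^ (4 * i - r) := ⟨_, rfl⟩
  rw [← hP, ← hQ] at e1
  rw [← hP] at e2
  rw [← hQ] at e4
  have hv2 : y + s3 + 5 ≤ 2 ^ v := by
    have : v < 2 ^ v := Nat.lt_two_pow_self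
    omega
  have hPQ : (y + s3 + 5) * P ≤ Q := by
    rw [← e1]
    exact Nat.mul_le_mul_right _ hv2
  have hPQ' : y * P + s3 * P + 5 * P ≤ Q := by
    have : (y + s3 + 5) * P = y * P + s3 * P + 5 * P := by ring
    omega
  -- the norm
  obtain ⟨d2, hd2⟩ : ∃ d2 : ℝ, d2 = K * 8 ^ (0 + i) * (1 / 2) ^ Q := ⟨_, rfl⟩
  have hd20 : 0 < d2 := by rw [hd2]; positivity
  have hS2 : SmR DmJ kc (SglN kc 6 N) d2 := by
    have h1 := hnorm k i N kc 0 (by omega) (by omega) (by omega) hNm (by omega) (by omega)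
    rw [← hQ, ← hd2] at h1
    refine smR_single (QF.SmD_mono ?_ h1)
    rintro g ⟨⟨n, a1, a2, a3⟩, a4⟩
    refine ⟨⟨n, a1, a2.trans (Nat.pow_le_pow_right (by norm_num) (by omega)), a3⟩, ?_, a4⟩
    rw [hgt_eq a3]
    exact le_trans (Nat.pow_le_pow_right (by norm_num) (by omega)) a1
  have hS1 : SmR DmJ kc (Sgl kc 6) (Kb * 2 ^ 6) := by
    have h1 := smR_single (hbox kc 6)
    refine NTA.SmR_mono ?_ h1
    rintro r ⟨g, rfl, hg⟩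
    exact ⟨g, hg, rfl⟩
  rw [← hkc, ← hP, hB]
  have hs3 : s3 * (P + 1) ≤ kc := by
    have : s3 * (P + 1) = s3 * P + s3 := by ring
    omega
  refine (h N kc 6 P (Sgl kc 6) (SglN kc 6 N) (Kb * 2 ^ 6) d2 hN (by omega) le_rfl (by omega) hs3
    (by positivity) hd20 hS1 hS2).trans (ENNReal.ofReal_le_ofReal ?_)
  have hw := w4_pos mlow_M (kc + 6)
  have f8 : (8 : ℝ) ^ (0 + i) ≤ 2 ^ P := by
    rw [Nat.zero_add, show (8 : ℝ) = 2 ^ 3 by norm_num, ← pow_mul]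
    exact pow_le_pow_right₀ (by norm_num) (by omega)
  have g1 : C ^ P * (8 ^ (0 + i) * (1 / 2) ^ Q) ≤ (1 / 2) ^ P := by
    have a1 : C ^ P * (8 ^ (0 + i) * (1 / 2) ^ Q) ≤ (C * 2) ^ P * (1 / 2) ^ Q := by
      calc C ^ P * (8 ^ (0 + i) * (1 / 2) ^ Q) ≤ C ^ P * (2 ^ P * (1 / 2) ^ Q) := by gcongr
        _ = (C * 2) ^ P * (1 / 2) ^ Q := by rw [mul_pow]; ring
    refine a1.trans (pow_half (y := y + 1) (by positivity) ?_ ?_)
    · rw [pow_succ]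
      gcongr
    · have : (y + 1) * P = y * P + P := by ring
      omega
  have g2 : d2 ≤ K := by
    have a1 : (8 : ℝ) ^ (0 + i) * (1 / 2) ^ Q ≤ 1 := by
      have a2 : (8 : ℝ) ^ (0 + i) * (1 / 2) ^ Q ≤ 2 ^ P * (1 / 2) ^ Q := by gcongr
      have a3 := pow_half (x := 2) (y := 1) (P := P) (Q := Q) (a := 0) (by norm_num) (by norm_num) (by omega)
      rw [pow_zero] at a3
      exact a2.trans a3
    calc d2 = K * (8 ^ (0 + i) * (1 / 2) ^ Q) := by rw [hd2]; ring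
      _ ≤ K * 1 := by gcongr
      _ = K := mul_one _
  have g3 : C ^ (6 + P) * d2 ≤ C ^ 6 * K * (1 / 2) ^ P := by
    calc C ^ (6 + P) * d2 = C ^ 6 * K * (C ^ P * (8 ^ (0 + i) * (1 / 2) ^ Q)) := by rw [hd2, pow_add]; ring
      _ ≤ _ := by gcongr
  have g4 : C ^ (6 + 1) / 2 ^ P * (Kb * 2 ^ 6 + d2) ≤ C ^ 7 * (Kb * 2 ^ 6 + K) * (1 / 2) ^ P := by
    calc C ^ (6 + 1) / 2 ^ P * (Kb * 2 ^ 6 + d2) ≤ C ^ (6 + 1) / 2 ^ P * (Kb * 2 ^ 6 + K) := by gcongr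
      _ = _ := by
          rw [one_div, inv_pow]
          ring
  calc (C ^ (6 + P) * d2 + C ^ (6 + 1) / 2 ^ P * (Kb * 2 ^ 6 + d2)) * (N / w4 mM (kc + 6))
      ≤ (C ^ 6 * K * (1 / 2) ^ P + C ^ 7 * (Kb * 2 ^ 6 + K) * (1 / 2) ^ P) * (N / w4 mM (kc + 6)) := by gcongr
    _ = A * (1 / 2) ^ P * (N / w4 mM (kc + 6)) := by rw [hA]; ring

end PGS

end HexObs
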