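import Pool.Agent.PGS.UpA

/-!
PGS / UpB (helper51): closed words with few letters: few leaves at the next scale.
-/

set_option autoImplicit false

namespace HexObs

namespace PGS

open Finset TS SDN NTW NTA SIM JNT POL

open scoped ENNReal Classical

/-- the norm of the tall leaves, by the height only -/
lemma rtn_tall {Kt : ℝ} {st : ℕ} (htall : ∀ k V : ℕ,
    SmD DmJ k {g | g ∈ SDN.CL (k + 5 + 1) ∧ g ∈ HB (2 ^ (k + 4)) ∧ V * 2 ^ (k + st) ≤ hgt g} (Kt / 4 ^ V)) {kc J c N : ℕ}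
    (hc : 2 ≤ c) : SmR DmJ kc (RTn kc J c N) (Kt / 4 ^ (2 ^ (J - st) / c)) := by
  refine NTA.SmR_mono ?_ (rTt_norm htall (kc := kc) (J := J) hc)
  rintro gs ⟨g, ⟨h1, h2⟩, h3⟩
  exact ⟨g, h1, h3⟩

/-- **many leaves at the scale B - J + 5, few leaves at the next scale, few letters** -/
theorem layB2 (hNA : NormAll2) (r0 : ℕ) : ∃ M2 q : ℕ, 1 ≤ M2 ∧ 2 ≤ q ∧ ∀ Mb : ℕ, M2 ≤ Mb → ∃ (c8 i0 : ℕ) (A : ℝ), 1 ≤ A ∧
    ∀ N k i J : ℕ, 1 ≤ N → i0 ≤ i → 3 * i + i0 ≤ k → 2 ^ (4 * i - r0) ≤ k → (N : ℝ) < mM (k + 1) → 6 ≤ J →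
    i0 + 2 * (q * J) ≤ k + i →
    gf (RotC N (k + i) (HRm (k + i - J) (TlR M2 (RTn (k + i - J) J (8 * (2 * Mb + 10) ^ 2) N)))) ≤
      ENNReal.ofReal (A * (1 / 2) ^ (2 ^ (4 * i - c8)) * (N / w4 mM (k + i)) * (1 / 2) ^ J) := by
  obtain ⟨s3, M, k0, C, hC, hM, h⟩ := master2 hNA req rootRun rootRunM
  obtain ⟨Kt, st, hKt, htall⟩ := tall_coarse 1
  have hC0 : 0 < C := by linarith
  have hKt0 : 0 < Kt := by linarith
  obtain ⟨y, hy⟩ : ∃ y : ℕ, C ≤ 2 ^ y := pow_unbounded_of_one_lt C (by norm_num : (1 : ℝ) < 2) |>.imp fun _ h => h.le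
  obtain ⟨L, hLd⟩ : ∃ L : ℕ, L = 2 * y + 1 := ⟨_, rfl⟩
  refine ⟨M + 2, s3 * (L + 1) + 2, by omega, by omega, fun Mb hMb => ?_⟩
  obtain ⟨c, hc⟩ : ∃ c, c = 8 * (2 * Mb + 10) ^ 2 := ⟨_, rfl⟩
  have hc2 : 2 ≤ c := by
    rw [hc]
    have : 1 ≤ (2 * Mb + 10) ^ 2 := Nat.one_le_pow _ _ (by omega)
    omega
  rw [← hc]
  obtain ⟨K, r, c2, hK, hr, hnorm⟩ := FIS.ts_norm mlo_M mhi_M EN.asm_M c (r0 + 1)
  have hK0 : 0 < K := by linarith
  obtain ⟨z, hz⟩ : ∃ z : ℕ, z = y * (1 + L) + 4 := ⟨_, rfl⟩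
  obtain ⟨v, hv⟩ : ∃ v : ℕ, v = y + s3 + z + 5 := ⟨_, rfl⟩
  obtain ⟨i1, hi1⟩ := expo (r := r) (r0 := r0) (v := v) (a := 3) hr
  have hx1 : 1 ≤ (2 * C) ^ (1 + L) * (2 * C) ^ (2 * z) := by
    have h1 : 1 ≤ 2 * C := by linarith
    exact one_le_mul_of_one_le_of_one_le (one_le_pow₀ h1) (one_le_pow₀ h1)
  obtain ⟨A, hA, hdx⟩ := dexp hx1 (le_refl 1) (show 1 ≤ c by omega) st
  refine ⟨r + v, i1 + k0 + 4 * c2 + 4 * s3 + 20, K + A * Kt + 1, by nlinarith,
    fun N k i J hN hi hk hk2 hNm hJ hJB => ?_⟩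
  obtain ⟨e1, e2, e3, e4⟩ := hi1 i k (by omega) hk2
  have hNR : (0 : ℝ) < N := by exact_mod_cast hN
  obtain ⟨P, hP⟩ : ∃ P : ℕ, P = 2 ^ (4 * i - (r + v)) := ⟨_, rfl⟩
  obtain ⟨Q, hQ⟩ : ∃ Q : ℕ, Q = 2 ^ (4 * i - r) := ⟨_, rfl⟩
  rw [← hP, ← hQ] at e1
  rw [← hP] at e2
  rw [← hQ] at e4
  have hv2 : 2 * (y + s3 + z + 5) ≤ 2 ^ v := by
    have : v - 1 < 2 ^ (v - 1) := Nat.lt_two_pow_self
    have h2 : 2 ^ v = 2 * 2 ^ (v - 1) := by
      rw [← pow_succ']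
      congr 1
      omega
    omega
  have hPQ : 2 * (y + s3 + z + 5) * P ≤ Q := by
    rw [← e1]
    exact Nat.mul_le_mul_right _ hv2
  have hPQ' : 2 * (y * P) + 2 * (s3 * P) + 2 * (z * P) + 10 * P ≤ Q := by
    have : 2 * (y + s3 + z + 5) * P = 2 * (y * P) + 2 * (s3 * P) + 2 * (z * P) + 10 * P := by ring
    omega
  have hJB' : 2 * (s3 * (L * J)) + 2 * (s3 * J) + 4 * J ≤ k + i := by
    have : 2 * ((s3 * (L + 1) + 2) * J) = 2 * (s3 * (L * J)) + 2 * (s3 * J) + 4 * J := by ring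
    omega
  have hs3J : s3 ≤ s3 * J := Nat.le_mul_of_pos_right _ (by omega)
  have hJz : J ≤ z * J := Nat.le_mul_of_pos_left _ (by omega)
  obtain ⟨kc, hkc⟩ : ∃ kc, k + i = kc + J := ⟨k + i - J, by omega⟩
  rw [hkc, Nat.add_sub_cancel, ← hP]
  obtain ⟨D0, hD0⟩ : ∃ D0, D0 = L * J + P := ⟨_, rfl⟩
  have hD1 : 1 ≤ D0 := by
    have : 1 ≤ P := by rw [hP]; exact Nat.one_le_two_pow
    omega
  have hD2 : s3 * (D0 + 1) ≤ kc := by
    have : s3 * (D0 + 1) = s3 * (L * J) + s3 * P + s3 := by rw [hD0]; ring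
    omega
  have hw := w4_pos mlow_M (kc + J)
  -- the second term
  have g4 : C ^ (J + 1) / 2 ^ D0 ≤ (1 / 2) ^ J * (1 / 2) ^ P := by
    have h1 : C ^ (J + 1) / 2 ^ D0 = C ^ (J + 1) * (1 / 2) ^ (L * J) * (1 / 2) ^ P := by
      rw [hD0, one_div, inv_pow, inv_pow, pow_add 2]
      field_simp
    rw [h1]
    have h2 : C ^ (J + 1) * (1 / 2) ^ (L * J) ≤ (1 / 2) ^ J := by
      refine pow_half hC0.le hy ?_
      have h3 : y * (J + 1) + J ≤ y * (2 * J) + J := by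
        have : y * (J + 1) ≤ y * (2 * J) := Nat.mul_le_mul_left _ (by omega)
        omega
      refine h3.trans (le_of_eq ?_)
      rw [hLd]
      ring
    gcongr
  -- the first term
  have main : ∃ dT : ℝ, 0 < dT ∧ SmR DmJ kc (RTn kc J c N) dT ∧
      C ^ (J + D0) * dT ≤ (K + A * Kt) * ((1 / 2) ^ J * (1 / 2) ^ P) := by
    rcases Nat.lt_or_ge Q (2 * (z * J)) with hcase | hcase
    · -- the height is enough
      refine ⟨Kt / 4 ^ (2 ^ (J - st) / c), by positivity, rtn_tall htall hc2, ?_⟩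
      have hdJ := hdx J
      rw [Nat.div_one] at hdJ
      have hPJ : P ≤ 2 * (z * J) := by omega
      have h1 : C ^ (J + D0) ≤ ((2 * C) ^ (1 + L) * (2 * C) ^ (2 * z)) ^ J * ((1 / 2) ^ J * (1 / 2) ^ P) := by
        have h2 : C ^ (J + D0) = (C ^ (1 + L)) ^ J * C ^ P := by
          rw [← pow_mul, ← pow_add, hD0]
          congr 1
          ring
        have h3 : C ^ P * 2 ^ P ≤ ((2 * C) ^ (2 * z)) ^ J := by
          rw [← mul_pow, mul_comm C 2, ← pow_mul]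
          refine pow_le_pow_right₀ (by linarith) ?_
          have : 2 * z * J = 2 * (z * J) := by ring
          omega
        have h4 : (C ^ (1 + L)) ^ J * 2 ^ J ≤ ((2 * C) ^ (1 + L)) ^ J := by
          rw [← mul_pow]
          refine pow_le_pow_left₀ (by positivity) ?_ J
          rw [mul_pow, mul_comm]
          refine mul_le_mul_of_nonneg_right ?_ (by positivity)
          calc (2 : ℝ) = 2 ^ 1 := (pow_one _).symm
            _ ≤ 2 ^ (1 + L) := pow_le_pow_right₀ (by norm_num) (by omega)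
        rw [h2, mul_pow ((2 * C) ^ (1 + L))]
        calc (C ^ (1 + L)) ^ J * C ^ P = ((C ^ (1 + L)) ^ J * 2 ^ J) * (C ^ P * 2 ^ P) * ((1 / 2) ^ J * (1 / 2) ^ P) := by
              rw [one_div, inv_pow, inv_pow]
              field_simp
          _ ≤ _ := by gcongr
      calc C ^ (J + D0) * (Kt / 4 ^ (2 ^ (J - st) / c))
          ≤ (((2 * C) ^ (1 + L) * (2 * C) ^ (2 * z)) ^ J * ((1 / 2) ^ J * (1 / 2) ^ P)) *
            (Kt / 4 ^ (2 ^ (J - st) / c)) := by gcongr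
        _ ≤ ((A * 4 ^ (2 ^ (J - st) / c)) * ((1 / 2) ^ J * (1 / 2) ^ P)) * (Kt / 4 ^ (2 ^ (J - st) / c)) := by gcongr
        _ = A * Kt * ((1 / 2) ^ J * (1 / 2) ^ P) := by field_simp
        _ ≤ _ := by
            refine mul_le_mul_of_nonneg_right ?_ (by positivity)
            linarith
    · -- few letters
      refine ⟨K * 8 ^ (J + i) * (1 / 2) ^ Q, by positivity, ?_, ?_⟩
      · have h1 := hnorm k i N kc J (by omega) (by omega) (by omega) hNm (by omega) (by omega)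
        rw [← hQ] at h1
        refine smR_single (QF.SmD_mono ?_ h1)
        rintro g ⟨⟨a0, a1⟩, ⟨n, a2, a3, a4⟩, a5⟩
        refine ⟨⟨n, a2, a3.trans (Nat.pow_le_pow_right (by norm_num) (by omega)), a4⟩, ?_, a5⟩
        have h2 : 2 ^ (kc + J) ≤ 2 ^ c * hgt g := a1.trans (Nat.mul_le_mul_right _ Nat.lt_two_pow_self.le)
        rw [hkc]
        rcases Nat.lt_or_ge (kc + J) c with h3 | h3
        · rw [Nat.sub_eq_zero_of_le h3.le, pow_zero]
          by_contra h4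
          have h5 : hgt g = 0 := by omega
          rw [h5, mul_zero] at h2
          have := Nat.two_pow_pos (kc + J)
          omega
        · have h4 : 2 ^ (kc + J) = 2 ^ c * 2 ^ (kc + J - c) := by
            rw [← pow_add]
            congr 1
            omega
          rw [h4] at h2
          exact Nat.le_of_mul_le_mul_left h2 (Nat.two_pow_pos c)
      · have f8 : (8 : ℝ) ^ (J + i) = 2 ^ (3 * (J + i)) := by
          rw [show (8 : ℝ) = 2 ^ 3 by norm_num, ← pow_mul]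
        have h1 : C ^ (J + D0) * (8 ^ (J + i) * (1 / 2) ^ Q) ≤ (1 / 2) ^ (J + P) := by
          rw [f8, ← mul_assoc]
          have h2 : C ^ (J + D0) * 2 ^ (3 * (J + i)) ≤ 2 ^ (y * (J + D0) + 3 * (J + i)) := by
            calc C ^ (J + D0) * 2 ^ (3 * (J + i)) ≤ (2 ^ y) ^ (J + D0) * 2 ^ (3 * (J + i)) := by gcongr
              _ = _ := by rw [← pow_mul, ← pow_add]
          have h3 : y * (J + D0) + 3 * (J + i) + (J + P) ≤ Q := by
            have h4 : y * (J + D0) = y * (1 + L) * J + y * P := by rw [hD0]; ring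
            have h5 : z * J = y * (1 + L) * J + 4 * J := by rw [hz]; ring
            omega
          calc C ^ (J + D0) * 2 ^ (3 * (J + i)) * (1 / 2) ^ Q
              ≤ 2 ^ (y * (J + D0) + 3 * (J + i)) * (1 / 2) ^ Q := by gcongr
            _ ≤ (1 / 2) ^ (J + P) :=
              pow_half (y := 1) (P := y * (J + D0) + 3 * (J + i)) (by norm_num) (by norm_num) (by omega)
        calc C ^ (J + D0) * (K * 8 ^ (J + i) * (1 / 2) ^ Q) = K * (C ^ (J + D0) * (8 ^ (J + i) * (1 / 2) ^ Q)) := by ring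
          _ ≤ K * (1 / 2) ^ (J + P) := by gcongr
          _ = K * ((1 / 2) ^ J * (1 / 2) ^ P) := by rw [pow_add]
          _ ≤ _ := by
              refine mul_le_mul_of_nonneg_right ?_ (by positivity)
              have : 0 < A * Kt := by positivity
              linarith
  obtain ⟨dT, hdT, hRT, g3⟩ := main
  refine (h N kc J D0 (RTn kc J c N) dT hN (by omega) hJ hD1 hD2 hdT hRT).trans (ENNReal.ofReal_le_ofReal ?_)
  calc (C ^ (J + D0) * dT + C ^ (J + 1) / 2 ^ D0) * (N / w4 mM (kc + J))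
      ≤ ((K + A * Kt) * ((1 / 2) ^ J * (1 / 2) ^ P) + (1 / 2) ^ J * (1 / 2) ^ P) * (N / w4 mM (kc + J)) := by gcongr
    _ = (K + A * Kt + 1) * (1 / 2) ^ P * (N / w4 mM (kc + J)) * (1 / 2) ^ J := by ring

end PGS

end HexObs
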