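import Pool.Agent.PGS.UpB

/-!
PGS / UpT (helper51): **the layers of the extent for closed words with few letters**.
-/

set_option autoImplicit false

namespace HexObs

namespace PGS

open Finset TS SDN NTW NTA SIM JNT POL

open scoped ENNReal Classical

/-- few leaves at a scale much smaller than the box -/
theorem layC2 {q T : ℕ} (hq : 2 ≤ q) (hT : 1 ≤ T) : ∃ (s k0 : ℕ) (A : ℝ), 1 ≤ A ∧ 5 ≤ s ∧ ∀ N B : ℕ, 1 ≤ N → k0 ≤ B →
    gf {t | t ∈ Cy N ∧ ∃ (X Y w : List Bool) (c : Bool), t = X ++ Y ∧ Y ++ X = w ++ [c] ∧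
      w ∈ ER (B - B / q) (B / q) (RunT (B - B / q) s (2 ^ (B / q - (s + 2)) / T))} ≤
      ENNReal.ofReal (A * (1 / 2) ^ B * (N / w4 mM B)) := by
  obtain ⟨s0, K, hK, hR⟩ := runTall
  obtain ⟨C, k0, hC, hE⟩ := TL.evER
  obtain ⟨D, hD, hDX⟩ := Xb_pow
  obtain ⟨Cm, hCm, hup⟩ := TI.mup_pow (w4_up mup_M)
  obtain ⟨x, hx0, hx⟩ : ∃ x : ℝ, 0 < x ∧ Xb 0 = ENNReal.ofReal x :=
    ⟨(Xb 0).toReal, ENNReal.toReal_pos (Xb_ne_zero 0) (Xb_ne_top 0), (ENNReal.ofReal_toReal (Xb_ne_top 0)).symm⟩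
  have hC0 : 0 < C := by linarith
  have hD0 : 0 < D := by linarith
  have hCm0 : 0 < Cm := by linarith
  have hK0 : 0 < K := by linarith
  obtain ⟨s, hs⟩ : ∃ s, s = s0 + 5 := ⟨_, rfl⟩
  have hw0 := w4_pos mlow_M 0
  obtain ⟨Y, hY⟩ : ∃ Y, Y = C * 2 * D ^ 2 * Cm := ⟨_, rfl⟩
  have hY1 : 1 ≤ Y := by
    rw [hY]
    exact one_le_mul_of_one_le_of_one_le (one_le_mul_of_one_le_of_one_le (by linarith) (one_le_pow₀ hD)) hCm
  have hY2 : 1 ≤ 2 * Y := by linarith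
  obtain ⟨A, hA, hdx⟩ := dexp hY2 (show 1 ≤ q by omega) hT (s + 2)
  refine ⟨s, 2 * k0 + 6 * q, 4 * K * x ^ 2 * w4 mM 0 * A + 1, ?_, by omega, fun N B hN hB => ?_⟩
  · have : 0 ≤ 4 * K * x ^ 2 * w4 mM 0 * A := by positivity
    linarith
  obtain ⟨J, hJ⟩ : ∃ J, J = B / q := ⟨_, rfl⟩
  have hJ6 : 6 ≤ J := by
    rw [hJ, Nat.le_div_iff_mul_le (by omega)]
    omega
  have hJB : 2 * J ≤ B := by
    have h1 : J * q ≤ B := by
      rw [hJ]
      exact Nat.div_mul_le_self _ _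
    have h2 : J * 2 ≤ J * q := Nat.mul_le_mul_left _ hq
    omega
  obtain ⟨V, hV⟩ : ∃ V, V = 2 ^ (B / q - (s + 2)) / T := ⟨_, rfl⟩
  have hdB := hdx B
  rw [← hV] at hdB ⊢
  rw [← hJ]
  obtain ⟨kc, rfl⟩ : ∃ kc, B = kc + J := ⟨B - J, by omega⟩
  rw [Nat.add_sub_cancel]
  have hwB := w4_pos mlow_M (kc + J)
  have hU := Ub_pos (kc + J)
  have hU2 : Ub (kc + J) ≤ 2 ^ (kc + J + 1) := NTA.LQ.Ub_le (kc + J)
  have hNR : (0 : ℝ) < N := by exact_mod_cast hN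
  have hRs : SmR DmJ kc (RunT kc s V) (K / 4 ^ V) := by
    refine SIM.SmR_mono ?_ (hR kc V)
    rintro gs ⟨g, h1, h2, h3, h4⟩
    refine ⟨g, h1, h2, h3, le_trans ?_ h4⟩
    exact Nat.mul_le_mul_left _ (Nat.pow_le_pow_right (by norm_num) (by omega))
  have h1 := hE kc J (RunT kc s V) (K / 4 ^ V) (by omega) hJ6 (by positivity) hRs
  have h2 : Xb (kc + J) ≤ ENNReal.ofReal (D ^ (kc + J) * x) := by
    have := hDX 0 (kc + J)
    rw [Nat.zero_add, hx, ← ENNReal.ofReal_mul (by positivity)] at this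
    exact this
  have h3 : gf (ER kc J (RunT kc s V)) ≤
      ENNReal.ofReal (C ^ J * (K / 4 ^ V) * Ub (kc + J) * (D ^ (kc + J) * x) ^ 2) := by
    refine h1.trans ((mul_le_mul' le_rfl (pow_le_pow_left' h2 2)).trans ?_)
    rw [← ENNReal.ofReal_pow (by positivity), ← ENNReal.ofReal_mul (by positivity)]
  refine (rot_triv (ER kc J (RunT kc s V)) hN fun t ht => ht).trans ?_
  have h4 : (2 : ℝ≥0∞) * (N : ℝ≥0∞) = ENNReal.ofReal (2 * N) := by
    rw [ENNReal.ofReal_mul (by norm_num), ENNReal.ofReal_natCast]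
    norm_num
  rw [h4]
  refine (mul_le_mul' le_rfl h3).trans ?_
  rw [← ENNReal.ofReal_mul (by positivity)]
  refine ENNReal.ofReal_le_ofReal ?_
  have e1 : 1 ≤ Cm ^ (kc + J) * w4 mM 0 / w4 mM (kc + J) := by
    rw [le_div_iff₀ hwB, one_mul]
    have := hup 0 (kc + J)
    rwa [Nat.zero_add] at this
  have e2 : C ^ J ≤ C ^ (kc + J) := pow_le_pow_right₀ hC (by omega)
  have e3 : C ^ J * (K / 4 ^ V) * Ub (kc + J) * (D ^ (kc + J) * x) ^ 2 ≤
      C ^ (kc + J) * (K / 4 ^ V) * 2 ^ (kc + J + 1) * (D ^ (kc + J) * x) ^ 2 := by gcongr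
  have e4 : (2 : ℝ) * N * (C ^ (kc + J) * (K / 4 ^ V) * 2 ^ (kc + J + 1) * (D ^ (kc + J) * x) ^ 2) *
      (Cm ^ (kc + J) * w4 mM 0 / w4 mM (kc + J)) =
      4 * K * x ^ 2 * w4 mM 0 * (Y ^ (kc + J) / 4 ^ V) * (N / w4 mM (kc + J)) := by
    have e6 : (D ^ (kc + J) * x) ^ 2 = (D ^ 2) ^ (kc + J) * x ^ 2 := by
      rw [mul_pow, ← pow_mul, ← pow_mul, mul_comm (kc + J) 2]
    rw [hY, e6, mul_pow (C * 2 * D ^ 2) Cm, mul_pow (C * 2) (D ^ 2), mul_pow C 2, pow_succ]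
    field_simp
    ring
  have e5 : Y ^ (kc + J) / 4 ^ V ≤ A * (1 / 2) ^ (kc + J) := by
    rw [div_le_iff₀ (by positivity)]
    have e7 : Y ^ (kc + J) = (2 * Y) ^ (kc + J) * (1 / 2) ^ (kc + J) := by
      rw [← mul_pow]
      congr 1
      ring
    rw [e7]
    calc (2 * Y) ^ (kc + J) * (1 / 2) ^ (kc + J) ≤ (A * 4 ^ V) * (1 / 2) ^ (kc + J) := by gcongr
      _ = A * (1 / 2) ^ (kc + J) * 4 ^ V := by ring
  calc 2 * (N : ℝ) * (C ^ J * (K / 4 ^ V) * Ub (kc + J) * (D ^ (kc + J) * x) ^ 2)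
      ≤ 2 * N * (C ^ (kc + J) * (K / 4 ^ V) * 2 ^ (kc + J + 1) * (D ^ (kc + J) * x) ^ 2) := by gcongr
    _ ≤ 2 * N * (C ^ (kc + J) * (K / 4 ^ V) * 2 ^ (kc + J + 1) * (D ^ (kc + J) * x) ^ 2) *
        (Cm ^ (kc + J) * w4 mM 0 / w4 mM (kc + J)) := le_mul_of_one_le_right (by positivity) e1
    _ = 4 * K * x ^ 2 * w4 mM 0 * (Y ^ (kc + J) / 4 ^ V) * (N / w4 mM (kc + J)) := e4
    _ ≤ 4 * K * x ^ 2 * w4 mM 0 * (A * (1 / 2) ^ (kc + J)) * (N / w4 mM (kc + J)) := by gcongr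
    _ = 4 * K * x ^ 2 * w4 mM 0 * A * (1 / 2) ^ (kc + J) * (N / w4 mM (kc + J)) := by ring
    _ ≤ (4 * K * x ^ 2 * w4 mM 0 * A + 1) * (1 / 2) ^ (kc + J) * (N / w4 mM (kc + J)) := by
        gcongr
        linarith

/-- the leaves of the rotated word have few letters -/
lemma rot_tl {kc J Mb n N : ℕ} (hN : 1 ≤ N) (hn : 1 ≤ n) (hMb : n ≤ Mb) {t : List Bool}
    (h : t ∈ RotC N (kc + J) (HRm kc (RunTl kc J Mb))) :
    t ∈ RotC N (kc + J) (HRm kc (TlR n (RTn kc J (8 * (2 * Mb + 10) ^ 2) N))) := by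
  obtain ⟨hWC, X, Y, w, c, ht, hw, hwm⟩ := h
  have hWr : w ++ [c] ∈ WC N (kc + J) := by
    have h1 := WC.rot hWC hN X.length
    rwa [ht, rotate_app, hw] at h1
  have hlen : w.length ≤ N := by
    have h1 := hWr.1.1
    rw [List.length_append, List.length_singleton] at h1
    omega
  exact ⟨hWC, X, Y, w, c, ht, hw, hrm_tl hn hMb (WC.open_WL hWr) hlen hwm⟩

lemma half_mono {a b : ℕ} (h : a ≤ b) : (1 / 2 : ℝ) ^ b ≤ (1 / 2) ^ a :=
  pow_le_pow_of_le_one (by norm_num) (by norm_num) h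

/-- **the layers of the extent for closed words with few letters** -/
theorem upTail : UpTail := by
  intro r0
  obtain ⟨M1, ca, ia, A1, hA1, hA⟩ := layA2 normAll r0
  obtain ⟨M2, q, hM2, hq, hB⟩ := layB2 normAll2 r0
  obtain ⟨Mb, hMb⟩ : ∃ Mb, Mb = M1 + M2 + 4 := ⟨_, rfl⟩
  obtain ⟨cb, ib, A2, hA2, hB⟩ := hB Mb (by omega)
  obtain ⟨T, hT⟩ : ∃ T, T = 2 * Mb + 10 := ⟨_, rfl⟩
  obtain ⟨s, k3, A3, hA3, hs, hC⟩ := layC2 (q := 4 * q) (T := T) (by omega) (by omega)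
  obtain ⟨c8, hc8⟩ : ∃ c8, c8 = ca + cb + r0 := ⟨_, rfl⟩
  refine ⟨A1 + 2 * A2 + A3, c8, ia + 2 * ib + k3 + 28 * q + 36 * T ^ 2 + 4 * q * (T + s + 2) + M2 + 20, by linarith,
    fun N k i hN hi hk hk2 hNm => ?_⟩
  obtain ⟨K, hBK⟩ : ∃ K, k + i = K + 1 := ⟨k + i - 1, by omega⟩
  obtain ⟨B, hBd⟩ : ∃ B, B = K + 1 := ⟨_, rfl⟩
  have hBki : k + i = B := by omega
  obtain ⟨Jm, hJm⟩ : ∃ Jm, Jm = B / (4 * q) := ⟨_, rfl⟩
  have h14 : 28 * q ≤ B := by omega
  have hJ7 : 7 ≤ Jm := by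
    rw [hJm, Nat.le_div_iff_mul_le (by omega)]
    omega
  have hJT : T + s + 2 ≤ Jm := by
    rw [hJm, Nat.le_div_iff_mul_le (by omega)]
    have : (T + s + 2) * (4 * q) = 4 * q * (T + s + 2) := by ring
    omega
  have hqJ : 4 * (q * Jm) ≤ B := by
    have h1 : Jm * (4 * q) ≤ B := by
      rw [hJm]
      exact Nat.div_mul_le_self _ _
    have : Jm * (4 * q) = 4 * (q * Jm) := by ring
    omega
  have hJq : 2 * Jm ≤ q * Jm := Nat.mul_le_mul_right _ hq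
  have hT36 : 36 * T ^ 2 ≤ B := by omega
  rw [hBki, show B - 1 = K by omega]
  have hcov : WC N B \ WC N K ⊆ RotC N B (HRf (B - 6) (WinR (B - 6) 6 M1 (Sgl (B - 6) 6) (SglN (B - 6) 6 N))) ∪
      ((⋃ J ∈ Icc 7 Jm, RotC N B (HRm (B - J) (TlR M2 (RTn (B - J) J (8 * (2 * Mb + 10) ^ 2) N)))) ∪
        {t | t ∈ Cy N ∧ ∃ (X Y w : List Bool) (c : Bool), t = X ++ Y ∧ Y ++ X = w ++ [c] ∧
          w ∈ ER (B - B / (4 * q)) (B / (4 * q)) (RunT (B - B / (4 * q)) s (2 ^ (B / (4 * q) - (s + 2)) / T))}) := by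
    rintro t ⟨ht, htK⟩
    rw [hBd] at ht
    obtain ⟨X, Y, w, c, τ, hX, hY, hw, hbot, hfd⟩ := bot_wc ht (by omega) htK
    rw [← hBd] at ht hw
    have hRR : ∀ b, b ≤ K → RR b ≤ 3 * 2 ^ K := by
      intro b hb
      have h1 : (2 : ℤ) ^ b ≤ 2 ^ K := pow_le_pow_right₀ (by norm_num) hb
      unfold RR
      linarith
    by_cases h6 : ManyL w B T 6
    · left
      obtain ⟨m, u, e, hF, -, -, -, hm⟩ := h6
      obtain ⟨kc, hkc⟩ : ∃ kc, B = kc + 6 := ⟨B - 6, by omega⟩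
      rw [show B - 6 = kc by omega] at hF ⊢
      have hlen : w.length ≤ N := by
        have h1 := ht.1.1
        rw [hX, List.length_append, Nat.add_comm, ← List.length_append, hY, List.length_append,
          List.length_singleton] at h1
        omega
      refine ⟨ht, X, Y, w, c, hX, hY, in_AN (J := 6) (by rw [← hkc]; exact hw) hlen hF (by omega)⟩
    right
    rcases sel_scale h6 (show 6 ≤ Jm by omega) with ⟨J, j1, j2, hP, hnP⟩ | hnP
    · left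
      rw [Set.mem_iUnion₂]
      refine ⟨J, Finset.mem_Icc.2 ⟨j1, j2⟩, ?_⟩
      obtain ⟨m, u, e, hF, hu, h0, hem, hm⟩ := hP
      obtain ⟨kc, hkc⟩ : ∃ kc, B = kc + J := ⟨B - J, by omega⟩
      rw [show B - J = kc by omega] at hF ⊢
      obtain ⟨m2, u2, e2, hF2, hu2, h20, hem2⟩ := hfd (kc + 6) (by omega) (hRR _ (by omega))
      have hm2 : m2 < T := by
        by_contra hcon
        refine hnP ⟨m2, u2, e2, ?_, hu2, h20, hem2, by omega⟩
        rwa [show B - (J - 1) + 5 = kc + 6 by omega]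
      rw [hkc] at ht ⊢
      refine rot_tl hN (by omega) (by omega) (few_rot (H := 3 * 2 ^ K) (τ := τ) (by omega) ?_ ?_ ht hX hY hbot hF hu h0
        hem hF2 h20 (by omega) (by omega))
      · rw [← hT, ← hkc]
        have h1 : B < 2 ^ B := Nat.lt_two_pow_self
        omega
      · have h1 : (2 : ℤ) ^ (kc + J - 2) ≤ 2 ^ K := pow_le_pow_right₀ (by norm_num) (by omega)
        linarith
    · right
      refine ⟨ht.1, X, Y, w, c, hX, hY, ?_⟩
      rw [← hJm]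
      obtain ⟨kc, hkc⟩ : ∃ kc, B = kc + Jm := ⟨B - Jm, by omega⟩
      obtain ⟨m, u, e, hF, hu, h0, hem⟩ := hfd (kc + 5) (by omega) (hRR _ (by omega))
      have hm : m < T := by
        by_contra hcon
        refine hnP ⟨m, u, e, ?_, hu, h0, hem, by omega⟩
        rwa [show B - Jm + 5 = kc + 5 by omega]
      rw [show B - Jm = kc by omega]
      obtain ⟨l, hl, h1⟩ := tall_ex hF h0 (i := τ) (i' := 0) hbot.le (Nat.zero_le _)
      have h2 := hbot.top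
      rw [lev_zero, sub_zero] at h1
      have h3 : (3 : ℤ) * 2 ^ K ≤ T * RG w u e l := by
        have h4 := fd_RG hF hl
        have h5 := RR_pos (kc + 5)
        have h6 : (m : ℤ) * RG w u e l ≤ T * RG w u e l := by
          refine mul_le_mul_of_nonneg_right ?_ (by omega)
          exact_mod_cast hm.le
        have h7 := le_abs_self (lev w τ)
        linarith
      obtain ⟨V, hV⟩ : ∃ V, V = 2 ^ (Jm - (s + 2)) / T := ⟨_, rfl⟩
      rw [← hV]
      have hV1 : 1 ≤ V := by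
        rw [hV, Nat.one_le_div_iff (by omega)]
        have h4 : Jm - (s + 2) < 2 ^ (Jm - (s + 2)) := Nat.lt_two_pow_self
        omega
      refine er_tall (by rw [← hkc]; exact hw) hF hl ?_ hV1 hs
      rw [fd_abs hF hl]
      have h5 : (V : ℤ) * T ≤ 2 ^ (Jm - (s + 2)) := by
        have h6 : V * T ≤ 2 ^ (Jm - (s + 2)) := by
          rw [hV]
          exact Nat.div_mul_le_self _ _
        exact_mod_cast h6
      have h8 : (T : ℤ) * (3 * ((V : ℤ) * 2 ^ (kc + s + 1))) ≤ T * RG w u e l := by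
        calc (T : ℤ) * (3 * ((V : ℤ) * 2 ^ (kc + s + 1))) = 3 * ((V * T) * 2 ^ (kc + s + 1)) := by ring
          _ ≤ 3 * (2 ^ (Jm - (s + 2)) * 2 ^ (kc + s + 1)) := by gcongr
          _ = 3 * 2 ^ K := by
              rw [← pow_add]
              congr 2
              omega
          _ ≤ T * RG w u e l := h3
      exact le_of_mul_le_mul_left h8 (by exact_mod_cast (show 0 < T by omega))
  have hw := w4_pos mlow_M B
  have hNR : (0 : ℝ) < N := by exact_mod_cast hN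
  obtain ⟨P, hP⟩ : ∃ P : ℕ, P = 2 ^ (4 * i - c8) := ⟨_, rfl⟩
  rw [← hP]
  have hPa : P ≤ 2 ^ (4 * i - ca) := by
    rw [hP]
    exact Nat.pow_le_pow_right (by norm_num) (by omega)
  have hPb : P ≤ 2 ^ (4 * i - cb) := by
    rw [hP]
    exact Nat.pow_le_pow_right (by norm_num) (by omega)
  have hPk : P ≤ B := by
    have h1 : P ≤ 2 ^ (4 * i - r0) := by
      rw [hP]
      exact Nat.pow_le_pow_right (by norm_num) (by omega)
    omega
  have g1 : gf (RotC N B (HRf (B - 6) (WinR (B - 6) 6 M1 (Sgl (B - 6) 6) (SglN (B - 6) 6 N)))) ≤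
      ENNReal.ofReal (A1 * (1 / 2) ^ P * (N / w4 mM B)) := by
    have h1 := hA N k i hN (by omega) (by omega) hk2 hNm
    rw [hBki] at h1
    refine h1.trans (ENNReal.ofReal_le_ofReal ?_)
    have := half_mono hPa
    gcongr
  have g2 : gf (⋃ J ∈ Icc 7 Jm, RotC N B (HRm (B - J) (TlR M2 (RTn (B - J) J (8 * (2 * Mb + 10) ^ 2) N)))) ≤
      ENNReal.ofReal (2 * A2 * (1 / 2) ^ P * (N / w4 mM B)) := by
    refine (ENNReal.tsum_biUnion_le wE _ _).trans ?_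
    have h1 : ∀ J ∈ Icc 7 Jm, gf (RotC N B (HRm (B - J) (TlR M2 (RTn (B - J) J (8 * (2 * Mb + 10) ^ 2) N)))) ≤
        ENNReal.ofReal (A2 * (1 / 2) ^ P * (N / w4 mM B) * (1 / 2) ^ J) := by
      intro J hJ
      have hJ' := Finset.mem_Icc.1 hJ
      have h2 : q * J ≤ q * Jm := Nat.mul_le_mul_left _ hJ'.2
      have h3 := hB N k i J hN (by omega) (by omega) hk2 hNm (by omega) (by omega)
      rw [hBki] at h3
      refine h3.trans (ENNReal.ofReal_le_ofReal ?_)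
      have := half_mono hPb
      gcongr
    refine (Finset.sum_le_sum h1).trans ?_
    rw [← ENNReal.ofReal_sum_of_nonneg (fun J _ => by positivity)]
    refine ENNReal.ofReal_le_ofReal ?_
    rw [← Finset.mul_sum]
    have h4 : ∑ J ∈ Icc 7 Jm, (1 / 2 : ℝ) ^ J ≤ 2 := by
      refine le_trans (Finset.sum_le_sum_of_subset_of_nonneg (t := range (Jm + 1)) ?_ fun J _ _ => by positivity)
        (sum_geometric_two_le _)
      intro J hJ
      have := Finset.mem_Icc.1 hJ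
      exact Finset.mem_range.2 (by omega)
    calc A2 * (1 / 2) ^ P * (N / w4 mM B) * ∑ J ∈ Icc 7 Jm, (1 / 2 : ℝ) ^ J
        ≤ A2 * (1 / 2) ^ P * (N / w4 mM B) * 2 := by gcongr
      _ = _ := by ring
  have g3 := (hC N B hN (by omega)).trans (ENNReal.ofReal_le_ofReal
    (show A3 * (1 / 2) ^ B * (N / w4 mM B) ≤ A3 * (1 / 2) ^ P * (N / w4 mM B) by
      have := half_mono hPk
      gcongr))
  refine (gf_mono hcov).trans ((gf_union_le _ _).trans ((add_le_add g1 ((gf_union_le _ _).trans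
    (add_le_add g2 g3))).trans ?_))
  rw [← ENNReal.ofReal_add (by positivity) (by positivity), ← ENNReal.ofReal_add (by positivity) (by positivity)]
  refine ENNReal.ofReal_le_ofReal (le_of_eq ?_)
  ring

end PGS

end HexObs
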